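import Pool.Agent.Y760.ZG.Fld

/-!
# Integer combinations of limits of finite sums of characters (helper760)
-/

set_option autoImplicit false

namespace Pool.Agent.Y760.ZG

open Filter Topology Pool.Agent.TH932.Abs Pool.Agent.TH932.Germs Pool.Agent.TH932.Chi
open Pool.Agent.TH796.AL

/-- smaller than every exponential -/
def Nul (L : ℕ → ℝ) (x : HR) : Prop := ∀ t : ℝ, x ∈ SR L t

lemma SR_neg {L : ℕ → ℝ} {t : ℝ} {a : HR} (ha : a ∈ SR L t) : -a ∈ SR L t := by
  obtain ⟨a, rfl⟩ := gr_surj a
  rw [mem_SR] at ha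
  rw [gr_neg, mem_SR]
  intro ε hε
  filter_upwards [ha ε hε] with n h1
  rwa [abs_neg]

section

variable {L : ℕ → ℝ} (hL : Tendsto L atTop atTop)
include hL

lemma SR_sub {t : ℝ} {a b : HR} (ha : a ∈ SR L t) (hb : b ∈ SR L t) : a - b ∈ SR L t := by
  rw [sub_eq_add_neg]
  exact SR_add hL ha (SR_neg hb)

lemma Nul.add {x y : HR} (hx : Nul L x) (hy : Nul L y) : Nul L (x + y) :=
  fun t => SR_add hL (hx t) (hy t)

lemma Nul.sub {x y : HR} (hx : Nul L x) (hy : Nul L y) : Nul L (x - y) :=
  fun t => SR_sub hL (hx t) (hy t)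

lemma Nul.mul {x y : HR} {c : ℝ} (hx : Nul L x) (hy : y ∈ SR L (-c)) : Nul L (x * y) := by
  intro t
  have := SR_mul hL (hx (t + c)) hy
  rwa [add_neg_cancel_right] at this

end

/-- germs of integer sequences of size at most `exp (C L)` -/
def IG (L : ℕ → ℝ) (C : ℝ) (a : GG) : Prop :=
  ∃ z : ℕ → ℤ, a = gm (fun n => (z n : ℚ)) ∧
    ∀ᶠ n in (UU : Filter ℕ), |(z n : ℝ)| ≤ Real.exp (C * L n)

section

variable {L : ℕ → ℝ} (hL : Tendsto L atTop atTop) {C : ℝ} {a : GG} {m : ℕ} (B : Base m)
include hL

lemma IG.fin (h : IG L C a) (v : Fin m) : a ∈ Sv B L (some v) 0 := by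
  obtain ⟨z, rfl, _⟩ := h
  unfold Sv
  rw [mem_SS]
  intro ε hε
  filter_upwards [L_nonneg hL] with n hn
  refine ⟨1, 1, z n, 0, one_ne_zero, ?_, Submonoid.one_mem _, by simp, ?_⟩
  · simp only [Int.cast_one, abs_one]
    exact Real.one_le_exp (by positivity)
  · simp only [Int.cast_zero, zero_mul]
    nlinarith

lemma IG.inf (h : IG L C a) : a ∈ Sv B L none (-C) := by
  obtain ⟨z, rfl, hz⟩ := h
  unfold Sv
  rw [mem_SS]
  intro ε hε
  filter_upwards [L_nonneg hL, hz] with n hn h1
  show |(((z n : ℤ) : ℚ) : ℝ)| ≤ _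
  push_cast
  refine h1.trans (Real.exp_le_exp.2 ?_)
  nlinarith

lemma IG.sint (h : IG L C a) : Sint B L a := by
  obtain ⟨z, rfl, _⟩ := h
  refine ⟨0, ?_⟩
  rw [mem_SS]
  intro ε hε
  filter_upwards [L_nonneg hL] with n hn
  refine ⟨1, z n, fun _ => 0, one_ne_zero, ?_, by simp, fun i => ?_⟩
  · simp only [Int.cast_one, abs_one]
    exact Real.one_le_exp (by positivity)
  · simp only [Int.cast_zero, zero_mul]
    nlinarith

lemma IG.bdd (h : IG L C a) : rho a ∈ SR L (-C) :=
  SR_rho (h.inf hL (bs 0))

end

/-- approximable by finite sums of characters -/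
def DD {L : ℕ → ℝ} (hL : Tendsto L atTop atTop) (F : IntermediateField ℚ ℝ) (y : HR) : Prop :=
  ∀ E : ℝ, ∃ x ∈ SF hL F, y - x ∈ SR L E

section

variable {L : ℕ → ℝ} {hL : Tendsto L atTop atTop} {F : IntermediateField ℚ ℝ}

lemma DD.sub {x y : HR} (hx : DD hL F x) (hy : DD hL F y) : DD hL F (x - y) := by
  intro E
  obtain ⟨a, ha, ha1⟩ := hx E
  obtain ⟨b, hb, hb1⟩ := hy E
  refine ⟨a - b, (SF hL F).sub_mem ha hb, ?_⟩
  have := SR_sub hL ha1 hb1
  rwa [show x - a - (y - b) = x - y - (a - b) by ring] at this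

lemma DD.bdd {x : HR} (hx : DD hL F x) : ∃ c : ℝ, 0 ≤ c ∧ x ∈ SR L (-c) := by
  obtain ⟨a, ha, ha1⟩ := hx 0
  obtain ⟨c, hc, h⟩ := SF_bdd ha
  refine ⟨c, hc, ?_⟩
  have := SR_add hL (SR_anti hL (show -c ≤ 0 by linarith only [hc]) ha1) h
  rwa [sub_add_cancel] at this

lemma DD.mul {x y : HR} (hx : DD hL F x) (hy : DD hL F y) : DD hL F (x * y) := by
  intro E
  obtain ⟨c, hc, hcx⟩ := hx.bdd
  obtain ⟨b, hb, hb1⟩ := hy (E + c)
  obtain ⟨c', hc', hcb⟩ := SF_bdd hb
  obtain ⟨a, ha, ha1⟩ := hx (E + c')
  refine ⟨a * b, (SF hL F).mul_mem ha hb, ?_⟩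
  have h1 := SR_mul hL hcx hb1
  have h2 := SR_mul hL ha1 hcb
  rw [show -c + (E + c) = E by ring] at h1
  rw [show E + c' + -c' = E by ring] at h2
  have := SR_add hL h1 h2
  rwa [show x * (y - b) + (x - a) * b = x * y - a * b by ring] at this

lemma DD.of_SF {x : HR} (hx : x ∈ SF hL F) : DD hL F x := by
  intro E
  refine ⟨x, hx, ?_⟩
  rw [sub_self]
  exact SR_zero E

lemma DD.pow {x : HR} (hx : DD hL F x) (e : ℕ) : DD hL F (x ^ e) := by
  induction e with
  | zero =>
    rw [pow_zero]
    exact DD.of_SF (SF hL F).one_mem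
  | succ e ih =>
    rw [pow_succ]
    exact ih.mul hx

lemma DD.prod {ι : Type*} (s : Finset ι) (f : ι → HR) (h : ∀ i ∈ s, DD hL F (f i)) :
    DD hL F (∏ i ∈ s, f i) :=
  Finset.prod_induction f (DD hL F) (fun _ _ => DD.mul) (DD.of_SF (SF hL F).one_mem) h

lemma sum_ne' {J : Type} [Fintype J] [DecidableEq J] {α : Type} [AddCommMonoid α] (j1 : J)
    (f : J → α) : ∑ j, f j = f j1 + ∑ j : {j // j ≠ j1}, f j := by
  rw [← Finset.add_sum_erase _ _ (Finset.mem_univ j1)]
  congr 1
  refine Finset.sum_bij' (fun j hj => (⟨j, Finset.ne_of_mem_erase hj⟩ : {j // j ≠ j1}))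
    (fun j _ => (j : J)) ?_ ?_ ?_ ?_ ?_
  · intro a _
    exact Finset.mem_univ _
  · intro a _
    exact Finset.mem_erase.2 ⟨a.2, Finset.mem_univ _⟩
  · intro a _
    rfl
  · intro a _
    rfl
  · intro a _
    rfl

/-- **integer combinations of limits of finite sums of characters** -/
theorem gen (hF : FiniteDimensional ℚ F) (k : ℕ) : ∀ (J : Type) [Fintype J] [DecidableEq J],
    Fintype.card J = k → ∀ y : J → HR, (∀ j, DD hL F (y j)) →
    (∀ p : J → GG, (∀ j, rho (p j) ∈ SF hL F) → Nul L (∑ j, rho (p j) * y j) → ∀ j, p j = 0) →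
    ∀ (C : ℝ) (a : J → GG), (∀ j, IG L C (a j)) → Nul L (∑ j, rho (a j) * y j) →
      ∀ j, a j = 0 := by
  classical
  induction k with
  | zero =>
    intro J _ _ hcard y _ _ C a _ _ j
    haveI := Fintype.card_eq_zero_iff.1 hcard
    exact isEmptyElim j
  | succ k ih =>
    intro J _ _ hcard y hy hind C a ha hn
    by_cases hcase : ∀ (m : ℕ) (A : J → Rg m hL), ∑ j, ev (bs m) hL (A j) * a j = 0 →
        ∀ j, A j = 0
    · exfalso
      obtain ⟨j0⟩ : Nonempty J := Fintype.card_pos_iff.1 (by omega)
      have hy0 : ¬ Nul L (y j0) := by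
        intro h0
        have h1 := hind (Pi.single j0 1) (fun j => by
          by_cases hj : j = j0
          · rw [hj, Pi.single_eq_same, map_one]
            exact (SF hL F).one_mem
          · rw [Pi.single_eq_of_ne hj, map_zero]
            exact (SF hL F).zero_mem) (by
          rw [Finset.sum_eq_single j0]
          · rw [Pi.single_eq_same, map_one, one_mul]
            exact h0
          · intro j _ hj
            rw [Pi.single_eq_of_ne hj, map_zero, zero_mul]
          · intro h
            exact absurd (Finset.mem_univ _) h) j0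
        rw [Pi.single_eq_same] at h1
        exact one_ne_zero h1
      obtain ⟨x0, hx0⟩ : ∃ x0, y j0 ∉ SR L x0 := by
        unfold Nul at hy0
        push Not at hy0
        exact hy0
      set E : ℝ := |x0| + |C| + 2 * |C| * Fintype.card J with hE
      have hC := abs_nonneg C
      have hJ : (0 : ℝ) ≤ Fintype.card J := Nat.cast_nonneg _
      have hEx : x0 ≤ E := by
        have h1 := le_abs_self x0
        have h2 : 0 ≤ 2 * |C| * Fintype.card J := by positivity
        rw [hE]
        linarith only [h1, h2, hC]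
      choose x hx hxy using fun j => hy j E
      obtain ⟨m, hm⟩ := SF_common hx
      choose f hf hfx using hm m le_rfl
      have h1 : ∑ j, evA F (bs m) hL (f j) * rho (a j) ∈ SR L (E - |C|) := by
        have e1 : ∑ j, evA F (bs m) hL (f j) * rho (a j) =
            ∑ j, rho (a j) * y j - ∑ j, (y j - x j) * rho (a j) := by
          rw [← Finset.sum_sub_distrib]
          refine Finset.sum_congr rfl fun j _ => ?_
          rw [hfx j]
          ring
        rw [e1]
        refine SR_sub hL (hn _) (SR_sum hL _ _ fun j _ => ?_)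
        have h2 := SR_mul hL (hxy j) ((ha j).bdd hL)
        refine SR_anti hL ?_ h2
        have := le_abs_self C
        linarith only [this]
      have h2 : ∀ g, (f j0).coeff g ≠ 0 → x0 ≤ lv (bs m) none g := by
        intro g hg
        have h3 := kpu mova_thm ext_thm m (bs m) L hL F hF J a C (hcase m)
          (fun v j => (ha j).fin hL (bs m) v) (fun j => (ha j).inf hL (bs m))
          (fun j => (ha j).sint hL (bs m)) f (E - |C|) h1 j0 g hg
        have h4 := le_abs_self x0
        rw [hE] at h3
        linarith only [h3, h4]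
      apply hx0
      have h3 : x j0 ∈ SR L x0 := by
        rw [← hfx j0, evA_sum]
        refine SR_sum hL _ _ fun g hg => ?_
        have h4 := SR_mul hL (SR_KA hL F ((f j0).coeff g))
          (SR_rho (ch_mem (B := bs m) hL none g))
        refine SR_anti hL ?_ h4
        rw [zero_add]
        exact h2 g (Finsupp.mem_support_iff.1 hg)
      have h4 := SR_add hL (SR_anti hL hEx (hxy j0)) h3
      rwa [sub_add_cancel] at h4
    · push Not at hcase
      obtain ⟨m, A, hA, j1, hj1⟩ := hcase
      set p : J → GG := fun j => ev (bs m) hL (A j) with hp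
      have hpS : ∀ j, rho (p j) ∈ SF hL F := fun j => SF_rho_ev (A j)
      have hp1 : p j1 ≠ 0 := fun h => hj1 (su_thm m (bs m) L hL _ h)
      have hrel : ∑ j, p j * a j = 0 := hA
      have hsub : ∀ j : {j // j ≠ j1}, a j = 0 := by
        refine ih {j // j ≠ j1} (by
          have h1 := Fintype.card_subtype_compl (fun j => j = j1)
          rw [Fintype.card_subtype_eq, hcard] at h1
          simpa using h1) (fun j => rho (p j1) * y j - rho (p j) * y j1)
          (fun j => ((DD.of_SF (hpS j1)).mul (hy j)).sub ((DD.of_SF (hpS j)).mul (hy j1)))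
          ?_ C (fun j => a j) (fun j => ha j) ?_
        · intro q hq hq0 j
          set p' : J → GG := fun j =>
            if h : j ≠ j1 then q ⟨j, h⟩ * p j1 else - ∑ i : {i // i ≠ j1}, q i * p i with hp'
          have hp'1 : p' j1 = - ∑ i : {i // i ≠ j1}, q i * p i := by
            rw [hp']
            exact dif_neg (fun h => h rfl)
          have hp'2 : ∀ i : {i // i ≠ j1}, p' i = q i * p j1 := by
            intro i
            rw [hp']
            exact dif_pos i.2
          have h1 := hind p' (fun i => by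
            by_cases hi : i ≠ j1
            · rw [hp'2 ⟨i, hi⟩, map_mul]
              exact (SF hL F).mul_mem (hq _) (hpS _)
            · rw [not_not] at hi
              rw [hi, hp'1, map_neg, map_sum]
              refine (SF hL F).neg_mem ((SF hL F).sum_mem fun i _ => ?_)
              rw [map_mul]
              exact (SF hL F).mul_mem (hq _) (hpS _)) (by
            have e1 : ∑ j, rho (p' j) * y j =
                ∑ i : {i // i ≠ j1}, rho (q i) * (rho (p j1) * y i - rho (p i) * y j1) := by
              rw [sum_ne' j1, hp'1, map_neg, map_sum, neg_mul, Finset.sum_mul, neg_add_eq_sub,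
                ← Finset.sum_sub_distrib]
              refine Finset.sum_congr rfl fun i _ => ?_
              rw [hp'2 i, map_mul, map_mul]
              ring
            rw [e1]
            exact hq0) j
          rw [hp'2 j] at h1
          exact (mul_eq_zero.1 h1).resolve_right hp1
        · obtain ⟨c, _, hc⟩ := SF_bdd (hpS j1)
          have e1 : ∑ j : {j // j ≠ j1}, rho (a j) * (rho (p j1) * y j - rho (p j) * y j1) =
              (∑ j, rho (a j) * y j) * rho (p j1) := by
            have e2 : rho (p j1) * rho (a j1) = - ∑ j : {j // j ≠ j1}, rho (p j) * rho (a j) := by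
              have h1 := congrArg rho hrel
              rw [sum_ne' j1, map_add, map_zero, map_mul, map_sum] at h1
              simp only [map_mul] at h1
              exact eq_neg_of_add_eq_zero_left h1
            have e3 : (∑ j, rho (a j) * y j) * rho (p j1) =
                (rho (p j1) * rho (a j1)) * y j1 +
                  (∑ j : {j // j ≠ j1}, rho (a j) * y j) * rho (p j1) := by
              rw [sum_ne' j1]
              ring
            rw [e3, e2, neg_mul, Finset.sum_mul, Finset.sum_mul, neg_add_eq_sub,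
              ← Finset.sum_sub_distrib]
            refine Finset.sum_congr rfl fun j _ => ?_
            ring
          rw [e1]
          exact hn.mul hL hc
      intro j
      by_cases hj : j = j1
      · rw [sum_ne' j1] at hrel
        have h1 : ∑ j : {j // j ≠ j1}, p j * a j = 0 :=
          Finset.sum_eq_zero fun j _ => by rw [hsub j, mul_zero]
        rw [h1, add_zero] at hrel
        rw [hj]
        exact (mul_eq_zero.1 hrel).resolve_left hp1
      · exact hsub ⟨j, hj⟩

end

end Pool.Agent.Y760.ZG
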