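import Pool.Agent.Y760.ZG.Ind
import Pool.Agent.Y760.PZ.Vec

/-!
# Zeta values at arguments of comparable size: relations of all exponential heights (helper760)
-/

set_option autoImplicit false

namespace Pool.Agent.Y760.ZG

open Filter Topology Pool.Agent.TH932.Abs Pool.Agent.TH932.Germs Pool.Agent.TH932.Chi
open Pool.Agent.TH796.AL Pool.Agent.TH883.Zg

/-- a limit of the arguments -/
lemma exists_lim {I : Type} {n : ℕ → ℕ} (hn : ∀ t, t ≤ n t) {s : ℕ → I → ℕ} {κ : ℝ}
    (hs : ∀ t i, n t ≤ s t i ∧ (s t i : ℝ) ≤ κ * n t) :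
    ∃ x : I → ℝ, (∀ i, 1 ≤ x i) ∧ Lim s x (fun t => (n t : ℝ)) := by
  have h1 : ∀ i, ∃ x : ℝ, x ∈ Set.Icc 1 κ ∧
      Tendsto (fun t => (s t i : ℝ) / n t) (UU : Filter ℕ) (𝓝 x) := by
    intro i
    obtain ⟨x, hx, hx'⟩ := (isCompact_Icc (a := (1 : ℝ)) (b := κ)).ultrafilter_le_nhds
      (UU.map fun t => (s t i : ℝ) / n t) (by
        rw [Filter.le_principal_iff, Ultrafilter.coe_map, Filter.mem_map]
        filter_upwards [ev_of_atTop (eventually_ge_atTop 1)] with t ht
        have h2 := hn t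
        have h3 : (0 : ℝ) < n t := by exact_mod_cast (by omega : 0 < n t)
        have h4 : (n t : ℝ) ≤ s t i := by exact_mod_cast (hs t i).1
        refine ⟨?_, ?_⟩
        · rw [le_div_iff₀ h3, one_mul]
          exact h4
        · rw [div_le_iff₀ h3]
          exact (hs t i).2)
    exact ⟨x, hx, hx'⟩
  choose x hx hx' using h1
  refine ⟨x, fun i => (hx i).1, fun i ε hε => ?_⟩
  have h2 := (Metric.tendsto_nhds.1 (hx' i)) ε hε
  filter_upwards [h2, ev_of_atTop (eventually_ge_atTop 1)] with t h3 ht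
  have h4 := hn t
  have h5 : (0 : ℝ) < n t := by exact_mod_cast (by omega : 0 < n t)
  rw [Real.dist_eq] at h3
  have h6 : (s t i : ℝ) - x i * n t = ((s t i : ℝ) / n t - x i) * n t := by
    field_simp
  rw [h6, abs_mul, abs_of_pos h5]
  exact mul_le_mul_of_nonneg_right h3.le h5.le

theorem main {l k : ℕ} (β : Fin l → ℝ) (hβ : ∀ j, IsAlgebraic ℚ (β j))
    (hli : LinearIndependent ℚ β) (d : ℕ) (κ C : ℝ) :
    ∃ B : ℝ, 1 < B ∧ ∃ n0 : ℕ, ∀ n : ℕ, n0 ≤ n → ∀ s : Fin k → ℕ, Function.Injective s →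
      (∀ i, n ≤ s i ∧ (s i : ℝ) ≤ κ * n) →
      ∀ P : Fin l → MvPolynomial (Fin k) ℤ, P ≠ 0 → (∀ j, (P j).totalDegree ≤ d) →
      (∀ j e, |(((P j).coeff e : ℤ) : ℝ)| ≤ C ^ n) →
      (B ^ n)⁻¹ < |∑ j, β j * MvPolynomial.aeval (fun i => ze (s i)) (P j)| := by
  classical
  by_contra hcon
  push Not at hcon
  have h1 : ∀ t : ℕ, ∃ n : ℕ, t ≤ n ∧ ∃ s : Fin k → ℕ, Function.Injective s ∧
      (∀ i, n ≤ s i ∧ (s i : ℝ) ≤ κ * n) ∧
      ∃ P : Fin l → MvPolynomial (Fin k) ℤ, P ≠ 0 ∧ (∀ j, (P j).totalDegree ≤ d) ∧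
      (∀ j e, |(((P j).coeff e : ℤ) : ℝ)| ≤ C ^ n) ∧
      |∑ j, β j * MvPolynomial.aeval (fun i => ze (s i)) (P j)| ≤ (((t : ℝ) + 2) ^ n)⁻¹ :=
    fun t => hcon ((t : ℝ) + 2) (by
      have : (0 : ℝ) ≤ t := Nat.cast_nonneg t
      linarith only [this]) t
  choose n hn s hinj hs P hP hdeg hC hsmall using h1
  obtain ⟨x, hx, hlim⟩ := exists_lim hn hs
  set L : ℕ → ℝ := fun t => (n t : ℝ) with hLdef
  have hL : Tendsto L atTop atTop :=
    tendsto_natCast_atTop_atTop.comp (tendsto_atTop_mono hn tendsto_id)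
  have hLs : ∀ t i, L t ≤ (s t i : ℝ) := fun t i => by
    show (n t : ℝ) ≤ s t i
    exact_mod_cast (hs t i).1
  -- the number field
  set F : IntermediateField ℚ ℝ := IntermediateField.adjoin ℚ (Set.range β) with hFdef
  have hF : FiniteDimensional ℚ F :=
    IntermediateField.finiteDimensional_adjoin fun x hx => by
      obtain ⟨j, rfl⟩ := hx
      exact (hβ j).isIntegral
  have hβF : ∀ j, β j ∈ F := fun j => IntermediateField.subset_adjoin ℚ _ ⟨j, rfl⟩
  have hβS : ∀ j, algebraMap ℝ HR (β j) ∈ SF hL F := fun j =>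
    SF_of_NQ (q := 0) (m := 0) (NQ.coe ⟨_, cst_mem_KA hL F ⟨β j, hβF j⟩⟩)
  -- the monomials
  set μ : (Fin k → Fin (d + 1)) → Fin k → ℕ := fun e i => d - (e i : ℕ) with hμdef
  have hμ : Function.Injective μ := by
    intro e e' h
    funext i
    have h2 := congrFun h i
    simp only [hμdef] at h2
    have h3 := (e i).2
    have h4 := (e' i).2
    apply Fin.ext
    omega
  have hd : ∀ e i, μ e i ≤ d := fun e i => Nat.sub_le _ _
  set y : (Fin k → Fin (d + 1)) × Fin l → HR := fun p =>
    algebraMap ℝ HR (β p.2) * vv s (μ p.1) with hy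
  set z : (Fin k → Fin (d + 1)) × Fin l → ℕ → ℤ := fun p t => (P t p.2).coeff (exq p.1) with hz
  set a : (Fin k → Fin (d + 1)) × Fin l → GG := fun p => gm fun t => (z p t : ℚ) with ha
  have hIG : ∀ p, IG L (Real.log (|C| + 1)) (a p) := by
    intro p
    refine ⟨z p, rfl, Eventually.of_forall fun t => ?_⟩
    refine (hC t p.2 (exq p.1)).trans ?_
    have h2 : 0 ≤ |C| := abs_nonneg C
    rw [mul_comm, hLdef, Real.exp_nat_mul, Real.exp_log (by linarith only [h2])]
    refine (le_abs_self _).trans ?_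
    rw [abs_pow]
    exact pow_le_pow_left₀ h2 (by linarith only []) _
  have hnul : Nul L (∑ p, rho (a p) * y p) := by
    have e1 : ∑ p, rho (a p) * y p = gr fun t =>
        (∏ i, ((ze (s t i))⁻¹) ^ d) *
          ∑ j, β j * MvPolynomial.aeval (fun i => ze (s t i)) (P t j) := by
      have e2 : ∀ p, rho (a p) * y p = gr fun t => (z p t : ℝ) * (β p.2 *
          ∏ i, ((ze (s t i))⁻¹) ^ (μ p.1 i)) := by
        intro p
        have e3 : vv s (μ p.1) = gr fun t => ∏ i, ((ze (s t i))⁻¹) ^ (μ p.1 i) := by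
          unfold vv eta
          have e4 : ∀ T : Finset (Fin k), ∏ i ∈ T, (gr fun t => (ze (s t i))⁻¹) ^ (μ p.1 i) =
              gr fun t => ∏ i ∈ T, ((ze (s t i))⁻¹) ^ (μ p.1 i) := by
            intro T
            induction T using Finset.induction_on with
            | empty =>
              simp only [Finset.prod_empty]
              exact gr_one.symm
            | insert b T hb ih =>
              simp only [Finset.prod_insert hb]
              rw [ih, ← gr_mul]
              rfl
          exact e4 _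
        rw [ha, hy]
        simp only
        rw [rho_gm, e3, cst_eq, gr_mul, gr_mul]
        congr 1
      have e3 : ∑ p, rho (a p) * y p = gr fun t => ∑ p, (z p t : ℝ) * (β p.2 *
          ∏ i, ((ze (s t i))⁻¹) ^ (μ p.1 i)) := by
        have e4 : ∀ T : Finset ((Fin k → Fin (d + 1)) × Fin l), ∑ p ∈ T, rho (a p) * y p =
            gr fun t => ∑ p ∈ T, (z p t : ℝ) * (β p.2 *
              ∏ i, ((ze (s t i))⁻¹) ^ (μ p.1 i)) := by
          intro T
          induction T using Finset.induction_on with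
          | empty =>
            simp only [Finset.sum_empty]
            exact gr_zero.symm
          | insert b T hb ih =>
            simp only [Finset.sum_insert hb]
            rw [ih, e2, gr_add]
        exact e4 _
      rw [e3, gr_eq]
      filter_upwards [ev_of_atTop (eventually_ge_atTop 2)] with t ht
      have hs2 : ∀ i, 2 ≤ s t i := fun i => by
        have h2 := (hs t i).1
        have h3 := hn t
        omega
      have hz0 : ∀ i, ze (s t i) ≠ 0 := fun i => by
        have := ze_ge_one (hs2 i)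
        linarith only [this]
      rw [Fintype.sum_prod_type, Finset.sum_comm, Finset.mul_sum]
      refine Finset.sum_congr rfl fun j _ => ?_
      rw [Pool.Agent.Y760.PZ.eval_exq' (hdeg t j), Finset.mul_sum, Finset.mul_sum]
      refine Finset.sum_congr rfl fun e _ => ?_
      have e5 : ∏ i, ((ze (s t i))⁻¹) ^ (μ e i) =
          (∏ i, ((ze (s t i))⁻¹) ^ d) * ∏ i, ze (s t i) ^ ((e i : Fin (d + 1)) : ℕ) := by
        rw [← Finset.prod_mul_distrib]
        refine Finset.prod_congr rfl fun i _ => ?_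
        have h5 : d = μ e i + (e i : ℕ) := by
          simp only [hμdef]
          have := (e i).2
          omega
        have h6 := hz0 i
        conv_rhs => rw [show ((ze (s t i))⁻¹) ^ d = ((ze (s t i))⁻¹) ^ (μ e i + (e i : ℕ)) by
          rw [← h5]]
        rw [pow_add, mul_assoc, ← mul_pow, inv_mul_cancel₀ h6, one_pow, mul_one]
      rw [e5]
      ring
    rw [e1]
    intro T
    rw [mem_SR]
    intro ε hε
    have h2 : ∀ᶠ t : ℕ in (UU : Filter ℕ), Real.exp T ≤ (t : ℝ) :=
      ev_of_atTop (tendsto_natCast_atTop_atTop.eventually_ge_atTop _)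
    filter_upwards [h2, ev_of_atTop (eventually_ge_atTop 2)] with t h3 ht
    have hs2 : ∀ i, 2 ≤ s t i := fun i => by
      have h2 := (hs t i).1
      have h3 := hn t
      omega
    rw [abs_mul]
    have h4 : |∏ i, ((ze (s t i))⁻¹) ^ d| ≤ 1 := by
      rw [abs_of_nonneg (Finset.prod_nonneg fun i _ => pow_nonneg (inv_nonneg.2 (by
        have := ze_ge_one (hs2 i)
        linarith only [this])) _)]
      refine Finset.prod_le_one (fun i _ => pow_nonneg (inv_nonneg.2 (by
        have := ze_ge_one (hs2 i)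
        linarith only [this])) _) fun i _ => pow_le_one₀ (inv_nonneg.2 (by
        have := ze_ge_one (hs2 i)
        linarith only [this])) (inv_le_one_of_one_le₀ (ze_ge_one (hs2 i)))
    have h5 : (((t : ℝ) + 2) ^ (n t))⁻¹ ≤ Real.exp (-(T - ε) * L t) := by
      rw [hLdef]
      have h6 : Real.exp (T * (n t : ℝ)) ≤ ((t : ℝ) + 2) ^ (n t) := by
        rw [mul_comm, Real.exp_nat_mul]
        exact pow_le_pow_left₀ (Real.exp_pos _).le (by linarith only [h3]) _
      calc (((t : ℝ) + 2) ^ (n t))⁻¹ ≤ (Real.exp (T * (n t : ℝ)))⁻¹ :=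
            inv_anti₀ (Real.exp_pos _) h6
        _ = Real.exp (-(T * (n t : ℝ))) := (Real.exp_neg _).symm
        _ ≤ Real.exp (-(T - ε) * (n t : ℝ)) := by
            apply Real.exp_le_exp.2
            have : (0 : ℝ) ≤ n t := Nat.cast_nonneg _
            nlinarith only [this, hε]
    calc |∏ i, ((ze (s t i))⁻¹) ^ d| *
          |∑ j, β j * MvPolynomial.aeval (fun i => ze (s t i)) (P t j)| ≤
        1 * (((t : ℝ) + 2) ^ (n t))⁻¹ :=
          mul_le_mul h4 (hsmall t) (abs_nonneg _) zero_le_one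
      _ ≤ _ := by
        rw [one_mul]
        exact h5
  have hmain := gen hF (Fintype.card ((Fin k → Fin (d + 1)) × Fin l))
    ((Fin k → Fin (d + 1)) × Fin l) rfl y
    (fun p => (DD.of_SF (hβS p.2)).mul (DD_vv hL hLs hlim (μ p.1))) ?_ _ a hIG hnul
  · have h2 : ∀ᶠ t in (UU : Filter ℕ), ∀ p, (z p t : ℚ) = 0 := by
      rw [Filter.eventually_all]
      intro p
      have h3 := hmain p
      simp only [ha] at h3
      rw [← gm_zero, gm_eq] at h3
      exact h3
    obtain ⟨t, ht⟩ := h2.exists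
    apply hP t
    funext j
    show P t j = 0
    rw [← MvPolynomial.support_eq_empty, Finset.eq_empty_iff_forall_notMem]
    intro m hm
    obtain ⟨e, he⟩ := exq_surj (hdeg t j) hm
    have h3 := ht (e, j)
    simp only [hz] at h3
    rw [he] at h3
    rw [MvPolynomial.mem_support_iff] at hm
    exact hm (by exact_mod_cast h3)
  · intro p hp hpn
    have h2 : Nul L (∑ e, (∑ j, algebraMap ℝ HR (β j) * rho (p (e, j))) * vQ s (μ e) ∅) := by
      have e1 : ∑ q, rho (p q) * y q =
          ∑ e, (∑ j, algebraMap ℝ HR (β j) * rho (p (e, j))) * vQ s (μ e) ∅ := by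
        rw [Fintype.sum_prod_type]
        refine Finset.sum_congr rfl fun e _ => ?_
        rw [Finset.sum_mul]
        refine Finset.sum_congr rfl fun j _ => ?_
        rw [vQ_empty hL hLs]
        simp only [hy]
        ring
      rw [← e1]
      exact hpn
    have h3 := ind hF hlim hx hLs hinj μ hμ hd (Fintype.card (Fin k → Fin (d + 1))) ∅
      (fun e => ∑ j, algebraMap ℝ HR (β j) * rho (p (e, j))) (fun e =>
        (SF hL F).sum_mem fun j _ => (SF hL F).mul_mem (hβS j) (hp _))
      ⟨Finset.univ, le_of_eq Finset.card_univ, fun e he => absurd (Finset.mem_univ e) he⟩ h2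
    rintro ⟨e, j⟩
    exact disj_thm (Fin l) inferInstance β hli (fun j => p (e, j)) (h3 e) j

end Pool.Agent.Y760.ZG
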