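import Pool.Agent.Y760.ZG.IndD
import Pool.Agent.Y760.ZG.Fin

/-!
# Multiple zeta values with large arguments: relations of all exponential heights (helper760)
-/

set_option autoImplicit false

namespace Pool.Agent.Y760.ZG

open Filter Topology Pool.Agent.TH932.Abs Pool.Agent.TH932.Germs Pool.Agent.TH932.Chi
open Pool.Agent.TH796.AL Pool.Agent.TH883.Zg

/-- the value of a letter -/
def lv1 {g : ℕ} (s : Fin g → ℕ) : ℕ+ ⊕ Fin g → ℕ := Sum.elim (fun b => (b : ℕ)) s

lemma aw_eq {g : ℕ} (s : ℕ → Fin g → ℕ) (t : ℕ) (w : List (ℕ+ ⊕ Fin g)) :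
    aw s t w = w.map (lv1 (s t)) := by
  unfold aw
  refine List.map_congr_left fun a _ => ?_
  cases a <;> rfl

/-- **patterns** -/
theorem mainP {l g : ℕ} (β : Fin l → ℝ) (hβ : ∀ j, IsAlgebraic ℚ (β j))
    (hli : LinearIndependent ℚ β) (Λ : Finset (List (ℕ+ ⊕ Fin g))) (hΛ : ∀ w ∈ Λ, Lg w)
    (κ C : ℝ) :
    ∃ B : ℝ, 1 < B ∧ ∃ n0 : ℕ, ∀ n : ℕ, n0 ≤ n → ∀ s : Fin g → ℕ, Function.Injective s →
      (∀ i, n ≤ s i ∧ (s i : ℝ) ≤ κ * n) → ∀ a : Λ → Fin l → ℤ, a ≠ 0 →
      (∀ w j, |(a w j : ℝ)| ≤ C ^ n) →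
      (B ^ n)⁻¹ < |∑ w : Λ, ∑ j, (β j * a w j) * mz (w.1.map (lv1 s))| := by
  classical
  by_contra hcon
  push Not at hcon
  have h1 : ∀ t : ℕ, ∃ n : ℕ, t ≤ n ∧ ∃ s : Fin g → ℕ, Function.Injective s ∧
      (∀ i, n ≤ s i ∧ (s i : ℝ) ≤ κ * n) ∧ ∃ a : Λ → Fin l → ℤ, a ≠ 0 ∧
      (∀ w j, |(a w j : ℝ)| ≤ C ^ n) ∧
      |∑ w : Λ, ∑ j, (β j * a w j) * mz (w.1.map (lv1 s))| ≤ (((t : ℝ) + 2) ^ n)⁻¹ :=
    fun t => hcon ((t : ℝ) + 2) (by
      have : (0 : ℝ) ≤ t := Nat.cast_nonneg t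
      linarith only [this]) t
  choose n hn s hinj hs a0 ha0 hC hsmall using h1
  obtain ⟨x, hx, hlim⟩ := exists_lim hn hs
  set L : ℕ → ℝ := fun t => (n t : ℝ) with hLdef
  have hL : Tendsto L atTop atTop :=
    tendsto_natCast_atTop_atTop.comp (tendsto_atTop_mono hn tendsto_id)
  have hLs : ∀ t i, L t ≤ (s t i : ℝ) := fun t i => by
    show (n t : ℝ) ≤ s t i
    exact_mod_cast (hs t i).1
  -- the number field
  set F : IntermediateField ℚ ℝ := IntermediateField.adjoin ℚ (Set.range β) with hFdef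
  have hF : FiniteDimensional ℚ F :=
    IntermediateField.finiteDimensional_adjoin fun x hx => by
      obtain ⟨j, rfl⟩ := hx
      exact (hβ j).isIntegral
  have hβF : ∀ j, β j ∈ F := fun j => IntermediateField.subset_adjoin ℚ _ ⟨j, rfl⟩
  have hβS : ∀ j, algebraMap ℝ HR (β j) ∈ SF hL F := fun j =>
    SF_of_NQ (q := 0) (m := 0) (NQ.coe ⟨_, cst_mem_KA hL F ⟨β j, hβF j⟩⟩)
  set y : Λ × Fin l → HR := fun p => algebraMap ℝ HR (β p.2) * Xg s p.1.1 with hy
  set a : Λ × Fin l → GG := fun p => gm fun t => (a0 t p.1 p.2 : ℚ) with ha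
  have hIG : ∀ p, IG L (Real.log (|C| + 1)) (a p) := by
    intro p
    refine ⟨fun t => a0 t p.1 p.2, rfl, Eventually.of_forall fun t => ?_⟩
    refine (hC t p.1 p.2).trans ?_
    have h2 : 0 ≤ |C| := abs_nonneg C
    rw [mul_comm, hLdef, Real.exp_nat_mul, Real.exp_log (by linarith only [h2])]
    refine (le_abs_self _).trans ?_
    rw [abs_pow]
    exact pow_le_pow_left₀ h2 (by linarith only []) _
  have hnul : Nul L (∑ p, rho (a p) * y p) := by
    have e1 : ∑ p, rho (a p) * y p = gr fun t =>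
        ∑ w : Λ, ∑ j, (β j * a0 t w j) * mz (w.1.map (lv1 (s t))) := by
      have e2 : ∀ p, rho (a p) * y p = gr fun t =>
          (β p.2 * a0 t p.1 p.2) * mz (p.1.1.map (lv1 (s t))) := by
        intro p
        rw [ha, hy]
        simp only
        unfold Xg
        rw [rho_gm, cst_eq, gr_mul, gr_mul]
        congr 1
        funext t
        rw [Xt_mz s t (hΛ p.1.1 p.1.2), aw_eq]
        push_cast
        ring
      rw [Finset.sum_congr rfl fun p _ => e2 p, gr_sum]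
      congr 1
      funext t
      rw [Fintype.sum_prod_type]
    rw [e1]
    intro T
    rw [mem_SR]
    intro ε hε
    have h2 : ∀ᶠ t : ℕ in (UU : Filter ℕ), Real.exp T ≤ (t : ℝ) :=
      ev_of_atTop (tendsto_natCast_atTop_atTop.eventually_ge_atTop _)
    filter_upwards [h2] with t h3
    refine (hsmall t).trans ?_
    rw [hLdef]
    have h6 : Real.exp (T * (n t : ℝ)) ≤ ((t : ℝ) + 2) ^ (n t) := by
      rw [mul_comm, Real.exp_nat_mul]
      exact pow_le_pow_left₀ (Real.exp_pos _).le (by linarith only [h3]) _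
    calc (((t : ℝ) + 2) ^ (n t))⁻¹ ≤ (Real.exp (T * (n t : ℝ)))⁻¹ :=
          inv_anti₀ (Real.exp_pos _) h6
      _ = Real.exp (-(T * (n t : ℝ))) := (Real.exp_neg _).symm
      _ ≤ Real.exp (-(T - ε) * (n t : ℝ)) := by
          apply Real.exp_le_exp.2
          have : (0 : ℝ) ≤ n t := Nat.cast_nonneg _
          nlinarith only [this, hε]
  have hmain := gen hF (Fintype.card (Λ × Fin l)) (Λ × Fin l) rfl y
    (fun p => (DD.of_SF (hβS p.2)).mul (DD_Xg hL hLs hlim (hΛ p.1.1 p.1.2))) ?_ _ a hIG hnul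
  · have h2 : ∀ᶠ t in (UU : Filter ℕ), ∀ p : Λ × Fin l, (a0 t p.1 p.2 : ℚ) = 0 := by
      rw [Filter.eventually_all]
      intro p
      have h3 := hmain p
      simp only [ha] at h3
      rw [← gm_zero, gm_eq] at h3
      exact h3
    obtain ⟨t, ht⟩ := h2.exists
    apply ha0 t
    funext w j
    exact_mod_cast ht (w, j)
  · intro p hp hpn
    have h2 : Nul L (∑ w : Λ, (∑ j, algebraMap ℝ HR (β j) * rho (p (w, j))) * Xg s w.1) := by
      have e1 : ∑ q, rho (p q) * y q =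
          ∑ w : Λ, (∑ j, algebraMap ℝ HR (β j) * rho (p (w, j))) * Xg s w.1 := by
        rw [Fintype.sum_prod_type]
        refine Finset.sum_congr rfl fun e _ => ?_
        rw [Finset.sum_mul]
        refine Finset.sum_congr rfl fun j _ => ?_
        simp only [hy]
        ring
      rw [← e1]
      exact hpn
    have h3 := indW hF hlim hx hLs hinj (∑ w : Λ, w.1.length) Λ (fun w => w.1)
      Subtype.val_injective (fun w => hΛ w.1 w.2)
      (fun w => Finset.single_le_sum (f := fun w : Λ => w.1.length) (fun _ _ => Nat.zero_le _)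
        (Finset.mem_univ w))
      (fun w => ∑ j, algebraMap ℝ HR (β j) * rho (p (w, j))) (fun w =>
        (SF hL F).sum_mem fun j _ => (SF hL F).mul_mem (hβS j) (hp _)) h2
    rintro ⟨w, j⟩
    exact disj_thm (Fin l) inferInstance β hli (fun j => p (w, j)) (h3 w) j

end Pool.Agent.Y760.ZG
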