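import Pool.Agent.Y760.ZG.Pt
import Pool.Agent.TH507.ZS.HSb

/-!
# Multiple zeta values as germs: tails and expansions (helper760)
-/

set_option autoImplicit false

namespace Pool.Agent.Y760.ZG

open Filter Topology Pool.Agent.TH932.Abs Pool.Agent.TH932.Germs Pool.Agent.TH932.Chi
open Pool.Agent.TH796.AL

/-- truncated multiple sums -/
noncomputable def hr : List ℕ → ℕ → ℝ
  | [], _ => 1
  | a :: l, m => ∑ j ∈ Finset.Ico 1 m, hr l j / (j : ℝ) ^ a

lemma hr_nil (m : ℕ) : hr [] m = 1 := by rw [hr]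
lemma hr_cons (a : ℕ) (l : List ℕ) (m : ℕ) :
    hr (a :: l) m = ∑ j ∈ Finset.Ico 1 m, hr l j / (j : ℝ) ^ a := by rw [hr]

/-- the multiple zeta value, the first argument belongs to the largest variable -/
noncomputable def mz : List ℕ → ℝ
  | [] => 1
  | a :: l => ∑' k : ℕ, hr l (k + 1) / ((k + 1 : ℕ) : ℝ) ^ a

lemma hr_nonneg (l : List ℕ) : ∀ m, 0 ≤ hr l m := by
  induction l with
  | nil => intro m; rw [hr_nil]; exact zero_le_one
  | cons a l ih =>
    intro m
    rw [hr_cons]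
    exact Finset.sum_nonneg fun j _ => div_nonneg (ih j) (by positivity)

lemma hr_le (l : List ℕ) : ∀ m, 1 ≤ m → hr l m ≤ (m : ℝ) ^ l.length := by
  induction l with
  | nil =>
    intro m _
    rw [hr_nil, List.length_nil, pow_zero]
  | cons a l ih =>
    intro m hm
    rw [hr_cons]
    have hm0 : (0 : ℝ) ≤ m := Nat.cast_nonneg _
    calc ∑ j ∈ Finset.Ico 1 m, hr l j / (j : ℝ) ^ a ≤
        ∑ j ∈ Finset.Ico 1 m, (m : ℝ) ^ l.length := by
          refine Finset.sum_le_sum fun j hj => ?_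
          rw [Finset.mem_Ico] at hj
          have h1 : (1 : ℝ) ≤ j := by exact_mod_cast hj.1
          refine (div_le_self (hr_nonneg _ _) (one_le_pow₀ h1)).trans ((ih j hj.1).trans ?_)
          have h2 : (j : ℝ) ≤ m := by exact_mod_cast hj.2.le
          gcongr
      _ = ((m - 1 : ℕ) : ℝ) * (m : ℝ) ^ l.length := by
          rw [Finset.sum_const, Nat.card_Ico, nsmul_eq_mul]
      _ ≤ (m : ℝ) * (m : ℝ) ^ l.length := by
          have h3 : ((m - 1 : ℕ) : ℝ) ≤ m := by exact_mod_cast Nat.sub_le m 1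
          gcongr
      _ = (m : ℝ) ^ (a :: l).length := by
          rw [List.length_cons, pow_succ, mul_comm]

/-- the tail of a series -/
noncomputable def tl (f : ℕ → ℝ) (k : ℕ) : ℝ := ∑' m : ℕ, f (m + k)

lemma tail_term {f : ℕ → ℝ} {C : ℝ} {A σ : ℕ} (hC : 0 ≤ C) (hσ : A + 2 ≤ σ)
    (hf : ∀ m, 1 ≤ m → |f m| ≤ C * (m : ℝ) ^ A * ((m : ℝ) ^ σ)⁻¹) {k : ℕ} (hk : 1 ≤ k) (m : ℕ) :
    ‖f (m + k)‖ ≤ (C * (k : ℝ) ^ (A + 2) * ((k : ℝ) ^ σ)⁻¹) * (1 / ((m : ℝ) + 1) ^ 2) := by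
  have hk1 : (1 : ℝ) ≤ k := by exact_mod_cast hk
  have hk0 : (0 : ℝ) < k := by linarith only [hk1]
  have hm0 : (0 : ℝ) ≤ m := Nat.cast_nonneg _
  obtain ⟨τ, rfl⟩ := Nat.exists_eq_add_of_le hσ
  refine (hf (m + k) (by omega)).trans ?_
  push_cast
  have e1 : ((m : ℝ) + k) ^ A * (((m : ℝ) + k) ^ (A + 2 + τ))⁻¹ =
      (((m : ℝ) + k) ^ τ)⁻¹ * (((m : ℝ) + k) ^ 2)⁻¹ := by
    have h1 : (0 : ℝ) < (m : ℝ) + k := by linarith only [hm0, hk0]
    rw [pow_add, pow_add]
    field_simp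
  have e2 : (k : ℝ) ^ (A + 2) * ((k : ℝ) ^ (A + 2 + τ))⁻¹ = ((k : ℝ) ^ τ)⁻¹ := by
    rw [pow_add _ (A + 2) τ]
    field_simp
  rw [mul_assoc, e1, mul_assoc C, e2, one_div, mul_assoc]
  refine mul_le_mul_of_nonneg_left ?_ hC
  have h2 : (((m : ℝ) + k) ^ τ)⁻¹ ≤ ((k : ℝ) ^ τ)⁻¹ := by
    refine inv_anti₀ (by positivity) ?_
    exact pow_le_pow_left₀ hk0.le (by linarith only [hm0]) _
  have h3 : (((m : ℝ) + k) ^ 2)⁻¹ ≤ (((m : ℝ) + 1) ^ 2)⁻¹ := by
    refine inv_anti₀ (by positivity) ?_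
    exact pow_le_pow_left₀ (by linarith only [hm0]) (by linarith only [hk1]) _
  exact mul_le_mul h2 h3 (by positivity) (by positivity)

lemma summable_two : Summable fun m : ℕ => 1 / ((m : ℝ) + 1) ^ 2 := by
  have h1 := (summable_nat_add_iff 1).2 (pf_summable (le_refl 2))
  refine h1.congr fun m => ?_
  rw [pf_apply, one_div]
  push_cast
  rfl

lemma tail_sum {f : ℕ → ℝ} {C : ℝ} {A σ : ℕ} (hC : 0 ≤ C) (hσ : A + 2 ≤ σ)
    (hf : ∀ m, 1 ≤ m → |f m| ≤ C * (m : ℝ) ^ A * ((m : ℝ) ^ σ)⁻¹) {k : ℕ} (hk : 1 ≤ k) :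
    Summable fun m => f (m + k) :=
  Summable.of_norm_bounded (summable_two.mul_left _) (tail_term hC hσ hf hk)

lemma tail_bd {f : ℕ → ℝ} {C : ℝ} {A σ : ℕ} (hC : 0 ≤ C) (hσ : A + 2 ≤ σ)
    (hf : ∀ m, 1 ≤ m → |f m| ≤ C * (m : ℝ) ^ A * ((m : ℝ) ^ σ)⁻¹) {k : ℕ} (hk : 1 ≤ k) :
    |tl f k| ≤ C * ze 2 * (k : ℝ) ^ (A + 2) * ((k : ℝ) ^ σ)⁻¹ := by
  have h1 := tsum_of_norm_bounded (summable_two.mul_left
    (C * (k : ℝ) ^ (A + 2) * ((k : ℝ) ^ σ)⁻¹)).hasSum (tail_term hC hσ hf hk)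
  rw [Real.norm_eq_abs] at h1
  refine h1.trans (le_of_eq ?_)
  rw [tsum_mul_left]
  show _ * ze 2 = _
  ring

lemma tail_split {f : ℕ → ℝ} (hf : Summable fun m => f (m + 1)) {k : ℕ} (hk : 1 ≤ k) :
    ∑ m ∈ Finset.Ico 1 k, f m = tl f 1 - tl f k := by
  obtain ⟨j, rfl⟩ := Nat.exists_eq_add_of_le hk
  have h1 := hf.sum_add_tsum_nat_add j
  unfold tl
  rw [← h1, Finset.sum_Ico_eq_sum_range, Nat.add_sub_cancel_left]
  have e1 : ∀ i, f (i + j + 1) = f (i + (1 + j)) := fun i => by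
    congr 1
    omega
  simp only [e1]
  rw [add_sub_cancel_right]
  exact Finset.sum_congr rfl fun i _ => by rw [add_comm 1 i]

section

variable {I : Type} [Fintype I] [DecidableEq I] (s : ℕ → I → ℕ)

/-- the arguments of a word -/
def aw (n : ℕ) (w : List (ℕ+ ⊕ I)) : List ℕ := w.map (lx s n)

omit [Fintype I] [DecidableEq I] in
lemma aw_nil (n : ℕ) : aw s n [] = [] := rfl
omit [Fintype I] [DecidableEq I] in
lemma aw_cons (n : ℕ) (a : ℕ+ ⊕ I) (w : List (ℕ+ ⊕ I)) :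
    aw s n (a :: w) = lx s n a :: aw s n w := rfl
omit [Fintype I] [DecidableEq I] in
lemma aw_length (n : ℕ) (w : List (ℕ+ ⊕ I)) : (aw s n w).length = w.length := by
  unfold aw
  rw [List.length_map]

/-- the remainder -/
noncomputable def Rt (n : ℕ) : List (ℕ+ ⊕ I) → ℕ → ℝ
  | [], _ => 0
  | .inr i :: u, k => - tl (fun m => hr (aw s n u) m / (m : ℝ) ^ (s n i)) k
  | .inl b :: u, k => - tl (fun m => Rt n u m / (m : ℝ) ^ (b : ℕ)) k

omit [Fintype I] [DecidableEq I] in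
lemma Rt_nil (n k : ℕ) : Rt s n ([] : List (ℕ+ ⊕ I)) k = 0 := by rw [Rt]
omit [Fintype I] [DecidableEq I] in
lemma Rt_inr (n : ℕ) (i : I) (u : List (ℕ+ ⊕ I)) (k : ℕ) :
    Rt s n (.inr i :: u) k = - tl (fun m => hr (aw s n u) m / (m : ℝ) ^ (s n i)) k := by rw [Rt]
omit [Fintype I] [DecidableEq I] in
lemma Rt_inl (n : ℕ) (b : ℕ+) (u : List (ℕ+ ⊕ I)) (k : ℕ) :
    Rt s n (.inl b :: u) k = - tl (fun m => Rt s n u m / (m : ℝ) ^ (b : ℕ)) k := by rw [Rt]

/-- the coefficients of the expansions -/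
noncomputable def Xt (n : ℕ) : List (ℕ+ ⊕ I) → ℝ
  | [] => 1
  | a :: u => - Rt s n (a :: u) 1

omit [Fintype I] [DecidableEq I] in
lemma Xt_nil (n : ℕ) : Xt s n ([] : List (ℕ+ ⊕ I)) = 1 := rfl
omit [Fintype I] [DecidableEq I] in
lemma Xt_cons (n : ℕ) (a : ℕ+ ⊕ I) (u : List (ℕ+ ⊕ I)) :
    Xt s n (a :: u) = - Rt s n (a :: u) 1 := rfl

/-- the words that are empty or begin with a large letter -/
def Lg (w : List (ℕ+ ⊕ I)) : Prop := w = [] ∨ ∃ i u, w = .inr i :: u

omit [Fintype I] [DecidableEq I] in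
lemma Xt_mz (n : ℕ) {w : List (ℕ+ ⊕ I)} (hw : Lg w) : Xt s n w = mz (aw s n w) := by
  rcases hw with rfl | ⟨i, u, rfl⟩
  · rw [Xt_nil, aw_nil, mz]
  · rw [Xt_cons, Rt_inr, neg_neg, aw_cons, mz]
    rfl

/-- a small word as a list of numbers -/
def cl : List ℕ+ → List ℕ
  | [] => []
  | b :: β => (b : ℕ) :: cl β

/-- the splittings of a word with a small first part -/
def sp : List (ℕ+ ⊕ I) → List (List ℕ+ × List (ℕ+ ⊕ I))
  | [] => [([], [])]
  | .inr i :: u => [([], .inr i :: u)]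
  | .inl b :: u => ([], .inl b :: u) :: (sp u).map fun p => (b :: p.1, p.2)

omit [Fintype I] [DecidableEq I] in
lemma sp_Lg {w : List (ℕ+ ⊕ I)} (hw : Lg w) : sp w = [([], w)] := by
  rcases hw with rfl | ⟨i, u, rfl⟩
  · rw [sp]
  · rw [sp]

omit [Fintype I] [DecidableEq I] in
lemma Rt_bd (n : ℕ) (w : List (ℕ+ ⊕ I)) {σ : ℕ} (hσ : 2 * w.length ≤ σ) (hs : ∀ i, σ ≤ s n i) :
    ∀ k : ℕ, 1 ≤ k → |Rt s n w k| ≤ ze 2 ^ w.length * (k : ℝ) ^ (2 * w.length) *
      ((k : ℝ) ^ σ)⁻¹ := by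
  have hz := ze_ge_one (le_refl 2)
  have hz0 : 0 ≤ ze 2 := by linarith only [hz]
  induction w with
  | nil =>
    intro k _
    rw [Rt_nil, abs_zero]
    positivity
  | cons a u ih =>
    intro k hk
    rw [List.length_cons] at hσ ⊢
    cases a with
    | inr i =>
      rw [Rt_inr, abs_neg]
      have h1 := tail_bd (f := fun m => hr (aw s n u) m / (m : ℝ) ^ (s n i)) (C := 1)
        (A := 2 * u.length) (σ := σ) zero_le_one (by omega) (fun m hm => by
          have hm1 : (1 : ℝ) ≤ m := by exact_mod_cast hm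
          have h2 := hr_le (aw s n u) m hm
          rw [aw_length] at h2
          rw [abs_of_nonneg (div_nonneg (hr_nonneg _ _) (by positivity)), div_eq_mul_inv, one_mul]
          refine mul_le_mul (h2.trans (pow_le_pow_right₀ hm1 (by omega)))
            (inv_anti₀ (by positivity) (pow_le_pow_right₀ hm1 (hs i))) (by positivity)
            (by positivity)) hk
      refine h1.trans ?_
      rw [one_mul]
      have h3 : ze 2 ≤ ze 2 ^ (u.length + 1) := by
        rw [pow_succ]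
        exact le_mul_of_one_le_left hz0 (one_le_pow₀ hz)
      have h4 : 2 * u.length + 2 = 2 * (u.length + 1) := by ring
      rw [h4]
      gcongr
    | inl b =>
      rw [Rt_inl, abs_neg]
      have h1 := tail_bd (f := fun m => Rt s n u m / (m : ℝ) ^ (b : ℕ)) (C := ze 2 ^ u.length)
        (A := 2 * u.length) (σ := σ) (by positivity) (by omega) (fun m hm => by
          have hm1 : (1 : ℝ) ≤ m := by exact_mod_cast hm
          rw [abs_div, abs_of_nonneg (by positivity : (0 : ℝ) ≤ (m : ℝ) ^ (b : ℕ))]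
          exact (div_le_self (abs_nonneg _) (one_le_pow₀ hm1)).trans (ih (by omega) m hm)) hk
      refine h1.trans (le_of_eq ?_)
      rw [pow_succ]
      ring

omit [Fintype I] [DecidableEq I] in
/-- **the expansion** -/
lemma expand (n : ℕ) (w : List (ℕ+ ⊕ I)) {σ : ℕ} (hσ : 2 * w.length ≤ σ) (hs : ∀ i, σ ≤ s n i) :
    ∀ k : ℕ, 1 ≤ k → hr (aw s n w) k =
      ((sp w).map fun p => hr (cl p.1) k * Xt s n p.2).sum + Rt s n w k := by
  have hz := ze_ge_one (le_refl 2)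
  have hz0 : 0 ≤ ze 2 := by linarith only [hz]
  induction w with
  | nil =>
    intro k _
    rw [sp, aw_nil, hr_nil, Rt_nil]
    simp [cl, hr_nil, Xt_nil]
  | cons a u ih =>
    intro k hk
    rw [List.length_cons] at hσ
    cases a with
    | inr i =>
      have e1 : sp (Sum.inr i :: u : List (ℕ+ ⊕ I)) = [([], .inr i :: u)] := by rw [sp]
      rw [e1]
      rw [aw_cons (I := I)]
      have e2 : hr (lx s n (Sum.inr i) :: aw s n u) k =
        ∑ j ∈ Finset.Ico 1 k, hr (aw s n u) j / (j : ℝ) ^ (s n i) := hr_cons _ _ _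
      rw [e2]
      have h1 : Summable fun m => (fun m => hr (aw s n u) m / (m : ℝ) ^ (s n i)) (m + 1) :=
        tail_sum (f := fun m => hr (aw s n u) m / (m : ℝ) ^ (s n i)) (k := 1) (C := 1)
          (A := 2 * u.length) (σ := σ) zero_le_one (by omega) (fun m hm => by
          have hm1 : (1 : ℝ) ≤ m := by exact_mod_cast hm
          have h2 := hr_le (aw s n u) m hm
          rw [aw_length] at h2
          rw [abs_of_nonneg (div_nonneg (hr_nonneg _ _) (by positivity)), div_eq_mul_inv, one_mul]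
          refine mul_le_mul (h2.trans (pow_le_pow_right₀ hm1 (by omega)))
            (inv_anti₀ (by positivity) (pow_le_pow_right₀ hm1 (hs i))) (by positivity)
            (by positivity)) le_rfl
      have h2 := tail_split (f := fun m => hr (aw s n u) m / (m : ℝ) ^ (s n i)) h1 hk
      rw [List.map_singleton, List.sum_singleton]
      show _ = hr [] k * Xt s n (Sum.inr i :: u) + _
      rw [hr_nil, one_mul, Xt_cons, Rt_inr, Rt_inr, neg_neg, ← sub_eq_add_neg]
      exact h2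
    | inl b =>
      rw [sp, aw_cons, hr_cons]
      have h1 : Summable fun m => (fun m => Rt s n u m / (m : ℝ) ^ (b : ℕ)) (m + 1) :=
        tail_sum (f := fun m => Rt s n u m / (m : ℝ) ^ (b : ℕ)) (k := 1)
          (C := ze 2 ^ u.length) (A := 2 * u.length) (σ := σ) (by positivity) (by omega)
          (fun m hm => by
            have hm1 : (1 : ℝ) ≤ m := by exact_mod_cast hm
            rw [abs_div, abs_of_nonneg (by positivity : (0 : ℝ) ≤ (m : ℝ) ^ (b : ℕ))]
            exact (div_le_self (abs_nonneg _) (one_le_pow₀ hm1)).trans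
              (Rt_bd s n u (by omega) hs m hm)) le_rfl
      have h2 := tail_split (f := fun m => Rt s n u m / (m : ℝ) ^ (b : ℕ)) h1 hk
      have h3 : ∑ j ∈ Finset.Ico 1 k, hr (aw s n u) j / (j : ℝ) ^ (lx s n (.inl b)) =
          ∑ j ∈ Finset.Ico 1 k, ((sp u).map fun p =>
            hr (cl p.1) j * Xt s n p.2).sum / (j : ℝ) ^ (b : ℕ) +
          ∑ j ∈ Finset.Ico 1 k, Rt s n u j / (j : ℝ) ^ (b : ℕ) := by
        rw [← Finset.sum_add_distrib]
        refine Finset.sum_congr rfl fun j hj => ?_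
        rw [Finset.mem_Ico] at hj
        rw [ih (by omega) j hj.1, add_div]
        rfl
      rw [h3, h2]
      have h4 : ∀ l : List (List ℕ+ × List (ℕ+ ⊕ I)),
          ∑ j ∈ Finset.Ico 1 k, (l.map fun p =>
            hr (cl p.1) j * Xt s n p.2).sum / (j : ℝ) ^ (b : ℕ) =
          ((l.map fun p => (b :: p.1, p.2)).map fun p =>
            hr (cl p.1) k * Xt s n p.2).sum := by
        intro l
        induction l with
        | nil => simp
        | cons p l ihl =>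
          simp only [List.map_cons, List.sum_cons] at ihl ⊢
          rw [← ihl]
          simp only [add_div]
          rw [Finset.sum_add_distrib]
          congr 1
          show _ = hr ((b : ℕ) :: cl p.1) k * Xt s n p.2
          rw [hr_cons, Finset.sum_mul]
          refine Finset.sum_congr rfl fun j _ => ?_
          ring
      rw [h4, List.map_cons, List.sum_cons]
      show _ = hr [] k * Xt s n (Sum.inl b :: u) + _ + _
      rw [hr_nil, one_mul, Xt_cons, Rt_inl, Rt_inl, neg_neg]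
      ring

end

/-! ### germs -/

lemma gr_sum {ι : Type*} (t : Finset ι) (f : ι → ℕ → ℝ) :
    ∑ i ∈ t, gr (f i) = gr fun n => ∑ i ∈ t, f i n := by
  classical
  induction t using Finset.induction_on with
  | empty =>
    simp only [Finset.sum_empty]
    exact gr_zero.symm
  | insert b t hb ih =>
    simp only [Finset.sum_insert hb]
    rw [ih, gr_add]

section

variable {I : Type} [Fintype I] [DecidableEq I] (s : ℕ → I → ℕ)

/-- the remainder as a germ -/
noncomputable def Rg (w : List (ℕ+ ⊕ I)) (k : ℕ) : HR := gr fun n => Rt s n w k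

/-- the coefficients as germs -/
noncomputable def Xg (w : List (ℕ+ ⊕ I)) : HR := gr fun n => Xt s n w

lemma rho_Gq (w : List (ℕ+ ⊕ I)) : ∀ k, rho (Gq s w k) = gr fun n => hr (aw s n w) k := by
  induction w with
  | nil =>
    intro k
    rw [Gq_nil, map_one, ← gr_one]
    rfl
  | cons a u ih =>
    intro k
    rw [Gq_cons, map_sum]
    have h1 : ∀ m ∈ Finset.Ico 1 k, rho (lg s a m * Gq s u m) =
        gr fun n => hr (aw s n u) m / (m : ℝ) ^ (lx s n a) := by
      intro m _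
      rw [map_mul, ih m]
      unfold lg
      rw [rho_gm, gr_mul]
      congr 1
      funext n
      push_cast
      rw [div_eq_inv_mul]
    rw [Finset.sum_congr rfl h1, gr_sum]
    rfl

variable {s} {L : ℕ → ℝ} (hL : Tendsto L atTop atTop) (hLs : ∀ n i, L n ≤ (s n i : ℝ))
include hL hLs

lemma ev_sig (r : ℕ) : ∀ᶠ n in (UU : Filter ℕ), 2 * r ≤ ⌈L n⌉₊ ∧ ∀ i, ⌈L n⌉₊ ≤ s n i := by
  filter_upwards [ev_of_atTop (hL.eventually_ge_atTop ((2 * r : ℕ) : ℝ))] with n hn
  refine ⟨?_, fun i => Nat.ceil_le.2 (hLs n i)⟩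
  exact_mod_cast hn.trans (Nat.le_ceil _)

lemma SR_Rg (w : List (ℕ+ ⊕ I)) {k : ℕ} (hk : 1 ≤ k) : Rg s w k ∈ SR L (Real.log k) := by
  unfold Rg
  rw [mem_SR]
  intro ε hε
  have h1 := SR_cst hL (ze 2 ^ w.length * (k : ℝ) ^ (2 * w.length))
  rw [cst_eq, mem_SR] at h1
  have hk1 : (1 : ℝ) ≤ k := by exact_mod_cast hk
  filter_upwards [h1 ε hε, ev_sig hL hLs w.length, L_nonneg hL] with n h2 h3 h4
  have h5 := Rt_bd s n w h3.1 h3.2 k hk
  refine h5.trans ?_
  have h6 : ((k : ℝ) ^ ⌈L n⌉₊)⁻¹ ≤ Real.exp (-(Real.log k) * L n) := by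
    rw [show ((k : ℝ) ^ ⌈L n⌉₊)⁻¹ = Real.exp (-(Real.log k) * (⌈L n⌉₊ : ℝ)) by
      rw [neg_mul, Real.exp_neg, mul_comm (Real.log k), Real.exp_nat_mul,
        Real.exp_log (by linarith only [hk1])]]
    apply Real.exp_le_exp.2
    have h7 := Nat.le_ceil (L n)
    have h8 := Real.log_nonneg hk1
    nlinarith only [h7, h8]
  have h7 := (le_abs_self _).trans h2
  calc ze 2 ^ w.length * (k : ℝ) ^ (2 * w.length) * ((k : ℝ) ^ ⌈L n⌉₊)⁻¹ ≤
      Real.exp (-(0 - ε) * L n) * Real.exp (-(Real.log k) * L n) :=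
        mul_le_mul h7 h6 (by positivity) (by positivity)
    _ = Real.exp (-(Real.log k - ε) * L n) := by
      rw [← Real.exp_add]
      congr 1
      ring

lemma SR_Xg (w : List (ℕ+ ⊕ I)) : Xg s w ∈ SR L 0 := by
  cases w with
  | nil =>
    have h1 : Xg s ([] : List (ℕ+ ⊕ I)) = 1 := by
      unfold Xg
      simp only [Xt_nil]
      exact gr_one
    rw [h1]
    exact (Un.one hL).2.1
  | cons a u =>
    have h1 : Xg s (a :: u) = - Rg s (a :: u) 1 := by
      unfold Xg Rg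
      rw [gr_neg]
      rfl
    rw [h1]
    refine SR_neg ?_
    have h2 := SR_Rg hL hLs (a :: u) (le_refl 1)
    rwa [Nat.cast_one, Real.log_one] at h2

lemma Gq_expand (w : List (ℕ+ ⊕ I)) {k : ℕ} (hk : 1 ≤ k) :
    rho (Gq s w k) = ((sp w).map fun p => algebraMap ℝ HR (hr (cl p.1) k) * Xg s p.2).sum +
      Rg s w k := by
  have h1 : ∀ l : List (List ℕ+ × List (ℕ+ ⊕ I)),
      (l.map fun p => algebraMap ℝ HR (hr (cl p.1) k) * Xg s p.2).sum =
        gr fun n => (l.map fun p => hr (cl p.1) k * Xt s n p.2).sum := by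
    intro l
    induction l with
    | nil =>
      simp only [List.map_nil, List.sum_nil]
      exact gr_zero.symm
    | cons p l ih =>
      simp only [List.map_cons, List.sum_cons]
      rw [ih, cst_eq]
      unfold Xg
      rw [gr_mul, gr_add]
  rw [rho_Gq, h1]
  unfold Rg
  rw [gr_add, gr_eq]
  filter_upwards [ev_sig hL hLs w.length] with n hn
  exact expand s n w hn.1 hn.2 k hk

lemma Gq_Lg {w : List (ℕ+ ⊕ I)} (hw : Lg w) {k : ℕ} (hk : 1 ≤ k) :
    rho (Gq s w k) = Xg s w + Rg s w k := by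
  rw [Gq_expand hL hLs w hk, sp_Lg hw, List.map_singleton, List.sum_singleton]
  show algebraMap ℝ HR (hr [] k) * _ + _ = _
  rw [hr_nil, map_one, one_mul]

lemma DD_Xg {F : IntermediateField ℚ ℝ} {x : I → ℝ} (hs : Lim s x L) {w : List (ℕ+ ⊕ I)}
    (hw : Lg w) : DD hL F (Xg s w) := by
  intro E
  obtain ⟨k, hk⟩ := exists_nat_ge (Real.exp E)
  have hk0 : (0 : ℝ) < k := lt_of_lt_of_le (Real.exp_pos E) hk
  have hk1 : 1 ≤ k := by
    have : 0 < k := by exact_mod_cast hk0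
    omega
  refine ⟨rho (Gq s w k), SF_Gq hs w k, ?_⟩
  rw [Gq_Lg hL hLs hw hk1, sub_add_cancel_left]
  refine SR_neg (SR_anti hL ?_ (SR_Rg hL hLs w hk1))
  rw [Real.le_log_iff_exp_le hk0]
  exact hk

lemma trunc_sum {W : Type} [Fintype W] {w : W → List (ℕ+ ⊕ I)} (hw : ∀ v, Lg (w v))
    {c : W → HR} {K : ℝ} (hK : ∀ v, c v ∈ SR L (-K)) (hn : Nul L (∑ v, c v * Xg s (w v)))
    {k : ℕ} (hk : 1 ≤ k) : ∑ v, c v * rho (Gq s (w v) k) ∈ SR L (Real.log k - K) := by
  have e1 : ∑ v, c v * rho (Gq s (w v) k) =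
      ∑ v, c v * Xg s (w v) + ∑ v, c v * Rg s (w v) k := by
    rw [← Finset.sum_add_distrib]
    refine Finset.sum_congr rfl fun v _ => ?_
    rw [Gq_Lg hL hLs (hw v) hk]
    ring
  rw [e1]
  refine SR_add hL (hn _) (SR_sum hL _ _ fun v _ => ?_)
  have h1 := SR_mul hL (hK v) (SR_Rg hL hLs (w v) hk)
  refine SR_anti hL (le_of_eq ?_) h1
  ring

end

end Pool.Agent.Y760.ZG
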