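import Pool.Agent.Y760.ZG.Mz
import Pool.Agent.TH883.Zg.Sign

/-!
# Sums over clusters of large exponents: the envelope argument (helper760)
-/

set_option autoImplicit false

namespace Pool.Agent.Y760.ZG

open Filter Topology Pool.Agent.TH932.Abs Pool.Agent.TH932.Germs Pool.Agent.TH932.Chi
open Pool.Agent.TH796.AL
open Pool.Agent.TH507.HS (hs hs_nil hs_cons)

lemma hr_cl (β : List ℕ+) : ∀ k, hr (cl β) k = ((hs β k : ℚ) : ℝ) := by
  induction β with
  | nil =>
    intro k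
    rw [cl, hr_nil, hs_nil, Rat.cast_one]
  | cons b β ih =>
    intro k
    rw [cl, hr_cons, hs_cons]
    push_cast
    exact Finset.sum_congr rfl fun j _ => by rw [ih]

/-- independence at the primes over the real numbers -/
lemma hs_real (Λ : Finset (List ℕ+)) (h Y : ℕ) (c : Fin (h + 1) × Λ → ℝ)
    (hc : ∀ q : ℕ, q.Prime → Y ≤ q →
      ∑ x : Fin (h + 1) × Λ, c x * (hr (cl x.2.1) q / (q : ℝ) ^ (x.1 : ℕ)) = 0) : c = 0 := by
  funext x0
  refine (Module.forall_dual_apply_eq_zero_iff ℚ (c x0)).1 fun φ => ?_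
  have h1 := Pool.Agent.TH883.Zg.hs_prime Λ h Y (fun x => φ (c x)) (fun q hq hY => by
    have h2 := congrArg φ (hc q hq hY)
    rw [map_zero, map_sum] at h2
    rw [← h2]
    refine Finset.sum_congr rfl fun x _ => ?_
    have e1 : c x * (hr (cl x.2.1) q / (q : ℝ) ^ (x.1 : ℕ)) =
        (hs x.2.1 q / (q : ℚ) ^ (x.1 : ℕ)) • c x := by
      rw [Rat.smul_def, hr_cl]
      push_cast
      ring
    rw [e1, map_smul, smul_eq_mul, mul_comm])
  exact congrFun h1 x0

/-! ### ultrafilters -/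

lemma ult_fin {α : Type} [Finite α] (f : ℕ → α) : ∃ a, ∀ᶠ n in (UU : Filter ℕ), f n = a := by
  obtain ⟨a, ha⟩ := Ultrafilter.eq_pure_of_finite (UU.map f)
  refine ⟨a, ?_⟩
  have h1 : ({a} : Set α) ∈ UU.map f := by
    rw [ha]
    exact Ultrafilter.mem_pure.2 rfl
  exact h1

lemma ult_int {D : ℕ → ℤ} {c : ℤ} (h : ∀ᶠ n in (UU : Filter ℕ), |D n| ≤ c) :
    ∃ d, ∀ᶠ n in (UU : Filter ℕ), D n = d := by
  have h0 : Set.Icc (-c) c ∈ UU.map D := by
    show ∀ᶠ n in (UU : Filter ℕ), D n ∈ Set.Icc (-c) c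
    filter_upwards [h] with n hn
    exact abs_le.1 hn
  obtain ⟨a, _, ha⟩ := Ultrafilter.eq_pure_of_finite_mem (Set.finite_Icc (-c) c) h0
  refine ⟨a, ?_⟩
  have h1 : ({a} : Set ℤ) ∈ UU.map D := by
    rw [ha]
    exact Ultrafilter.mem_pure.2 rfl
  exact h1

lemma ult_lim {f : ℕ → ℝ} {c : ℝ} (h : ∀ᶠ n in (UU : Filter ℕ), |f n| ≤ c) :
    ∃ l, Tendsto f (UU : Filter ℕ) (𝓝 l) := by
  obtain ⟨x, _, hx'⟩ := (isCompact_Icc (a := -c) (b := c)).ultrafilter_le_nhds
    (UU.map f) (by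
      rw [Filter.le_principal_iff, Ultrafilter.coe_map, Filter.mem_map]
      filter_upwards [h] with t ht
      exact abs_le.1 ht)
  exact ⟨x, hx'⟩

lemma ult_tri (D : ℕ → ℤ) : (∃ d, ∀ᶠ n in (UU : Filter ℕ), D n = d) ∨
    Tendsto D (UU : Filter ℕ) atTop ∨ Tendsto D (UU : Filter ℕ) atBot := by
  by_cases h1 : Tendsto D (UU : Filter ℕ) atTop
  · exact Or.inr (Or.inl h1)
  by_cases h2 : Tendsto D (UU : Filter ℕ) atBot
  · exact Or.inr (Or.inr h2)
  left
  rw [tendsto_atTop] at h1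
  rw [tendsto_atBot] at h2
  push Not at h1 h2
  obtain ⟨b1, hb1⟩ := h1
  obtain ⟨b2, hb2⟩ := h2
  refine ult_int (c := |b1| + |b2|) ?_
  filter_upwards [hb1, hb2] with n h5 h6
  have h7 := le_abs_self b1
  have h8 := neg_abs_le b2
  have h9 := abs_nonneg b1
  have h10 := abs_nonneg b2
  rw [abs_le]
  constructor <;> linarith only [h5, h6, h7, h8, h9, h10]

lemma SR_dom {L : ℕ → ℝ} {t : ℝ} {f g : ℕ → ℝ} (hg : gr g ∈ SR L t)
    (h : ∀ᶠ n in (UU : Filter ℕ), |f n| ≤ |g n|) : gr f ∈ SR L t := by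
  rw [mem_SR] at hg ⊢
  intro ε hε
  filter_upwards [hg ε hε, h] with n h1 h2
  exact h2.trans h1

lemma SR_tendsto {L : ℕ → ℝ} (hL : Tendsto L atTop atTop) {f : ℕ → ℝ} {δ : ℝ} (hδ : 0 < δ)
    (h : gr f ∈ SR L δ) : Tendsto f (UU : Filter ℕ) (𝓝 0) := by
  rw [mem_SR] at h
  have h1 := h (δ / 2) (by positivity)
  refine squeeze_zero_norm' (a := fun n => Real.exp (-(δ / 2) * L n)) ?_ ?_
  · filter_upwards [h1] with n hn
    rw [Real.norm_eq_abs]
    refine hn.trans (le_of_eq ?_)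
    congr 1
    ring
  · have hU : Tendsto L (UU : Filter ℕ) atTop := by
      rw [tendsto_atTop]
      intro b
      exact ev_of_atTop (hL.eventually_ge_atTop b)
    exact Real.tendsto_exp_atBot.comp (hU.const_mul_atTop_of_neg (by linarith only [hδ]))

lemma exists_env {I : Type} [Finite I] [Nonempty I] (A : ℕ → I → ℕ → ℝ) :
    ∃ i, Set.Infinite {q : ℕ | ∀ᶠ n in (UU : Filter ℕ), ∀ j, A q j n ≤ A q i n} := by
  choose g hg using fun q n => Finite.exists_max (fun j : I => A q j n)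
  choose a ha using fun q => ult_fin (g q)
  obtain ⟨i, hi⟩ := Finite.exists_infinite_fiber a
  refine ⟨i, ?_⟩
  have h1 : (a ⁻¹' {i}).Infinite := Set.infinite_coe_iff.1 hi
  refine h1.mono fun q hq => ?_
  have hq' : a q = i := hq
  show ∀ᶠ n in (UU : Filter ℕ), ∀ j, A q j n ≤ A q i n
  filter_upwards [ha q] with n hn
  rw [← hq', ← hn]
  exact hg q n

/-- the last step -/
lemma env_fin {I : Type} [Fintype I] [DecidableEq I] (Λ : Finset (List ℕ+)) (cls : Finset I)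
    (d : I → ℤ) (hd : ∀ j ∈ cls, ∀ j' ∈ cls, d j = d j' → j = j') (η : I → Λ → ℝ) (q1 : ℕ)
    (h : ∀ q : ℕ, q1 ≤ q → ∑ j ∈ cls, ((pr q : ℝ) ^ (d j))⁻¹ *
      ∑ β : Λ, hr (cl β.1) (pr q) * η j β = 0) : ∀ j ∈ cls, ∀ β, η j β = 0 := by
  classical
  intro j0 hj0 β0
  set D : ℕ := ∑ j, (d j).natAbs with hD
  have hdD : ∀ j, (d j).natAbs ≤ D := fun j =>
    Finset.single_le_sum (f := fun j => (d j).natAbs) (fun _ _ => Nat.zero_le _)
      (Finset.mem_univ j)
  set e : I → ℕ := fun j => (d j + D).toNat with he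
  have hej : ∀ j, (e j : ℤ) = d j + D := by
    intro j
    have h1 := hdD j
    have h2 : 0 ≤ d j + D := by omega
    rw [he]
    exact Int.toNat_of_nonneg h2
  set H : ℕ := ∑ j, e j with hH
  have heH : ∀ j, e j < H + 1 := fun j =>
    Nat.lt_succ_of_le (Finset.single_le_sum (f := e) (fun _ _ => Nat.zero_le _)
      (Finset.mem_univ j))
  set c : Fin (H + 1) × Λ → ℝ := fun x => ∑ j ∈ cls.filter (fun j => e j = x.1), η j x.2 with hc
  have h1 := hs_real Λ H (pr q1) c (fun p hp hY => by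
    obtain ⟨q, hq, rfl⟩ : ∃ q, q1 ≤ q ∧ pr q = p := by
      refine ⟨Nat.count Nat.Prime p, ?_, Nat.nth_count hp⟩
      by_contra hcon
      rw [not_le] at hcon
      have h2 : pr (Nat.count Nat.Prime p) < pr q1 :=
        (Nat.nth_lt_nth Nat.infinite_setOfPred_prime).2 hcon
      unfold pr at h2 hY
      rw [Nat.nth_count hp] at h2
      omega
    have hp0 : (pr q : ℝ) ≠ 0 := by exact_mod_cast (pr_prime q).ne_zero
    have h2 := h q hq
    have h3 : ∑ x : Fin (H + 1) × Λ, c x * (hr (cl x.2.1) (pr q) / (pr q : ℝ) ^ (x.1 : ℕ)) =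
        ((pr q : ℝ) ^ D)⁻¹ * ∑ j ∈ cls, ((pr q : ℝ) ^ (d j))⁻¹ *
          ∑ β : Λ, hr (cl β.1) (pr q) * η j β := by
      rw [Fintype.sum_prod_type, Finset.mul_sum]
      have h4 : ∀ j ∈ cls, ((pr q : ℝ) ^ D)⁻¹ * (((pr q : ℝ) ^ (d j))⁻¹ *
          ∑ β : Λ, hr (cl β.1) (pr q) * η j β) =
          ∑ x : Fin (H + 1), if e j = x then ∑ β : Λ, η j β * (hr (cl β.1) (pr q) /
            (pr q : ℝ) ^ (x : ℕ)) else 0 := by
        intro j _
        symm
        rw [Finset.sum_eq_single (⟨e j, heH j⟩ : Fin (H + 1))]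
        · rw [if_pos rfl, ← mul_assoc, Finset.mul_sum]
          refine Finset.sum_congr rfl fun β _ => ?_
          have h5 : ((pr q : ℝ) ^ D)⁻¹ * ((pr q : ℝ) ^ (d j))⁻¹ = ((pr q : ℝ) ^ (e j))⁻¹ := by
            rw [← mul_inv, ← zpow_natCast, ← zpow_natCast, ← zpow_add₀ hp0, hej j, add_comm]
          rw [h5]
          show η j β * (hr (cl β.1) (pr q) / (pr q : ℝ) ^ (e j)) = _
          rw [div_eq_mul_inv]
          ring
        · intro x _ hx
          rw [if_neg]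
          intro h5
          exact hx (Fin.ext h5.symm)
        · intro h5
          exact absurd (Finset.mem_univ _) h5
      rw [Finset.sum_congr rfl h4, Finset.sum_comm (s := cls)]
      refine Finset.sum_congr rfl fun x _ => ?_
      rw [← Finset.sum_filter, Finset.sum_comm (s := cls.filter _)]
      refine Finset.sum_congr rfl fun β _ => ?_
      rw [hc]
      simp only
      rw [Finset.sum_mul]
    rw [h3, h2, mul_zero])
  have h2 := congrFun h1 (⟨e j0, heH j0⟩, β0)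
  rw [hc] at h2
  simp only [Pi.zero_apply] at h2
  have h3 : cls.filter (fun j => e j = e j0) = {j0} := by
    ext j
    rw [Finset.mem_filter, Finset.mem_singleton]
    constructor
    · rintro ⟨h4, h5⟩
      refine hd j h4 j0 hj0 ?_
      have h6 := hej j
      have h7 := hej j0
      rw [h5] at h6
      linarith only [h6, h7]
    · rintro rfl
      exact ⟨hj0, rfl⟩
  rw [h3, Finset.sum_singleton] at h2
  exact h2

lemma pr_lt {p q : ℕ} (h : p < q) : pr p < pr q :=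
  (Nat.nth_lt_nth Nat.infinite_setOfPred_prime).2 h

/-- **the envelope argument** -/
lemma env {I : Type} [Fintype I] [DecidableEq I] (Λ : Finset (List ℕ+)) {s : ℕ → I → ℕ}
    (hinj : ∀ n, Function.Injective (s n)) {L : ℕ → ℝ} (hL : Tendsto L atTop atTop)
    (γ : ℕ → ℕ → ℝ) (hU : ∀ q i, Un L (gr fun n => γ q n * ((pr q : ℝ) ^ (s n i))⁻¹))
    (y : I → Λ → ℕ → ℝ) (hy : ∀ᶠ n in (UU : Filter ℕ), ∑ i, ∑ β, |y i β n| = 1)
    (q0 : ℕ) {δ : ℝ} (hδ : 0 < δ)
    (h : ∀ q, q0 ≤ q → (gr fun n => γ q n * ∑ i, ((pr q : ℝ) ^ (s n i))⁻¹ *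
      ∑ β : Λ, hr (cl β.1) (pr q) * y i β n) ∈ SR L δ) : False := by
  classical
  set b : I → ℕ → ℝ := fun i n => ∑ β, |y i β n| with hb
  have hb0 : ∀ i n, 0 ≤ b i n := fun i n => Finset.sum_nonneg fun _ _ => abs_nonneg _
  have hyb : ∀ᶠ n in (UU : Filter ℕ), ∑ i, b i n = 1 := hy
  have hne : Nonempty I := by
    by_contra hI
    rw [not_nonempty_iff] at hI
    obtain ⟨n, hn⟩ := hyb.exists
    rw [Finset.univ_eq_empty, Finset.sum_empty] at hn
    exact zero_ne_one hn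
  have hP1 : ∀ q, (1 : ℝ) < pr q := fun q => by exact_mod_cast (pr_prime q).one_lt
  have hP0 : ∀ q, (0 : ℝ) < pr q := fun q => by linarith only [hP1 q]
  obtain ⟨i0, hi0⟩ := exists_env (fun q j n => ((pr q : ℝ) ^ (s n j))⁻¹ * b j n)
  set Q : Set ℕ := {q : ℕ | ∀ᶠ n in (UU : Filter ℕ), ∀ j, ((pr q : ℝ) ^ (s n j))⁻¹ * b j n ≤
    ((pr q : ℝ) ^ (s n i0))⁻¹ * b i0 n} with hQ
  set D : I → ℕ → ℤ := fun j n => (s n j : ℤ) - s n i0 with hD
  have hPD : ∀ q j n, (pr q : ℝ) ^ (D j n) =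
      (pr q : ℝ) ^ (s n j) * ((pr q : ℝ) ^ (s n i0))⁻¹ := by
    intro q j n
    rw [hD]
    simp only
    rw [zpow_sub₀ (hP0 q).ne', zpow_natCast, zpow_natCast, div_eq_mul_inv]
  have key : ∀ q, q ∈ Q → ∀ᶠ n in (UU : Filter ℕ), ∀ j,
      b j n ≤ (pr q : ℝ) ^ (D j n) * b i0 n := by
    intro q hq
    filter_upwards [hq] with n hn j
    rw [hPD, mul_assoc]
    have h1 : (0 : ℝ) < (pr q : ℝ) ^ (s n j) := pow_pos (hP0 q) _
    calc b j n = (pr q : ℝ) ^ (s n j) * (((pr q : ℝ) ^ (s n j))⁻¹ * b j n) := by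
          rw [mul_inv_cancel_left₀ h1.ne']
      _ ≤ _ := mul_le_mul_of_nonneg_left (hn j) h1.le
  obtain ⟨q1, hq1⟩ := hi0.nonempty
  have hbpos : ∀ᶠ n in (UU : Filter ℕ), 0 < b i0 n := by
    filter_upwards [key q1 hq1, hyb] with n h1 h2
    rcases (hb0 i0 n).lt_or_eq with h3 | h3
    · exact h3
    · exfalso
      have h4 : ∑ i, b i n = 0 := Finset.sum_eq_zero fun j _ => by
        have h5 := h1 j
        rw [← h3, mul_zero] at h5
        exact le_antisymm h5 (hb0 j n)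
      rw [h4] at h2
      exact zero_ne_one h2
  have hbinv : gr (fun n => (b i0 n)⁻¹) ∈ SR L 0 := by
    choose g hg using fun n => Finite.exists_max (fun j : I => b j n)
    obtain ⟨j0, hj0⟩ := ult_fin g
    have h1 := (hU q1 i0).mul hL (hU q1 j0).inv
    have h2 := SR_mul hL (SR_cst hL (Fintype.card I : ℝ)) h1.2.1
    rw [add_zero, cst_eq, gr_inv, gr_mul, gr_mul] at h2
    refine SR_dom h2 ?_
    filter_upwards [hj0, key q1 hq1, hyb, hbpos, gr_ne_zero.1 (hU q1 j0).1] with n h3 h4 h5 h6 h7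
    have h8 : 1 ≤ (Fintype.card I : ℝ) * b j0 n := by
      rw [← h5]
      calc ∑ i, b i n ≤ ∑ _i : I, b j0 n := Finset.sum_le_sum fun i _ => by
            rw [← h3]
            exact hg n i
        _ = _ := by rw [Finset.sum_const, nsmul_eq_mul, Finset.card_univ]
    have h9 := h4 j0
    have h10 : (b i0 n)⁻¹ ≤ (Fintype.card I : ℝ) * (pr q1 : ℝ) ^ (D j0 n) := by
      rw [inv_le_iff_one_le_mul₀ h6]
      calc 1 ≤ (Fintype.card I : ℝ) * b j0 n := h8
        _ ≤ (Fintype.card I : ℝ) * ((pr q1 : ℝ) ^ (D j0 n) * b i0 n) := by gcongr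
        _ = _ := by ring
    rw [abs_of_pos (inv_pos.2 h6)]
    refine h10.trans (le_trans (le_of_eq ?_) (le_abs_self _))
    rw [hPD]
    have h11 : γ q1 n ≠ 0 := left_ne_zero_of_mul h7
    have h12 := (pow_pos (hP0 q1) (s n j0)).ne'
    have h13 := (pow_pos (hP0 q1) (s n i0)).ne'
    field_simp
  set E : ℕ → ℕ → ℝ := fun q n => ∑ j, ((pr q : ℝ) ^ (D j n))⁻¹ *
    ∑ β : Λ, hr (cl β.1) (pr q) * (y j β n / b i0 n) with hEdef
  have hE : ∀ q, q0 ≤ q → Tendsto (E q) (UU : Filter ℕ) (𝓝 0) := by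
    intro q hq
    have h1 := SR_mul hL (h q hq) (SR_mul hL (hU q i0).2.2 hbinv)
    rw [gr_inv, gr_mul, gr_mul, add_zero, add_zero] at h1
    refine SR_tendsto hL (δ := δ) hδ (SR_dom h1 ?_)
    filter_upwards [gr_ne_zero.1 (hU q i0).1] with n hn
    refine le_of_eq ?_
    congr 1
    rw [hEdef]
    simp only
    rw [Finset.mul_sum, Finset.sum_mul]
    refine Finset.sum_congr rfl fun j _ => ?_
    have h11 : γ q n ≠ 0 := left_ne_zero_of_mul hn
    have h12 := (pow_pos (hP0 q) (s n j)).ne'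
    have h13 := (pow_pos (hP0 q) (s n i0)).ne'
    rw [hPD]
    have h14 : ∑ β : Λ, hr (cl β.1) (pr q) * (y j β n / b i0 n) =
        (∑ β : Λ, hr (cl β.1) (pr q) * y j β n) * (b i0 n)⁻¹ := by
      rw [Finset.sum_mul]
      refine Finset.sum_congr rfl fun β _ => ?_
      rw [div_eq_mul_inv, mul_assoc]
    rw [h14]
    field_simp
  have hlim : ∀ j, (∃ d, ∀ᶠ n in (UU : Filter ℕ), D j n = d) → ∀ β, ∃ l,
      Tendsto (fun n => y j β n / b i0 n) (UU : Filter ℕ) (𝓝 l) := by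
    rintro j ⟨d, hd⟩ β
    refine ult_lim (c := (pr q1 : ℝ) ^ d) ?_
    filter_upwards [hd, key q1 hq1, hbpos] with n h1 h2 h3
    rw [abs_div, abs_of_pos h3, div_le_iff₀ h3]
    have h4 := h2 j
    rw [h1] at h4
    exact (Finset.single_le_sum (f := fun β => |y j β n|) (fun _ _ => abs_nonneg _)
      (Finset.mem_univ β)).trans h4
  have hneg : ∀ j, (¬ ∃ d, ∀ᶠ n in (UU : Filter ℕ), D j n = d) → ∀ q, q1 < q →
      Tendsto (fun n => ((pr q : ℝ) ^ (D j n))⁻¹ * (b j n / b i0 n)) (UU : Filter ℕ) (𝓝 0) := by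
    intro j hj q hq
    obtain ⟨q2, hq2, hq2'⟩ : ∃ q2 ∈ Q, Tendsto (fun n => (D j n : ℝ) *
        Real.log ((pr q2 : ℝ) / pr q)) (UU : Filter ℕ) atBot := by
      rcases (ult_tri (D j)).resolve_left hj with h1 | h1
      · refine ⟨q1, hq1, ?_⟩
        have h2 : Real.log ((pr q1 : ℝ) / pr q) < 0 := by
          refine Real.log_neg (div_pos (hP0 _) (hP0 _)) ?_
          rw [div_lt_one (hP0 _)]
          exact_mod_cast pr_lt hq
        exact (tendsto_intCast_atTop_iff.2 h1).atTop_mul_const_of_neg h2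
      · obtain ⟨q2, hq2, hq2'⟩ := hi0.exists_gt q
        refine ⟨q2, hq2, ?_⟩
        have h2 : 0 < Real.log ((pr q2 : ℝ) / pr q) := by
          refine Real.log_pos ?_
          rw [one_lt_div (hP0 _)]
          exact_mod_cast pr_lt hq2'
        exact (tendsto_intCast_atBot_iff.2 h1).atBot_mul_const h2
    have h3 := Real.tendsto_exp_atBot.comp hq2'
    refine squeeze_zero_norm' ?_ h3
    filter_upwards [key q2 hq2, hbpos] with n h4 h5
    have h6 : (0 : ℝ) < (pr q : ℝ) ^ (D j n) := zpow_pos (hP0 q) _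
    rw [Real.norm_eq_abs, abs_of_nonneg (mul_nonneg (inv_nonneg.2 h6.le)
      (div_nonneg (hb0 j n) h5.le))]
    have h7 : b j n / b i0 n ≤ (pr q2 : ℝ) ^ (D j n) := by
      rw [div_le_iff₀ h5]
      exact h4 j
    refine (mul_le_mul_of_nonneg_left h7 (inv_nonneg.2 h6.le)).trans (le_of_eq ?_)
    show _ = Real.exp ((D j n : ℝ) * Real.log ((pr q2 : ℝ) / pr q))
    rw [mul_comm (D j n : ℝ), Real.exp_mul, Real.exp_log (div_pos (hP0 _) (hP0 _)),
      Real.rpow_intCast, div_zpow, div_eq_inv_mul]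
  choose! d hd using fun (j : I) (hj : ∃ d, ∀ᶠ n in (UU : Filter ℕ), D j n = d) => hj
  choose! η hη using hlim
  set cls : Finset I := Finset.univ.filter fun j => ∃ d, ∀ᶠ n in (UU : Filter ℕ), D j n = d
    with hcls
  have hmem : ∀ j, j ∈ cls ↔ ∃ d, ∀ᶠ n in (UU : Filter ℕ), D j n = d := by
    intro j
    rw [hcls, Finset.mem_filter]
    exact ⟨fun h => h.2, fun h => ⟨Finset.mem_univ _, h⟩⟩
  have hzero := env_fin Λ cls d (fun j hj j' hj' hjj => by
      have h1 := hd j ((hmem j).1 hj)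
      have h2 := hd j' ((hmem j').1 hj')
      obtain ⟨n, h3, h4⟩ := (h1.and h2).exists
      rw [hD] at h3 h4
      simp only at h3 h4
      refine hinj n ?_
      rw [hjj] at h3
      omega) η (q0 + q1 + 1) (fun q hq => by
    have h1 : Tendsto (E q) (UU : Filter ℕ) (𝓝 (∑ j, if j ∈ cls then ((pr q : ℝ) ^ (d j))⁻¹ *
        ∑ β : Λ, hr (cl β.1) (pr q) * η j β else 0)) := by
      rw [hEdef]
      refine tendsto_finset_sum _ fun j _ => ?_
      split_ifs with hj
      · have h2 : Tendsto (fun n => ((pr q : ℝ) ^ (d j))⁻¹ * ∑ β : Λ, hr (cl β.1) (pr q) *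
            (y j β n / b i0 n)) (UU : Filter ℕ) (𝓝 (((pr q : ℝ) ^ (d j))⁻¹ *
            ∑ β : Λ, hr (cl β.1) (pr q) * η j β)) :=
          (tendsto_finset_sum _ fun β _ => (hη j ((hmem j).1 hj) β).const_mul _).const_mul _
        refine h2.congr' ?_
        filter_upwards [hd j ((hmem j).1 hj)] with n hn
        rw [hn]
      · have h2 := hneg j (fun h => hj ((hmem j).2 h)) q (by omega)
        have h3 := h2.const_mul (∑ β : Λ, hr (cl β.1) (pr q))
        rw [mul_zero] at h3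
        refine squeeze_zero_norm' ?_ h3
        filter_upwards [hbpos] with n h5
        have h6 : (0 : ℝ) < (pr q : ℝ) ^ (D j n) := zpow_pos (hP0 q) _
        rw [Real.norm_eq_abs, abs_mul, abs_of_pos (inv_pos.2 h6), mul_left_comm]
        refine mul_le_mul_of_nonneg_left ?_ (inv_pos.2 h6).le
        refine (Finset.abs_sum_le_sum_abs _ _).trans ?_
        rw [Finset.sum_mul]
        refine Finset.sum_le_sum fun β _ => ?_
        rw [abs_mul, abs_of_nonneg (hr_nonneg _ _), abs_div, abs_of_pos h5]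
        refine mul_le_mul_of_nonneg_left ?_ (hr_nonneg _ _)
        refine div_le_div_of_nonneg_right ?_ h5.le
        exact Finset.single_le_sum (f := fun β => |y j β n|) (fun _ _ => abs_nonneg _)
          (Finset.mem_univ β)
    have h2 := tendsto_nhds_unique h1 (hE q (by omega))
    rw [Finset.sum_ite_mem, Finset.univ_inter] at h2
    exact h2)
  have hi0c : ∃ d, ∀ᶠ n in (UU : Filter ℕ), D i0 n = d :=
    ⟨0, Eventually.of_forall fun n => by rw [hD]; exact sub_self _⟩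
  have h1 : Tendsto (fun n => ∑ β : Λ, |y i0 β n / b i0 n|) (UU : Filter ℕ)
      (𝓝 (∑ β : Λ, |η i0 β|)) :=
    tendsto_finset_sum _ fun β _ => (hη i0 hi0c β).abs
  have h2 : Tendsto (fun n => ∑ β : Λ, |y i0 β n / b i0 n|) (UU : Filter ℕ) (𝓝 1) := by
    refine tendsto_const_nhds.congr' ?_
    filter_upwards [hbpos] with n hn
    simp only [abs_div, abs_of_pos hn]
    rw [← Finset.sum_div]
    exact (div_self hn.ne').symm
  have h3 := tendsto_nhds_unique h1 h2
  rw [Finset.sum_eq_zero fun β _ => by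
    rw [hzero i0 ((hmem i0).2 hi0c) β, abs_zero]] at h3
  exact zero_ne_one h3

end Pool.Agent.Y760.ZG
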