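import Mathlib

/-!
# Partial Euler products (helper760)
-/

set_option autoImplicit false

namespace Pool.Agent.Y760.ZG

open Filter Topology

/-- the zeta value at `s` -/
noncomputable def ze (s : ℕ) : ℝ := ∑' m : ℕ, 1 / ((m : ℝ) + 1) ^ s

/-- the completely multiplicative function `n ↦ n ^ (-s)` -/
noncomputable def pf (s : ℕ) : ℕ →* ℝ where
  toFun n := ((n : ℝ) ^ s)⁻¹
  map_one' := by simp
  map_mul' a b := by
    push_cast
    rw [mul_pow, mul_inv]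

lemma pf_apply (s n : ℕ) : pf s n = ((n : ℝ) ^ s)⁻¹ := rfl

lemma pf_summable {s : ℕ} (hs : 2 ≤ s) : Summable (pf s) := by
  have := (Real.summable_nat_pow_inv (p := s)).2 (by omega)
  exact this

lemma ze_eq {s : ℕ} (hs : 2 ≤ s) : ze s = ∑' n : ℕ, pf s n := by
  rw [(pf_summable hs).tsum_eq_zero_add, pf_apply]
  have h0 : (((0 : ℕ) : ℝ) ^ s)⁻¹ = 0 := by
    rw [Nat.cast_zero, zero_pow (by omega), inv_zero]
  rw [h0, zero_add]
  unfold ze
  refine tsum_congr fun n => ?_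
  rw [pf_apply, one_div]
  push_cast
  rfl

lemma ze_ge_one {s : ℕ} (hs : 2 ≤ s) : 1 ≤ ze s := by
  rw [ze_eq hs]
  have h1 := (pf_summable hs).le_tsum 1 (fun n _ => by
    rw [pf_apply]
    positivity)
  rw [pf_apply] at h1
  simpa using h1

lemma ze_le {s : ℕ} (hs : 2 ≤ s) : ze s ≤ ze 2 := by
  rw [ze_eq hs, ze_eq le_rfl]
  refine (pf_summable hs).tsum_le_tsum (fun n => ?_) (pf_summable le_rfl)
  rw [pf_apply, pf_apply]
  rcases Nat.eq_zero_or_pos n with h | h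
  · subst h
    rw [Nat.cast_zero, zero_pow (by omega), zero_pow (by omega)]
  · have h1 : (1 : ℝ) ≤ n := by exact_mod_cast h
    gcongr

/-- the tail -/
lemma ze_smooth (N : ℕ) (hN : 0 < N) {s : ℕ} (hs : 2 ≤ s) :
    |ze s - ∏ p ∈ N.primesBelow, (1 - pf s p)⁻¹| ≤ (N : ℝ) ^ 2 * ze 2 * ((N : ℝ) ^ s)⁻¹ := by
  classical
  have hsum := pf_summable hs
  rw [EulerProduct.prod_primesBelow_geometric_eq_tsum_smoothNumbers hsum N, ze_eq hs]
  have h1 := hsum.tsum_subtype_add_tsum_subtype_compl N.smoothNumbers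
  have h2 : ∑' n : ℕ, pf s n - ∑' m : N.smoothNumbers, pf s m =
      ∑' m : (N.smoothNumbersᶜ : Set ℕ), pf s m := by
    rw [← h1]
    ring
  rw [h2, abs_of_nonneg (tsum_nonneg fun m => by rw [pf_apply]; positivity)]
  have hN0 : (0 : ℝ) < N := by exact_mod_cast hN
  rw [ze_eq le_rfl, mul_right_comm, ← tsum_mul_left]
  have hsum2 : Summable fun n : ℕ => (N : ℝ) ^ 2 * ((N : ℝ) ^ s)⁻¹ * pf 2 n :=
    (pf_summable le_rfl).mul_left _
  have h3 : ∀ m : (N.smoothNumbersᶜ : Set ℕ), pf s m ≤ (N : ℝ) ^ 2 * ((N : ℝ) ^ s)⁻¹ * pf 2 m := by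
    rintro ⟨m, hm⟩
    simp only [pf_apply]
    rcases Nat.eq_zero_or_pos m with h | h
    · subst h
      rw [Nat.cast_zero, zero_pow (by omega), zero_pow (by omega)]
      simp
    · have h4 : N ≤ m := by
        by_contra hcon
        exact hm (Nat.mem_smoothNumbers_of_lt h (by omega))
      have h5 : (N : ℝ) ≤ m := by exact_mod_cast h4
      have hm0 : (0 : ℝ) < m := lt_of_lt_of_le hN0 h5
      have h6 : (N : ℝ) ^ (s - 2) ≤ (m : ℝ) ^ (s - 2) := by gcongr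
      have h7 : ∀ x : ℝ, x ^ s = x ^ (s - 2) * x ^ 2 := fun x => by
        rw [← pow_add]
        congr 1
        omega
      rw [h7 m, h7 N, mul_inv, mul_inv]
      have h8 : (N : ℝ) ^ 2 * (((N : ℝ) ^ (s - 2))⁻¹ * ((N : ℝ) ^ 2)⁻¹) * ((m : ℝ) ^ 2)⁻¹ =
          ((N : ℝ) ^ (s - 2))⁻¹ * ((m : ℝ) ^ 2)⁻¹ := by
        field_simp
      rw [h8]
      gcongr
  calc ∑' m : (N.smoothNumbersᶜ : Set ℕ), pf s m ≤
      ∑' m : (N.smoothNumbersᶜ : Set ℕ), (N : ℝ) ^ 2 * ((N : ℝ) ^ s)⁻¹ * pf 2 m :=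
        Summable.tsum_le_tsum h3 (hsum.subtype _) (hsum2.subtype _)
    _ ≤ ∑' m : ℕ, (N : ℝ) ^ 2 * ((N : ℝ) ^ s)⁻¹ * pf 2 m :=
        Summable.tsum_subtype_le _ _ (fun n => by rw [pf_apply]; positivity) hsum2

end Pool.Agent.Y760.ZG
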