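import Pool.Agent.Y760.ZG.Gen

/-!
# The Euler factors as finite sums of characters (helper760)
-/

set_option autoImplicit false

namespace Pool.Agent.Y760.ZG

open Filter Topology Pool.Agent.TH932.Abs Pool.Agent.TH932.Germs Pool.Agent.TH932.Chi
open Pool.Agent.TH796.AL

/-- small digits -/
lemma digits {ι : Type} (s : Finset ι) (c : ι → ℤ) (δ : ι → ℕ)
    (hδ : ∀ i ∈ s, ∀ j ∈ s, δ i = δ j → i = j) {d : ℕ} (hc : ∀ i ∈ s, |c i| ≤ d) {p : ℕ}
    (hp : p.Prime) (hpd : d < p) (h : ∑ i ∈ s, (c i : ℚ) * ((p : ℚ) ^ (δ i))⁻¹ = 0) :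
    ∀ i ∈ s, c i = 0 := by
  classical
  by_contra hcon
  push Not at hcon
  obtain ⟨i1, hi1, hci1⟩ := hcon
  obtain ⟨i0, hi0, hmax⟩ := Finset.exists_max_image (s.filter fun i => c i ≠ 0) δ
    ⟨i1, Finset.mem_filter.2 ⟨hi1, hci1⟩⟩
  rw [Finset.mem_filter] at hi0
  have hp0 : (p : ℚ) ≠ 0 := by exact_mod_cast hp.ne_zero
  have h1 : ∑ i ∈ s.filter (fun i => c i ≠ 0), c i * (p : ℤ) ^ (δ i0 - δ i) = 0 := by
    have h2 : ∑ i ∈ s.filter (fun i => c i ≠ 0), (c i : ℚ) * ((p : ℚ) ^ (δ i))⁻¹ = 0 := by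
      rw [← h]
      refine Finset.sum_subset (Finset.filter_subset _ _) fun i hi hi' => ?_
      have h3 : c i = 0 := by
        by_contra h4
        exact hi' (Finset.mem_filter.2 ⟨hi, h4⟩)
      rw [h3]
      simp
    have h3 : ∑ i ∈ s.filter (fun i => c i ≠ 0), (c i : ℚ) * (p : ℚ) ^ (δ i0 - δ i) = 0 := by
      have h4 : ∑ i ∈ s.filter (fun i => c i ≠ 0), (c i : ℚ) * (p : ℚ) ^ (δ i0 - δ i) =
          (p : ℚ) ^ (δ i0) * ∑ i ∈ s.filter (fun i => c i ≠ 0), (c i : ℚ) * ((p : ℚ) ^ (δ i))⁻¹ := by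
        rw [Finset.mul_sum]
        refine Finset.sum_congr rfl fun i hi => ?_
        rw [← Nat.sub_add_cancel (hmax i hi), pow_add, Nat.sub_add_cancel (hmax i hi)]
        field_simp
      rw [h4, h2, mul_zero]
    exact_mod_cast h3
  rw [← Finset.add_sum_erase _ _ (Finset.mem_filter.2 hi0), Nat.sub_self, pow_zero, mul_one] at h1
  have h2 : (p : ℤ) ∣ ∑ i ∈ (s.filter fun i => c i ≠ 0).erase i0, c i * (p : ℤ) ^ (δ i0 - δ i) := by
    refine Finset.dvd_sum fun i hi => ?_
    rw [Finset.mem_erase] at hi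
    have h3 := hmax i hi.2
    have h4 : δ i ≠ δ i0 := fun h5 => hi.1 (hδ i (Finset.mem_filter.1 hi.2).1 i0 hi0.1 h5)
    exact dvd_mul_of_dvd_right (dvd_pow_self _ (by omega)) _
  have h3 : (p : ℤ) ∣ c i0 := by
    have h4 : c i0 = -∑ i ∈ (s.filter fun i => c i ≠ 0).erase i0, c i * (p : ℤ) ^ (δ i0 - δ i) := by
      linarith only [h1]
    rw [h4]
    exact (dvd_neg).2 h2
  refine hi0.2 (Int.eq_zero_of_abs_lt_dvd h3 ?_)
  have h5 := hc i0 hi0.1
  have h6 : (d : ℤ) < p := by exact_mod_cast hpd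
  linarith only [h5, h6]

section

variable {L : ℕ → ℝ} (hL : Tendsto L atTop atTop)

/-- the character of one prime -/
noncomputable def ch1 (q : ℕ) (y : ℝ) : GG :=
  ch (bs (q + 1)) hL (Pi.single ⟨q, Nat.lt_succ_self q⟩ y)

lemma ex_single {q m : ℕ} (hq : q < m) (y : ℝ) (i : ℕ) :
    ex (Pi.single ⟨q, hq⟩ y : Fin m → ℝ) i = if i = q then y else 0 := by
  unfold ex
  by_cases h : i < m
  · rw [dif_pos h]
    by_cases hi : i = q
    · subst hi
      rw [if_pos rfl, Pi.single_eq_same]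
    · rw [if_neg hi, Pi.single_eq_of_ne]
      intro h2
      exact hi (congrArg Fin.val h2)
  · rw [dif_neg h, if_neg (by omega)]

lemma ch1_eq {q m : ℕ} (hq : q < m) (y : ℝ) :
    ch (bs m) hL (Pi.single ⟨q, hq⟩ y) = ch1 hL q y := by
  unfold ch1
  rw [← ch_inc hL (show q + 1 ≤ m by omega)]
  congr 1
  funext i
  unfold inc
  rw [ex_single]
  by_cases hi : i = ⟨q, hq⟩
  · subst hi
    rw [Pi.single_eq_same, if_pos rfl]
  · rw [Pi.single_eq_of_ne hi, if_neg]
    intro h2
    exact hi (Fin.ext h2)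

lemma ch1_add (q : ℕ) (y z : ℝ) : ch1 hL q (y + z) = ch1 hL q y * ch1 hL q z := by
  unfold ch1
  rw [← ch_add, Pi.single_add]

lemma ch1_zero (q : ℕ) : ch1 hL q 0 = 1 := by
  unfold ch1
  rw [Pi.single_zero, ch_zero]

lemma ch1_ne (q : ℕ) (y : ℝ) : ch1 hL q y ≠ 0 := ch_ne hL _

lemma ch1_pow (q : ℕ) (y : ℝ) (b : ℕ) : ch1 hL q y ^ b = ch1 hL q (b * y) := by
  induction b with
  | zero => rw [pow_zero, Nat.cast_zero, zero_mul, ch1_zero]
  | succ b ih =>
    rw [pow_succ, ih, ← ch1_add]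
    congr 1
    push_cast
    ring

lemma ch1_prod (q : ℕ) {ι : Type*} (s : Finset ι) (y : ι → ℝ) :
    ∏ i ∈ s, ch1 hL q (y i) = ch1 hL q (∑ i ∈ s, y i) := by
  classical
  induction s using Finset.induction_on with
  | empty => rw [Finset.prod_empty, Finset.sum_empty, ch1_zero]
  | insert a s ha ih => rw [Finset.prod_insert ha, Finset.sum_insert ha, ih, ch1_add]

variable {I : Type} [Fintype I] [DecidableEq I] (s : ℕ → I → ℕ) (x : I → ℝ)

/-- the germ of `p ^ (-s)` -/
noncomputable def ug (q : ℕ) (i : I) : GG := gm fun n => ((pr q : ℚ) ^ (s n i))⁻¹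

/-- the exponents are asymptotic to multiples of `L` -/
def Lim (L : ℕ → ℝ) : Prop := ∀ i, ∀ ε : ℝ, 0 < ε → ∀ᶠ n in (UU : Filter ℕ),
  |(s n i : ℝ) - x i * L n| ≤ ε * L n

variable {s x}

lemma ug_const (hs : Lim s x L) (q : ℕ) (i : I) :
    ug s q i / ch1 hL q (-x i) ∈ KK L hL := by
  obtain ⟨κ, _, hκ⟩ := exists_const (B := bs (q + 1)) hL
    (Pi.single ⟨q, Nat.lt_succ_self q⟩ (-x i)) (fun n j => if (j : ℕ) = q then -(s n i : ℤ) else 0)
    (fun j ε hε => by
      by_cases hj : (j : ℕ) = q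
      · have hj' : j = ⟨q, Nat.lt_succ_self q⟩ := Fin.ext hj
        subst hj'
        filter_upwards [hs i ε hε] with n hn
        rw [Pi.single_eq_same, if_pos rfl]
        push_cast
        rw [show -(s n i : ℝ) - -x i * L n = -((s n i : ℝ) - x i * L n) by ring, abs_neg]
        exact hn
      · filter_upwards [L_nonneg hL] with n hn
        rw [if_neg hj, Pi.single_eq_of_ne (fun h => hj (congrArg Fin.val h))]
        simp only [Int.cast_zero, zero_mul, sub_zero, abs_zero]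
        positivity)
  have h1 : ug s q i = (κ : GG) * ch1 hL q (-x i) := by
    unfold ch1
    rw [← hκ]
    unfold ug
    congr 1
    funext n
    rw [Finset.prod_eq_single ⟨q, Nat.lt_succ_self q⟩]
    · rw [if_pos rfl, zpow_neg, zpow_natCast]
      rfl
    · intro j _ hj
      rw [if_neg (fun h => hj (Fin.ext h)), zpow_zero]
    · intro h
      exact absurd (Finset.mem_univ _) h
  rw [h1, mul_div_assoc, div_self (ch1_ne hL _ _), mul_one]
  exact κ.2

/-- the coefficient -/
noncomputable def kg (s : ℕ → I → ℕ) (x : I → ℝ) (q : ℕ) (i : I) : GG :=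
  ug s q i / ch1 hL q (-x i)

lemma ug_eq (q : ℕ) (i : I) : ug s q i = kg hL s x q i * ch1 hL q (-x i) := by
  unfold kg
  rw [div_mul_cancel₀ _ (ch1_ne hL _ _)]

/-- the Euler factors -/
noncomputable def Wg (s : ℕ → I → ℕ) (q : ℕ) (μ : I → ℕ) : GG := ∏ i, (1 - ug s q i) ^ (μ i)

/-- the coefficient of a monomial in an Euler factor -/
noncomputable def cw (s : ℕ → I → ℕ) (x : I → ℝ) (q : ℕ) (μ : I → ℕ) {d : ℕ}
    (β : I → Fin (d + 1)) : GG :=
  ∏ i, (((μ i).choose (β i) : ℕ) : GG) * (-1) ^ ((β i : Fin (d + 1)) : ℕ) *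
    kg hL s x q i ^ ((β i : Fin (d + 1)) : ℕ)

/-- the weight of a monomial -/
noncomputable def dt (x : I → ℝ) {d : ℕ} (β : I → Fin (d + 1)) : ℝ :=
  ∑ i, (((β i : Fin (d + 1)) : ℕ) : ℝ) * x i

lemma one_sub_pow {G : Type} [Field G] (u : G) {μ d : ℕ} (h : μ ≤ d) :
    (1 - u) ^ μ = ∑ b : Fin (d + 1), ((μ.choose b : ℕ) : G) * (-1) ^ (b : ℕ) * u ^ (b : ℕ) := by
  rw [Fin.sum_univ_eq_sum_range (fun b => ((μ.choose b : ℕ) : G) * (-1) ^ b * u ^ b) (d + 1)]
  have h1 : ∑ b ∈ Finset.range (d + 1), ((μ.choose b : ℕ) : G) * (-1) ^ b * u ^ b =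
      ∑ b ∈ Finset.range (μ + 1), ((μ.choose b : ℕ) : G) * (-1) ^ b * u ^ b := by
    symm
    refine Finset.sum_subset (Finset.range_subset_range.2 (by omega)) fun b _ hb => ?_
    rw [Finset.mem_range] at hb
    rw [Nat.choose_eq_zero_of_lt (by omega), Nat.cast_zero, zero_mul, zero_mul]
  rw [h1, sub_eq_add_neg, add_comm, add_pow]
  refine Finset.sum_congr rfl fun b _ => ?_
  rw [one_pow, mul_one, neg_pow]
  ring

lemma Wg_sum (q : ℕ) {μ : I → ℕ} {d : ℕ} (hμ : ∀ i, μ i ≤ d) :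
    Wg s q μ = ∑ β : I → Fin (d + 1), cw hL s x q μ β * ch1 hL q (-dt x β) := by
  unfold Wg
  have h1 : ∀ i, (1 - ug s q i) ^ (μ i) = ∑ b : Fin (d + 1),
      (((μ i).choose b : ℕ) : GG) * (-1) ^ (b : ℕ) * (ug s q i) ^ (b : ℕ) := fun i =>
    one_sub_pow _ (hμ i)
  simp only [h1]
  rw [Finset.prod_univ_sum, Fintype.piFinset_univ]
  refine Finset.sum_congr rfl fun β _ => ?_
  have h2 : ∀ i, (((μ i).choose (β i) : ℕ) : GG) * (-1) ^ ((β i : Fin (d + 1)) : ℕ) *
      (ug s q i) ^ ((β i : Fin (d + 1)) : ℕ) =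
      ((((μ i).choose (β i) : ℕ) : GG) * (-1) ^ ((β i : Fin (d + 1)) : ℕ) *
        kg hL s x q i ^ ((β i : Fin (d + 1)) : ℕ)) *
      ch1 hL q ((((β i : Fin (d + 1)) : ℕ) : ℝ) * (-x i)) := by
    intro i
    rw [ug_eq hL (x := x), mul_pow, ch1_pow]
    ring
  simp only [h2]
  rw [Finset.prod_mul_distrib, ch1_prod]
  unfold cw dt
  congr 2
  rw [← Finset.sum_neg_distrib]
  refine Finset.sum_congr rfl fun i _ => ?_
  ring

/-- the coefficient of a character in an Euler factor -/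
noncomputable def wg (s : ℕ → I → ℕ) (x : I → ℝ) (q : ℕ) (μ : I → ℕ) (d : ℕ) (y : ℝ) : GG :=
  ∑ β ∈ (Finset.univ : Finset (I → Fin (d + 1))).filter (fun β => dt x β = y), cw hL s x q μ β

/-- the weights -/
noncomputable def Yw (x : I → ℝ) (d : ℕ) : Finset ℝ :=
  (Finset.univ : Finset (I → Fin (d + 1))).image (dt x)

lemma Wg_eq (q : ℕ) {μ : I → ℕ} {d : ℕ} (hμ : ∀ i, μ i ≤ d) :
    Wg s q μ = ∑ y ∈ Yw x d, wg hL s x q μ d y * ch1 hL q (-y) := by
  classical
  rw [Wg_sum hL (x := x) q hμ]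
  unfold Yw
  rw [← Finset.sum_fiberwise_of_maps_to (s := Finset.univ) (t := Finset.univ.image (dt x))
    (g := dt x) (fun β hβ => Finset.mem_image_of_mem _ hβ)]
  refine Finset.sum_congr rfl fun y _ => ?_
  unfold wg
  rw [Finset.sum_mul]
  refine Finset.sum_congr rfl fun β hβ => ?_
  rw [(Finset.mem_filter.1 hβ).2]

lemma cw_mem (hs : Lim s x L) (q : ℕ) (μ : I → ℕ) {d : ℕ} (β : I → Fin (d + 1)) :
    cw hL s x q μ β ∈ KK L hL := by
  unfold cw
  refine (KK L hL).prod_mem fun i _ => ?_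
  refine (KK L hL).mul_mem ((KK L hL).mul_mem (natCast_mem _ _) ?_) ?_
  · exact (KK L hL).pow_mem ((KK L hL).neg_mem (KK L hL).one_mem) _
  · exact (KK L hL).pow_mem (ug_const hL hs q i) _

lemma wg_mem (hs : Lim s x L) (q : ℕ) (μ : I → ℕ) (d : ℕ) (y : ℝ) :
    wg hL s x q μ d y ∈ KK L hL :=
  (KK L hL).sum_mem fun β _ => cw_mem hL hs q μ β

lemma dt_zero (d : ℕ) : dt x (0 : I → Fin (d + 1)) = 0 := by
  unfold dt
  refine Finset.sum_eq_zero fun i _ => ?_
  simp

lemma dt_eq_zero (hx : ∀ i, 1 ≤ x i) {d : ℕ} {β : I → Fin (d + 1)} (h : dt x β = 0) : β = 0 := by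
  unfold dt at h
  have h1 : ∀ i ∈ Finset.univ, 0 ≤ (((β i : Fin (d + 1)) : ℕ) : ℝ) * x i := fun i _ =>
    mul_nonneg (Nat.cast_nonneg _) (by linarith only [hx i])
  rw [Finset.sum_eq_zero_iff_of_nonneg h1] at h
  funext i
  have h2 := h i (Finset.mem_univ i)
  have h3 : x i ≠ 0 := by
    have := hx i
    intro h4
    rw [h4] at this
    norm_num at this
  have h4 := (mul_eq_zero.1 h2).resolve_right h3
  have h5 : ((β i : Fin (d + 1)) : ℕ) = 0 := by exact_mod_cast h4
  apply Fin.ext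
  rw [h5]
  simp

lemma cw_zero (q : ℕ) (μ : I → ℕ) (d : ℕ) : cw hL s x q μ (0 : I → Fin (d + 1)) = 1 := by
  unfold cw
  refine Finset.prod_eq_one fun i _ => ?_
  simp

lemma wg_zero (hx : ∀ i, 1 ≤ x i) (q : ℕ) (μ : I → ℕ) (d : ℕ) : wg hL s x q μ d 0 = 1 := by
  unfold wg
  rw [Finset.sum_eq_single 0]
  · exact cw_zero hL q μ d
  · intro β hβ hne
    exact absurd (dt_eq_zero hx (Finset.mem_filter.1 hβ).2) hne
  · intro h
    exfalso
    apply h
    rw [Finset.mem_filter]
    exact ⟨Finset.mem_univ _, dt_zero d⟩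

lemma zero_mem_Yw (d : ℕ) : (0 : ℝ) ∈ Yw x d :=
  Finset.mem_image.2 ⟨0, Finset.mem_univ _, dt_zero d⟩

/-- **separation** -/
lemma separate (hx : ∀ i, 1 ≤ x i) (hinj : ∀ n, Function.Injective (s n)) {d : ℕ}
    {μ μ' : I → ℕ} (hμ : ∀ i, μ i ≤ d) (hμ' : ∀ i, μ' i ≤ d) (hne : μ ≠ μ') :
    ∃ y ∈ Yw x d, ∀ q : ℕ, d < pr q → wg hL s x q μ d y ≠ wg hL s x q μ' d y := by
  classical
  obtain ⟨i1, hi1⟩ := Function.ne_iff.1 hne
  obtain ⟨i0, hi0, hmin⟩ := Finset.exists_min_image (Finset.univ.filter fun i => μ i ≠ μ' i) x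
    ⟨i1, Finset.mem_filter.2 ⟨Finset.mem_univ _, hi1⟩⟩
  rw [Finset.mem_filter] at hi0
  have hd : 1 ≤ d := by
    by_contra h
    have h1 := hμ i0
    have h2 := hμ' i0
    apply hi0.2
    omega
  -- the unit vectors
  set e : I → (I → Fin (d + 1)) := fun j => Pi.single j ⟨1, by omega⟩ with he
  have hdte : ∀ j, dt x (e j) = x j := by
    intro j
    unfold dt
    rw [Finset.sum_eq_single j]
    · rw [he]
      simp only [Pi.single_eq_same, Nat.cast_one, one_mul]
    · intro b _ hb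
      rw [he]
      simp only [Pi.single_eq_of_ne hb, Fin.val_zero, Nat.cast_zero, zero_mul]
    · intro h
      exact absurd (Finset.mem_univ _) h
  have hcwe : ∀ (ν : I → ℕ) (q : ℕ) (j : I), cw hL s x q ν (e j) = -((ν j : GG) * kg hL s x q j) := by
    intro ν q j
    unfold cw
    rw [Finset.prod_eq_single j]
    · rw [he]
      simp only [Pi.single_eq_same, Nat.choose_one_right, pow_one]
      ring
    · intro b _ hb
      rw [he]
      simp only [Pi.single_eq_of_ne hb, Fin.val_zero, Nat.choose_zero_right, Nat.cast_one, pow_zero,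
        mul_one]
    · intro h
      exact absurd (Finset.mem_univ _) h
  refine ⟨x i0, Finset.mem_image.2 ⟨e i0, Finset.mem_univ _, hdte i0⟩, fun q hq heq => ?_⟩
  -- the other monomials have the same coefficients
  have hother : ∀ β : I → Fin (d + 1), dt x β = x i0 → (∀ j, β ≠ e j) →
      cw hL s x q μ β = cw hL s x q μ' β := by
    intro β hβ hβe
    unfold cw
    refine Finset.prod_congr rfl fun i _ => ?_
    by_cases h0 : β i = 0
    · rw [h0]
      simp
    · have hlt : x i < x i0 := by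
        rw [← hβ]
        unfold dt
        rw [← Finset.add_sum_erase _ _ (Finset.mem_univ i)]
        have hb1 : 1 ≤ ((β i : Fin (d + 1)) : ℕ) := by
          rw [Nat.one_le_iff_ne_zero]
          intro h
          exact h0 (Fin.ext h)
        have hnn : ∀ j ∈ Finset.univ.erase i, 0 ≤ (((β j : Fin (d + 1)) : ℕ) : ℝ) * x j := fun j _ =>
          mul_nonneg (Nat.cast_nonneg _) (by linarith only [hx j])
        have hsum := Finset.sum_nonneg hnn
        have hxi := hx i
        by_cases hb2 : 2 ≤ ((β i : Fin (d + 1)) : ℕ)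
        · have h2 : (2 : ℝ) ≤ (((β i : Fin (d + 1)) : ℕ) : ℝ) := by exact_mod_cast hb2
          nlinarith only [h2, hxi, hsum]
        · have hb3 : ((β i : Fin (d + 1)) : ℕ) = 1 := by omega
          obtain ⟨j, hji, hj0⟩ : ∃ j, j ≠ i ∧ β j ≠ 0 := by
            by_contra hcon
            push Not at hcon
            apply hβe i
            funext j
            rw [he]
            by_cases hj : j = i
            · subst hj
              simp only [Pi.single_eq_same]
              exact Fin.ext hb3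
            · simp only [Pi.single_eq_of_ne hj]
              exact hcon j hj
          have hj1 : 1 ≤ ((β j : Fin (d + 1)) : ℕ) := by
            rw [Nat.one_le_iff_ne_zero]
            intro h
            exact hj0 (Fin.ext h)
          have h2 := Finset.single_le_sum hnn (Finset.mem_erase.2 ⟨hji, Finset.mem_univ j⟩)
          have h3 : (1 : ℝ) ≤ (((β j : Fin (d + 1)) : ℕ) : ℝ) * x j := by
            have h4 : (1 : ℝ) ≤ (((β j : Fin (d + 1)) : ℕ) : ℝ) := by exact_mod_cast hj1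
            have h5 := hx j
            nlinarith only [h4, h5]
          rw [hb3, Nat.cast_one, one_mul]
          linarith only [h2, h3]
      have h5 : μ i = μ' i := by
        by_contra h6
        have := hmin i (Finset.mem_filter.2 ⟨Finset.mem_univ _, h6⟩)
        linarith only [this, hlt]
      rw [h5]
  -- the difference
  have hdiff : ∑ j ∈ Finset.univ.filter (fun j => x j = x i0),
      (((μ j : ℤ) - (μ' j : ℤ) : ℤ) : GG) * kg hL s x q j = 0 := by
    have h1 : ∀ ν : I → ℕ, wg hL s x q ν d (x i0) =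
        ∑ β ∈ ((Finset.univ : Finset (I → Fin (d + 1))).filter (fun β => dt x β = x i0)).filter
          (fun β => ∀ j, β ≠ e j), cw hL s x q ν β +
        ∑ j ∈ Finset.univ.filter (fun j => x j = x i0), -((ν j : GG) * kg hL s x q j) := by
      intro ν
      unfold wg
      rw [← Finset.sum_filter_add_sum_filter_not _ (fun β => ∀ j, β ≠ e j)]
      congr 1
      have h2 : ((Finset.univ : Finset (I → Fin (d + 1))).filter (fun β => dt x β = x i0)).filter
          (fun β => ¬ ∀ j, β ≠ e j) = (Finset.univ.filter (fun j => x j = x i0)).image e := by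
        ext β
        simp only [Finset.mem_filter, Finset.mem_univ, true_and, Finset.mem_image, not_forall,
          not_not]
        constructor
        · rintro ⟨h3, j, rfl⟩
          exact ⟨j, by rw [← h3, hdte], rfl⟩
        · rintro ⟨j, h3, rfl⟩
          exact ⟨by rw [hdte, h3], j, rfl⟩
      rw [h2, Finset.sum_image]
      · exact Finset.sum_congr rfl fun j _ => hcwe ν q j
      · intro a _ b _ hab
        by_contra hne2
        have h3 := congrFun hab a
        rw [he] at h3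
        simp only [Pi.single_eq_same, Pi.single_eq_of_ne hne2] at h3
        have h4 := congrArg Fin.val h3
        simp at h4
    rw [h1 μ, h1 μ'] at heq
    have h3 : ∑ β ∈ ((Finset.univ : Finset (I → Fin (d + 1))).filter (fun β => dt x β = x i0)).filter
          (fun β => ∀ j, β ≠ e j), cw hL s x q μ β =
        ∑ β ∈ ((Finset.univ : Finset (I → Fin (d + 1))).filter (fun β => dt x β = x i0)).filter
          (fun β => ∀ j, β ≠ e j), cw hL s x q μ' β := by
      refine Finset.sum_congr rfl fun β hβ => ?_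
      rw [Finset.mem_filter, Finset.mem_filter] at hβ
      exact hother β hβ.1.2 hβ.2
    rw [h3] at heq
    have h4 := add_left_cancel heq
    rw [Finset.sum_neg_distrib, Finset.sum_neg_distrib, neg_inj] at h4
    have h5 : ∀ j ∈ Finset.univ.filter (fun j => x j = x i0),
        (((μ j : ℤ) - (μ' j : ℤ) : ℤ) : GG) * kg hL s x q j =
        (μ j : GG) * kg hL s x q j - (μ' j : GG) * kg hL s x q j := by
      intro j _
      push_cast
      ring
    rw [Finset.sum_congr rfl h5, Finset.sum_sub_distrib, h4, sub_self]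
  have hu : ∑ j ∈ Finset.univ.filter (fun j => x j = x i0),
      (((μ j : ℤ) - (μ' j : ℤ) : ℤ) : GG) * ug s q j = 0 := by
    have h1 : ∀ j ∈ Finset.univ.filter (fun j => x j = x i0),
        (((μ j : ℤ) - (μ' j : ℤ) : ℤ) : GG) * ug s q j =
        ((((μ j : ℤ) - (μ' j : ℤ) : ℤ) : GG) * kg hL s x q j) * ch1 hL q (-x i0) := by
      intro j hj
      rw [ug_eq hL (x := x), (Finset.mem_filter.1 hj).2]
      ring
    rw [Finset.sum_congr rfl h1, ← Finset.sum_mul, hdiff, zero_mul]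
  have hev : ∀ᶠ n in (UU : Filter ℕ), ∑ j ∈ Finset.univ.filter (fun j => x j = x i0),
      (((μ j : ℤ) - (μ' j : ℤ) : ℤ) : ℚ) * ((pr q : ℚ) ^ (s n j))⁻¹ = 0 := by
    rw [← gm_eq (b := fun _ => 0), gm_zero, ← hu]
    have h1 : ∀ t : Finset I, gm (fun n => ∑ j ∈ t,
        (((μ j : ℤ) - (μ' j : ℤ) : ℤ) : ℚ) * ((pr q : ℚ) ^ (s n j))⁻¹) =
        ∑ j ∈ t, (((μ j : ℤ) - (μ' j : ℤ) : ℤ) : GG) * ug s q j := by
      intro t
      induction t using Finset.induction_on with
      | empty =>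
        simp only [Finset.sum_empty]
        exact gm_zero
      | insert a t ha ih =>
        rw [Finset.sum_insert ha, ← ih]
        simp only [Finset.sum_insert ha]
        rw [← gm_add]
        congr 1
    exact h1 _
  obtain ⟨n, hn⟩ := hev.exists
  have h1 := digits (Finset.univ.filter fun j => x j = x i0) (fun j => (μ j : ℤ) - (μ' j : ℤ))
    (s n) (fun i _ j _ h => hinj n h) (d := d) (fun i _ => by
      have h2 := hμ i
      have h3 := hμ' i
      rw [abs_le]
      constructor <;> omega) (pr_prime q) hq hn i0 (Finset.mem_filter.2 ⟨Finset.mem_univ _, rfl⟩)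
  apply hi0.2
  omega

end

end Pool.Agent.Y760.ZG
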