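import Pool.Agent.Y760.ZG.Ch
import Pool.Agent.Y760.ZG.Ana

/-!
# The Euler product as a germ (helper760)
-/

set_option autoImplicit false

namespace Pool.Agent.Y760.ZG

open Filter Topology Pool.Agent.TH932.Abs Pool.Agent.TH932.Germs Pool.Agent.TH932.Chi
open Pool.Agent.TH796.AL

/-! ### the first primes -/

lemma pr_ge (M : ℕ) : M + 2 ≤ pr M := Nat.add_two_le_nth_prime M

lemma primesBelow_pr (M : ℕ) : (pr M).primesBelow = (Finset.range M).image pr := by
  classical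
  ext p
  rw [Nat.mem_primesBelow, Finset.mem_image]
  constructor
  · rintro ⟨h1, h2⟩
    refine ⟨Nat.count Nat.Prime p, ?_, Nat.nth_count h2⟩
    rw [Finset.mem_range]
    have h3 : pr (Nat.count Nat.Prime p) < pr M := by
      unfold pr
      rw [Nat.nth_count h2]
      exact h1
    exact (Nat.nth_lt_nth Nat.infinite_setOfPred_prime).1 h3
  · rintro ⟨q, hq, rfl⟩
    rw [Finset.mem_range] at hq
    exact ⟨(Nat.nth_lt_nth Nat.infinite_setOfPred_prime).2 hq, pr_prime q⟩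

lemma prod_pr (M : ℕ) (f : ℕ → ℝ) :
    ∏ p ∈ (pr M).primesBelow, f p = ∏ q ∈ Finset.range M, f (pr q) := by
  rw [primesBelow_pr, Finset.prod_image fun _ _ _ _ h => pr_inj h]

/-! ### germs of moderate size -/

section

variable {L : ℕ → ℝ} (hL : Tendsto L atTop atTop)

include hL in
lemma SR_bdd {a : ℕ → ℝ} (c : ℝ) (h : ∀ᶠ n in (UU : Filter ℕ), |a n| ≤ c) : gr a ∈ SR L 0 := by
  have h1 := SR_cst hL c
  rw [cst_eq, mem_SR] at h1
  rw [mem_SR]
  intro ε hε
  filter_upwards [h, h1 ε hε] with n h2 h3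
  exact (h2.trans (le_abs_self c)).trans h3

/-- units of moderate size -/
def Un (L : ℕ → ℝ) (x : HR) : Prop := x ≠ 0 ∧ x ∈ SR L 0 ∧ x⁻¹ ∈ SR L 0

include hL in
lemma Un.one : Un L 1 := by
  have h1 : (1 : HR) ∈ SR L 0 := by
    rw [← gr_one]
    exact SR_bdd hL 1 (Eventually.of_forall fun n => by simp)
  exact ⟨one_ne_zero, h1, by rwa [inv_one]⟩

include hL in
lemma Un.mul {x y : HR} (hx : Un L x) (hy : Un L y) : Un L (x * y) := by
  refine ⟨mul_ne_zero hx.1 hy.1, ?_, ?_⟩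
  · have := SR_mul hL hx.2.1 hy.2.1
    rwa [add_zero] at this
  · rw [mul_inv]
    have := SR_mul hL hx.2.2 hy.2.2
    rwa [add_zero] at this

lemma Un.inv {x : HR} (hx : Un L x) : Un L x⁻¹ :=
  ⟨inv_ne_zero hx.1, hx.2.2, by rw [inv_inv]; exact hx.2.1⟩

include hL in
lemma Un.prod {ι : Type*} (s : Finset ι) (f : ι → HR) (h : ∀ i ∈ s, Un L (f i)) :
    Un L (∏ i ∈ s, f i) :=
  Finset.prod_induction f (Un L) (fun _ _ => Un.mul hL) (Un.one hL) h

include hL in
lemma Un.pow {x : HR} (hx : Un L x) (e : ℕ) : Un L (x ^ e) := by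
  induction e with
  | zero =>
    rw [pow_zero]
    exact Un.one hL
  | succ e ih =>
    rw [pow_succ]
    exact ih.mul hL hx

/-- close to one -/
def On (L : ℕ → ℝ) (E : ℝ) (x : HR) : Prop := x - 1 ∈ SR L E

lemma On.one {E : ℝ} : On L E 1 := by
  unfold On
  rw [sub_self]
  exact SR_zero E

include hL in
lemma On.mul {E : ℝ} (hE : 0 ≤ E) {x y : HR} (hx : On L E x) (hy : On L E y) :
    On L E (x * y) := by
  unfold On at *
  have h1 : y ∈ SR L 0 := by
    have := SR_add hL (SR_anti hL hE hy) (Un.one hL).2.1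
    rwa [sub_add_cancel] at this
  have h2 := SR_mul hL hx h1
  rw [add_zero] at h2
  have h3 := SR_add hL h2 hy
  rwa [show (x - 1) * y + (y - 1) = x * y - 1 by ring] at h3

include hL in
lemma On.prod {E : ℝ} (hE : 0 ≤ E) {ι : Type*} (s : Finset ι) (f : ι → HR)
    (h : ∀ i ∈ s, On L E (f i)) : On L E (∏ i ∈ s, f i) :=
  Finset.prod_induction f (On L E) (fun _ _ => On.mul hL hE) On.one h

include hL in
lemma On.pow {E : ℝ} (hE : 0 ≤ E) {x : HR} (hx : On L E x) (e : ℕ) : On L E (x ^ e) := by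
  induction e with
  | zero =>
    rw [pow_zero]
    exact On.one
  | succ e ih =>
    rw [pow_succ]
    exact ih.mul hL hE hx

end

section

variable {L : ℕ → ℝ} {hL : Tendsto L atTop atTop} {F : IntermediateField ℚ ℝ}
  {I : Type} [Fintype I] [DecidableEq I] {s : ℕ → I → ℕ} {x : I → ℝ}

/-- the inverse of the zeta value -/
noncomputable def eta (s : ℕ → I → ℕ) (i : I) : HR := gr fun n => (ze (s n i))⁻¹

lemma rho_ug (q : ℕ) (i : I) : rho (1 - ug s q i) = gr fun n => 1 - ((pr q : ℝ) ^ (s n i))⁻¹ := by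
  rw [map_sub, map_one]
  unfold ug
  rw [rho_gm, ← gr_one, gr_sub]
  congr 1
  funext n
  push_cast
  rfl

lemma one_sub_bd {q t : ℕ} (ht : 2 ≤ t) :
    (1 / 2 : ℝ) ≤ 1 - ((pr q : ℝ) ^ t)⁻¹ ∧ 1 - ((pr q : ℝ) ^ t)⁻¹ ≤ 1 := by
  have h1 : (2 : ℝ) ≤ pr q := by exact_mod_cast (pr_prime q).two_le
  have h2 : (2 : ℝ) ≤ (pr q : ℝ) ^ t := by
    calc (2 : ℝ) ≤ pr q := h1
      _ = (pr q : ℝ) ^ 1 := (pow_one _).symm
      _ ≤ (pr q : ℝ) ^ t := pow_le_pow_right₀ (by linarith only [h1]) (by omega)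
  have h3 : ((pr q : ℝ) ^ t)⁻¹ ≤ 2⁻¹ := by gcongr
  have h4 : 0 ≤ ((pr q : ℝ) ^ t)⁻¹ := by positivity
  constructor <;> linarith only [h3, h4]

variable (hL) (hLs : ∀ n i, L n ≤ (s n i : ℝ))
include hL hLs

lemma two_le_s (i : I) : ∀ᶠ n in (UU : Filter ℕ), 2 ≤ s n i := by
  have h1 : ∀ᶠ n in (UU : Filter ℕ), (2 : ℝ) ≤ L n := ev_of_atTop (hL.eventually_ge_atTop _)
  filter_upwards [h1] with n hn
  have h2 : (2 : ℝ) ≤ s n i := hn.trans (hLs n i)
  exact_mod_cast h2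

lemma Un_ug (q : ℕ) (i : I) : Un L (rho (1 - ug s q i)) := by
  rw [rho_ug]
  refine ⟨?_, ?_, ?_⟩
  · rw [gr_ne_zero]
    filter_upwards [two_le_s hL hLs i] with n hn
    have := (one_sub_bd (q := q) hn).1
    intro h
    rw [h] at this
    norm_num at this
  · refine SR_bdd hL 1 ?_
    filter_upwards [two_le_s hL hLs i] with n hn
    have := one_sub_bd (q := q) hn
    rw [abs_le]
    constructor <;> linarith only [this.1, this.2]
  · rw [gr_inv]
    refine SR_bdd hL 2 ?_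
    filter_upwards [two_le_s hL hLs i] with n hn
    have := one_sub_bd (q := q) hn
    have h1 : 0 < 1 - ((pr q : ℝ) ^ (s n i))⁻¹ := by linarith only [this.1]
    rw [abs_inv, abs_of_pos h1, inv_le_comm₀ h1 (by norm_num)]
    linarith only [this.1]

lemma Un_Wg (q : ℕ) (μ : I → ℕ) : Un L (rho (Wg s q μ)) := by
  unfold Wg
  rw [map_prod]
  refine Un.prod hL _ _ fun i _ => ?_
  rw [map_pow]
  exact (Un_ug hL hLs q i).pow hL _

lemma Un_eta (i : I) : Un L (eta s i) := by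
  unfold eta
  refine ⟨?_, ?_, ?_⟩
  · rw [gr_ne_zero]
    filter_upwards [two_le_s hL hLs i] with n hn
    have := ze_ge_one hn
    exact inv_ne_zero (by linarith only [this])
  · refine SR_bdd hL 1 ?_
    filter_upwards [two_le_s hL hLs i] with n hn
    have := ze_ge_one hn
    rw [abs_inv, abs_of_pos (by linarith only [this])]
    exact inv_le_one_of_one_le₀ this
  · rw [gr_inv]
    refine SR_bdd hL (ze 2) ?_
    filter_upwards [two_le_s hL hLs i] with n hn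
    have := ze_ge_one hn
    rw [inv_inv, abs_of_pos (by linarith only [this])]
    exact ze_le hn

end

/-- what remains of the Euler product -/
noncomputable def tau {I : Type} (s : ℕ → I → ℕ) (M : ℕ) (i : I) : HR :=
  eta s i / ∏ q ∈ Finset.range M, rho (1 - ug s q i)

/-- the monomial in the inverses of the zeta values -/
noncomputable def vv {I : Type} [Fintype I] (s : ℕ → I → ℕ) (μ : I → ℕ) : HR :=
  ∏ i, eta s i ^ (μ i)

/-- what remains of the Euler product -/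
noncomputable def tt {I : Type} [Fintype I] (s : ℕ → I → ℕ) (M : ℕ) (μ : I → ℕ) : HR :=
  ∏ i, tau s M i ^ (μ i)

/-- the monomial without finitely many Euler factors -/
noncomputable def vQ {I : Type} [Fintype I] (s : ℕ → I → ℕ) (μ : I → ℕ) (Q : Finset ℕ) : HR :=
  vv s μ / ∏ q ∈ Q, rho (Wg s q μ)

section

variable {L : ℕ → ℝ} (hL : Tendsto L atTop atTop) {F : IntermediateField ℚ ℝ}
  {I : Type} [Fintype I] [DecidableEq I] {s : ℕ → I → ℕ} {x : I → ℝ}
  (hLs : ∀ n i, L n ≤ (s n i : ℝ))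
include hL hLs

lemma log_pr_pos (M : ℕ) : 0 < Real.log (pr M) :=
  Real.log_pos (by exact_mod_cast (pr_prime M).one_lt)

lemma tau_mem (M : ℕ) (i : I) : On L (Real.log (pr M)) (tau s M i) := by
  have h1 : ∏ q ∈ Finset.range M, rho (1 - ug s q i) =
      gr fun n => ∏ q ∈ Finset.range M, (1 - ((pr q : ℝ) ^ (s n i))⁻¹) := by
    induction M with
    | zero =>
      simp only [Finset.range_zero, Finset.prod_empty]
      exact gr_one.symm
    | succ M ih =>
      simp only [Finset.prod_range_succ]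
      rw [ih, rho_ug, gr_mul]
  unfold On tau eta
  rw [h1, div_eq_mul_inv, gr_inv, gr_mul, ← gr_one, gr_sub, mem_SR]
  intro ε hε
  set N : ℕ := pr M with hN
  have hN2 : 2 ≤ N := (pr_prime M).two_le
  have hN0 : (0 : ℝ) < N := by exact_mod_cast (by omega : 0 < N)
  have h2 := SR_cst hL ((N : ℝ) ^ 2 * ze 2)
  rw [cst_eq, mem_SR] at h2
  filter_upwards [two_le_s hL hLs i, h2 ε hε, L_nonneg hL] with n hn h3 h4
  have hz := ze_ge_one hn
  have hz0 : 0 < ze (s n i) := by linarith only [hz]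
  have h5 := ze_smooth N (by omega) hn
  rw [hN, prod_pr M (fun p => (1 - pf (s n i) p)⁻¹)] at h5
  have h6 : ∏ q ∈ Finset.range M, (1 - pf (s n i) (pr q))⁻¹ =
      (∏ q ∈ Finset.range M, (1 - ((pr q : ℝ) ^ (s n i))⁻¹))⁻¹ := by
    rw [← Finset.prod_inv_distrib]
    rfl
  rw [h6, ← hN] at h5
  have h7 : |(ze (s n i))⁻¹ * (∏ q ∈ Finset.range M, (1 - ((pr q : ℝ) ^ (s n i))⁻¹))⁻¹ - 1| ≤
      (N : ℝ) ^ 2 * ze 2 * ((N : ℝ) ^ (s n i))⁻¹ := by
    have e1 : (ze (s n i))⁻¹ * (∏ q ∈ Finset.range M, (1 - ((pr q : ℝ) ^ (s n i))⁻¹))⁻¹ - 1 =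
        -((ze (s n i))⁻¹ * (ze (s n i) -
          (∏ q ∈ Finset.range M, (1 - ((pr q : ℝ) ^ (s n i))⁻¹))⁻¹)) := by
      field_simp
      ring
    rw [e1, abs_neg, abs_mul, abs_inv, abs_of_pos hz0]
    calc (ze (s n i))⁻¹ * |ze (s n i) -
          (∏ q ∈ Finset.range M, (1 - ((pr q : ℝ) ^ (s n i))⁻¹))⁻¹| ≤
        1 * |ze (s n i) -
          (∏ q ∈ Finset.range M, (1 - ((pr q : ℝ) ^ (s n i))⁻¹))⁻¹| := by
          gcongr
          exact inv_le_one_of_one_le₀ hz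
      _ ≤ _ := by
        rw [one_mul]
        exact h5
  refine h7.trans ?_
  have h8 : ((N : ℝ) ^ (s n i))⁻¹ ≤ Real.exp (-(Real.log N) * L n) := by
    rw [show ((N : ℝ) ^ (s n i))⁻¹ = Real.exp (-(Real.log N) * (s n i : ℝ)) by
      rw [neg_mul, Real.exp_neg, mul_comm (Real.log N), Real.exp_nat_mul,
        Real.exp_log hN0]]
    apply Real.exp_le_exp.2
    have h9 := hLs n i
    have h10 : 0 < Real.log N := Real.log_pos (by exact_mod_cast (by omega : 1 < N))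
    nlinarith only [h9, h10]
  have h11 : 0 ≤ (N : ℝ) ^ 2 * ze 2 := by
    have := ze_ge_one (le_refl 2)
    have h12 : 0 ≤ ze 2 := by linarith only [this]
    positivity
  rw [abs_of_nonneg h11] at h3
  calc (N : ℝ) ^ 2 * ze 2 * ((N : ℝ) ^ (s n i))⁻¹ ≤
      Real.exp (-(0 - ε) * L n) * Real.exp (-(Real.log N) * L n) := by gcongr
    _ = Real.exp (-(Real.log N - ε) * L n) := by
      rw [← Real.exp_add]
      congr 1
      ring

lemma tt_mem (M : ℕ) (μ : I → ℕ) : On L (Real.log (pr M)) (tt s M μ) :=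
  On.prod hL (log_pr_pos hL hLs M).le _ _ fun i _ =>
    (tau_mem hL hLs M i).pow hL (log_pr_pos hL hLs M).le _

lemma Un_vv (μ : I → ℕ) : Un L (vv s μ) :=
  Un.prod hL _ _ fun i _ => (Un_eta hL hLs i).pow hL _

lemma vv_eq (M : ℕ) (μ : I → ℕ) :
    vv s μ = (∏ q ∈ Finset.range M, rho (Wg s q μ)) * tt s M μ := by
  unfold vv tt Wg
  have h1 : ∀ i, eta s i ^ (μ i) =
      (∏ q ∈ Finset.range M, rho (1 - ug s q i)) ^ (μ i) * tau s M i ^ (μ i) := by
    intro i
    rw [← mul_pow]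
    unfold tau
    rw [mul_div_cancel₀]
    exact Finset.prod_ne_zero_iff.2 fun q _ => (Un_ug hL hLs q i).1
  simp only [h1]
  rw [Finset.prod_mul_distrib]
  congr 1
  simp only [map_prod, map_pow, ← Finset.prod_pow]
  exact Finset.prod_comm

lemma Un_vQ (μ : I → ℕ) (Q : Finset ℕ) : Un L (vQ s μ Q) := by
  unfold vQ
  rw [div_eq_mul_inv]
  exact (Un_vv hL hLs μ).mul hL (Un.prod hL _ _ fun q _ => Un_Wg hL hLs q μ).inv

lemma vQ_eq (M : ℕ) (μ : I → ℕ) {Q : Finset ℕ} (hQ : Q ⊆ Finset.range M) :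
    vQ s μ Q = (∏ q ∈ Finset.range M \ Q, rho (Wg s q μ)) * tt s M μ := by
  unfold vQ
  rw [vv_eq hL hLs M μ, ← Finset.prod_sdiff hQ, div_eq_iff]
  · ring
  · exact Finset.prod_ne_zero_iff.2 fun q _ => (Un_Wg hL hLs q μ).1

lemma vQ_insert (μ : I → ℕ) {Q : Finset ℕ} {q : ℕ} (hq : q ∉ Q) :
    vQ s μ Q = rho (Wg s q μ) * vQ s μ (insert q Q) := by
  unfold vQ
  rw [Finset.prod_insert hq]
  have h1 := (Un_Wg hL hLs q μ).1
  have h2 : ∏ q ∈ Q, rho (Wg s q μ) ≠ 0 :=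
    Finset.prod_ne_zero_iff.2 fun q _ => (Un_Wg hL hLs q μ).1
  field_simp

lemma vQ_empty (μ : I → ℕ) : vQ s μ ∅ = vv s μ := by
  unfold vQ
  rw [Finset.prod_empty, div_one]

omit hLs in
/-- an Euler factor at another prime -/
lemma NQ_Wg (hs : Lim s x L) {q q' m : ℕ} (hne : q ≠ q') (hm : q' < m) (μ : I → ℕ) :
    NQ hL F q m (rho (Wg s q' μ)) := by
  unfold Wg
  rw [map_prod]
  refine NQ.prod _ _ fun i _ => ?_
  rw [map_pow]
  refine NQ.pow ?_ _
  rw [map_sub, map_one, sub_eq_add_neg]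
  refine NQ.one.add (NQ.neg ?_)
  rw [ug_eq hL (x := x), map_mul, ← ch1_eq hL hm]
  exact NQ.single ⟨_, rho_mem_KA hL F ⟨_, ug_const hL hs q' i⟩⟩ _ (by
    rw [ex_single, if_neg hne])

lemma DD_vv (hs : Lim s x L) (μ : I → ℕ) : DD hL F (vv s μ) := by
  intro E
  obtain ⟨M, hM⟩ : ∃ M : ℕ, E ≤ Real.log (pr M) := by
    obtain ⟨M, hM⟩ := exists_nat_ge (Real.exp E)
    refine ⟨M, ?_⟩
    rw [Real.le_log_iff_exp_le (by exact_mod_cast (pr_prime M).pos)]
    refine hM.trans ?_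
    have := pr_ge M
    exact_mod_cast (by omega : M ≤ pr M)
  refine ⟨∏ q ∈ Finset.range M, rho (Wg s q μ), ?_, ?_⟩
  · refine (SF hL F).prod_mem fun q hq => ?_
    rw [Finset.mem_range] at hq
    exact SF_of_NQ (q := M) (m := M) (NQ_Wg hL hs (by omega) hq μ)
  · rw [vv_eq hL hLs M μ]
    have h1 := SR_mul hL (Un.prod hL (Finset.range M) (fun q => rho (Wg s q μ))
      fun q _ => Un_Wg hL hLs q μ).2.1 (tt_mem hL hLs M μ)
    rw [zero_add, mul_sub, mul_one] at h1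
    exact SR_anti hL hM h1

end

end Pool.Agent.Y760.ZG
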