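import Pool.Agent.Y760.ZG.FinD

/-!
# Bounded numbers of multiple zeta values at arbitrary comparable arguments (helper760)
-/

set_option autoImplicit false

namespace Pool.Agent.Y760.ZG

open Filter Topology

/-- the arguments are at least `n` and at most `κ n`, or at most `b` and not in the first place -/
def Adm (n b : ℕ) (κ : ℝ) (w : List ℕ) : Prop :=
  (∀ m ∈ w, 1 ≤ m ∧ (m ≤ b ∨ n ≤ m) ∧ (m : ℝ) ≤ κ * n) ∧ ∀ k ∈ w.head?, n ≤ k

section

variable {g : ℕ}

/-- the letters -/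
noncomputable def Al (b g : ℕ) : Finset (ℕ+ ⊕ Fin g) := by
  classical
  exact ((Finset.Icc 1 b).attach.image fun m =>
    (Sum.inl ⟨m.1, (Finset.mem_Icc.1 m.2).1⟩ : ℕ+ ⊕ Fin g)) ∪ Finset.univ.image Sum.inr

lemma inl_mem_Al {b : ℕ} {m : ℕ+} (hm : (m : ℕ) ≤ b) : (Sum.inl m : ℕ+ ⊕ Fin g) ∈ Al b g := by
  classical
  unfold Al
  rw [Finset.mem_union]
  left
  rw [Finset.mem_image]
  exact ⟨⟨m, Finset.mem_Icc.2 ⟨m.2, hm⟩⟩, Finset.mem_attach _ _, rfl⟩

lemma inr_mem_Al {b : ℕ} (i : Fin g) : (Sum.inr i : ℕ+ ⊕ Fin g) ∈ Al b g := by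
  classical
  unfold Al
  rw [Finset.mem_union]
  right
  exact Finset.mem_image_of_mem _ (Finset.mem_univ i)

/-- the words -/
lemma exists_words (r b g : ℕ) : ∃ Λ : Finset (List (ℕ+ ⊕ Fin g)),
    ∀ w, w ∈ Λ ↔ w.length ≤ r ∧ (∀ a ∈ w, a ∈ Al b g) ∧ Lg w := by
  classical
  have h1 : ({l : List (Al b g) | l.length ≤ r}).Finite := List.finite_length_le _ r
  have h2 := h1.image (List.map Subtype.val)
  have h3 : ({w : List (ℕ+ ⊕ Fin g) | w.length ≤ r ∧ (∀ a ∈ w, a ∈ Al b g) ∧ Lg w}).Finite := by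
    refine h2.subset ?_
    rintro w ⟨hw, hw', -⟩
    refine ⟨w.attach.map fun a => ⟨a.1, hw' a.1 a.2⟩, ?_, ?_⟩
    · show (List.map _ w.attach).length ≤ r
      rw [List.length_map, List.length_attach]
      exact hw
    · rw [List.map_map]
      show List.map (fun a => a.1) w.attach = w
      exact List.attach_map_subtype_val w
  exact ⟨h3.toFinset, fun w => by rw [Set.Finite.mem_toFinset]; rfl⟩

end

/-- **bounded numbers of multiple zeta values** -/
theorem mainW {l : ℕ} (β : Fin l → ℝ) (hβ : ∀ j, IsAlgebraic ℚ (β j))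
    (hli : LinearIndependent ℚ β) (N r b : ℕ) (κ C : ℝ) :
    ∃ B : ℝ, 1 < B ∧ ∃ n0 : ℕ, ∀ n : ℕ, n0 ≤ n → ∀ W : Finset (List ℕ), W.card ≤ N →
      (∀ w ∈ W, w.length ≤ r ∧ Adm n b κ w) → ∀ a : List ℕ → Fin l → ℤ,
      (∃ w ∈ W, ∃ j, a w j ≠ 0) → (∀ w ∈ W, ∀ j, |(a w j : ℝ)| ≤ C ^ n) →
      (B ^ n)⁻¹ < |∑ w ∈ W, ∑ j, (β j * a w j) * mz w| := by
  classical
  choose Λ hΛ using fun g => exists_words r b g
  choose B hB n0 hmain using fun g => mainP (g := g) β hβ hli (Λ g)
    (fun w hw => ((hΛ g w).1 hw).2.2) κ C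
  refine ⟨∑ g ∈ Finset.range (N * r + 1), B g, ?_, b + 1 +
    ∑ g ∈ Finset.range (N * r + 1), n0 g, ?_⟩
  · refine (hB 0).trans_le ?_
    exact Finset.single_le_sum (f := B) (fun g _ => by linarith only [hB g])
      (Finset.mem_range.2 (by omega))
  intro n hn W hWN hW a ha hC
  set LL : Finset ℕ := (W.biUnion fun w => w.toFinset).filter (fun m => n ≤ m) with hLL
  have hcard : LL.card ≤ N * r := by
    calc LL.card ≤ (W.biUnion fun w => w.toFinset).card := Finset.card_filter_le _ _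
      _ ≤ ∑ w ∈ W, w.toFinset.card := Finset.card_biUnion_le
      _ ≤ ∑ _w ∈ W, r := Finset.sum_le_sum fun w hw =>
          (List.toFinset_card_le w).trans (hW w hw).1
      _ = W.card * r := by rw [Finset.sum_const, smul_eq_mul]
      _ ≤ N * r := Nat.mul_le_mul_right _ hWN
  set g : ℕ := LL.card with hg
  set s : Fin g ↪o ℕ := LL.orderEmbOfFin rfl with hs
  have hsLL : ∀ i, s i ∈ LL := fun i => LL.orderEmbOfFin_mem rfl i
  have hsurj : ∀ m ∈ LL, ∃ i, s i = m := by
    intro m hm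
    have h1 := LL.range_orderEmbOfFin rfl
    have h2 : m ∈ Set.range (LL.orderEmbOfFin rfl) := by
      rw [h1]
      exact hm
    exact h2
  have hgr : g ∈ Finset.range (N * r + 1) := Finset.mem_range.2 (by omega)
  have hn0 : n0 g ≤ n := by
    have h1 : n0 g ≤ ∑ g ∈ Finset.range (N * r + 1), n0 g :=
      Finset.single_le_sum (f := n0) (fun _ _ => Nat.zero_le _) hgr
    omega
  -- coding
  set enc : ℕ → ℕ+ ⊕ Fin g := fun m => if h : m ∈ LL then Sum.inr (hsurj m h).choose
    else if h' : 0 < m then Sum.inl ⟨m, h'⟩ else Sum.inl 1 with henc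
  have hdec : ∀ m, 1 ≤ m → lv1 s (enc m) = m := by
    intro m hm
    rw [henc]
    simp only
    split_ifs with h1 h2
    · exact (hsurj m h1).choose_spec
    · rfl
    · omega
  have hdecW : ∀ w ∈ W, (w.map enc).map (lv1 s) = w := by
    intro w hw
    rw [List.map_map]
    conv_rhs => rw [← List.map_id w]
    refine List.map_congr_left fun m hm => ?_
    exact hdec m ((hW w hw).2.1 m hm).1
  have hencΛ : ∀ w ∈ W, w.map enc ∈ Λ g := by
    intro w hw
    rw [hΛ]
    obtain ⟨h1, h2, h3⟩ := hW w hw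
    have hmLL : ∀ m ∈ w, n ≤ m → m ∈ LL := by
      intro m hm hnm
      rw [hLL, Finset.mem_filter, Finset.mem_biUnion]
      exact ⟨⟨w, hw, List.mem_toFinset.2 hm⟩, hnm⟩
    refine ⟨by rwa [List.length_map], ?_, ?_⟩
    · intro c hc
      obtain ⟨m, hm, rfl⟩ := List.mem_map.1 hc
      obtain ⟨h4, h5, _⟩ := h2 m hm
      rw [henc]
      simp only
      split_ifs with h6 h7
      · exact inr_mem_Al _
      · rcases h5 with h5 | h5
        · exact inl_mem_Al h5
        · exact absurd (hmLL m hm h5) h6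
      · omega
    · cases w with
      | nil => exact Or.inl rfl
      | cons k u =>
        right
        have h4 : n ≤ k := h3 k (by simp)
        have h5 := hmLL k List.mem_cons_self h4
        refine ⟨(hsurj k h5).choose, u.map enc, ?_⟩
        rw [List.map_cons]
        congr 1
        rw [henc]
        simp only
        rw [dif_pos h5]
  set a' : Λ g → Fin l → ℤ := fun w' j =>
    if w'.1.map (lv1 s) ∈ W ∧ (w'.1.map (lv1 s)).map enc = w'.1 then
      a (w'.1.map (lv1 s)) j else 0 with ha'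
  have ha'W : ∀ w (hw : w ∈ W) j, a' ⟨w.map enc, hencΛ w hw⟩ j = a w j := by
    intro w hw j
    rw [ha']
    simp only
    rw [hdecW w hw, if_pos ⟨hw, rfl⟩]
  obtain ⟨w1, hw1, j1, hj1⟩ := ha
  have hC0 : 0 ≤ C ^ n := (abs_nonneg _).trans (hC w1 hw1 j1)
  have h1 := hmain g n hn0 s s.injective (fun i => by
      have h2 := hsLL i
      rw [hLL, Finset.mem_filter, Finset.mem_biUnion] at h2
      obtain ⟨⟨w, hw, h3⟩, h4⟩ := h2
      exact ⟨h4, ((hW w hw).2.1 _ (List.mem_toFinset.1 h3)).2.2⟩) a' (by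
      intro h2
      apply hj1
      rw [← ha'W w1 hw1 j1, h2]
      rfl) (fun w' j => by
      rw [ha']
      simp only
      split_ifs with h2
      · exact hC _ h2.1 j
      · rw [Int.cast_zero, abs_zero]
        exact hC0)
  have h2 : ∑ w' : Λ g, ∑ j, (β j * a' w' j) * mz (w'.1.map (lv1 s)) =
      ∑ w ∈ W, ∑ j, (β j * a w j) * mz w := by
    have h3 : ∀ w' : Λ g, ¬ (w'.1.map (lv1 s) ∈ W ∧ (w'.1.map (lv1 s)).map enc = w'.1) →
        ∑ j, (β j * a' w' j) * mz (w'.1.map (lv1 s)) = 0 := by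
      intro w' hw'
      refine Finset.sum_eq_zero fun j _ => ?_
      rw [ha']
      simp only
      rw [if_neg hw', Int.cast_zero, mul_zero, zero_mul]
    rw [← Finset.sum_filter_add_sum_filter_not Finset.univ (fun w' : Λ g =>
      w'.1.map (lv1 s) ∈ W ∧ (w'.1.map (lv1 s)).map enc = w'.1),
      Finset.sum_eq_zero (s := Finset.univ.filter fun w' : Λ g =>
        ¬ (w'.1.map (lv1 s) ∈ W ∧ (w'.1.map (lv1 s)).map enc = w'.1)) (fun w' hw' =>
        h3 w' (Finset.mem_filter.1 hw').2), add_zero]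
    refine Finset.sum_bij' (fun w' _ => w'.1.map (lv1 s))
      (fun w hw => (⟨w.map enc, hencΛ w hw⟩ : Λ g)) ?_ ?_ ?_ ?_ ?_
    · intro w' hw'
      exact (Finset.mem_filter.1 hw').2.1
    · intro w hw
      rw [Finset.mem_filter]
      refine ⟨Finset.mem_univ _, ?_⟩
      simp only
      rw [hdecW w hw]
      exact ⟨hw, rfl⟩
    · intro w' hw'
      exact Subtype.ext (Finset.mem_filter.1 hw').2.2
    · intro w hw
      exact hdecW w hw
    · intro w' hw'
      refine Finset.sum_congr rfl fun j _ => ?_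
      rw [ha']
      simp only
      rw [if_pos (Finset.mem_filter.1 hw').2]
  rw [h2] at h1
  refine lt_of_le_of_lt ?_ h1
  have hBg : B g ≤ ∑ g ∈ Finset.range (N * r + 1), B g :=
    Finset.single_le_sum (f := B) (fun g _ => by linarith only [hB g]) hgr
  have hBg0 : 0 < B g := by linarith only [hB g]
  gcongr

end Pool.Agent.Y760.ZG
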