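import Pool.Agent.TH796.AL.All
import Pool.Agent.Y760.ZG.KP

/-!
# Finite sums of characters for the bases formed by the first primes (helper760)
-/

set_option autoImplicit false

namespace Pool.Agent.Y760.ZG

open Filter Topology Pool.Agent.TH932.Abs Pool.Agent.TH932.Germs Pool.Agent.TH932.Chi
open Pool.Agent.TH796.AL

/-- the prime with the index `q` -/
noncomputable def pr (q : ℕ) : ℕ := Nat.nth Nat.Prime q

lemma pr_prime (q : ℕ) : (pr q).Prime := Nat.prime_nth_prime q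

lemma pr_inj {p q : ℕ} (h : pr p = pr q) : p = q :=
  Nat.nth_injective Nat.infinite_setOfPred_prime h

/-- the base of the first `m` primes -/
noncomputable def bs (m : ℕ) : Base m where
  P i := pr i
  two i := (pr_prime i).two_le
  cop i j hij := Nat.isCoprime_iff_coprime.2 ((Nat.coprime_primes (pr_prime i) (pr_prime j)).2
    fun h => hij (Fin.ext (pr_inj h)))

/-- extension by zero -/
noncomputable def ex {m : ℕ} (g : Fin m → ℝ) (i : ℕ) : ℝ := if h : i < m then g ⟨i, h⟩ else 0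

lemma ex_add {m : ℕ} (g h : Fin m → ℝ) (i : ℕ) : ex (g + h) i = ex g i + ex h i := by
  unfold ex
  split_ifs
  · rfl
  · rw [add_zero]

lemma ex_zero {m : ℕ} (i : ℕ) : ex (0 : Fin m → ℝ) i = 0 := by
  unfold ex
  split_ifs <;> rfl

/-- extension by zero -/
noncomputable def inc {m : ℕ} (m' : ℕ) (g : Fin m → ℝ) : Fin m' → ℝ := fun i => ex g i

lemma ex_inc {m m' : ℕ} (h : m ≤ m') (g : Fin m → ℝ) (i : ℕ) : ex (inc m' g) i = ex g i := by
  unfold inc ex
  by_cases h1 : i < m'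
  · rw [dif_pos h1]
  · rw [dif_neg h1, dif_neg (by omega)]

section

variable {L : ℕ → ℝ} (hL : Tendsto L atTop atTop)

lemma ch_bs {m : ℕ} (g : Fin m → ℝ) {m' : ℕ} (h : m ≤ m') :
    ch (bs m) hL g = gm fun n => ∏ i ∈ Finset.range m', (pr i : ℚ) ^ ⌊ell hL (ex g i) n⌋ := by
  rw [ch_eq]
  congr 1
  funext n
  have h1 : ∏ i ∈ Finset.range m', (pr i : ℚ) ^ ⌊ell hL (ex g i) n⌋ =
      ∏ i ∈ Finset.range m, (pr i : ℚ) ^ ⌊ell hL (ex g i) n⌋ := by
    symm
    refine Finset.prod_subset (Finset.range_subset_range.2 h) fun i _ hi => ?_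
    rw [Finset.mem_range] at hi
    unfold ex
    rw [dif_neg hi, ell_zero]
    simp
  rw [h1, ← Fin.prod_univ_eq_prod_range (fun i => (pr i : ℚ) ^ ⌊ell hL (ex g i) n⌋) m]
  refine Finset.prod_congr rfl fun i _ => ?_
  unfold ex
  rw [dif_pos i.2]
  rfl

lemma ch_inc {m m' : ℕ} (h : m ≤ m') (g : Fin m → ℝ) :
    ch (bs m') hL (inc m' g) = ch (bs m) hL g := by
  rw [ch_bs hL g h, ch_bs hL (inc m' g) le_rfl]
  congr 1
  funext n
  exact Finset.prod_congr rfl fun i _ => by rw [ex_inc h]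

variable (F : IntermediateField ℚ ℝ)

/-- finite sums of characters of the first `m` primes, without the prime `q` -/
def NQ (q m : ℕ) (x : HR) : Prop :=
  ∃ f : RgA F m hL, (∀ g, f.coeff g ≠ 0 → ex g q = 0) ∧ evA F (bs m) hL f = x

variable {hL F}

lemma coeff_mul_ne {m : ℕ} {f f' : RgA F m hL} {g : Fin m → ℝ} (h : (f * f').coeff g ≠ 0) :
    ∃ a b, f.coeff a ≠ 0 ∧ f'.coeff b ≠ 0 ∧ a + b = g := by
  classical
  by_contra hcon
  push Not at hcon
  apply h
  rw [AddMonoidAlgebra.coeff_mul]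
  refine Finset.sum_eq_zero fun a ha => Finset.sum_eq_zero fun b hb => if_neg ?_
  exact hcon a b (Finsupp.mem_support_iff.1 ha) (Finsupp.mem_support_iff.1 hb)

lemma NQ.add {q m : ℕ} {x y : HR} (hx : NQ hL F q m x) (hy : NQ hL F q m y) :
    NQ hL F q m (x + y) := by
  obtain ⟨f, hf, rfl⟩ := hx
  obtain ⟨g, hg, rfl⟩ := hy
  refine ⟨f + g, fun a ha => ?_, map_add _ _ _⟩
  rw [AddMonoidAlgebra.coeff_add, Finsupp.add_apply] at ha
  by_cases h : f.coeff a = 0
  · rw [h, zero_add] at ha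
    exact hg a ha
  · exact hf a h

lemma NQ.mul {q m : ℕ} {x y : HR} (hx : NQ hL F q m x) (hy : NQ hL F q m y) :
    NQ hL F q m (x * y) := by
  obtain ⟨f, hf, rfl⟩ := hx
  obtain ⟨g, hg, rfl⟩ := hy
  refine ⟨f * g, fun a ha => ?_, map_mul _ _ _⟩
  obtain ⟨b, c, hb, hc, rfl⟩ := coeff_mul_ne ha
  rw [ex_add, hf b hb, hg c hc, add_zero]

lemma NQ.single {q m : ℕ} (c : KA F hL) (g : Fin m → ℝ) (hg : ex g q = 0) :
    NQ hL F q m ((c : HR) * rho (ch (bs m) hL g)) := by
  classical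
  refine ⟨AddMonoidAlgebra.single g c, fun a ha => ?_, evA_single hL F g c⟩
  rw [AddMonoidAlgebra.coeff_single] at ha
  by_cases h : g = a
  · rw [← h]
    exact hg
  · rw [Finsupp.single_eq_of_ne (Ne.symm h)] at ha
    exact absurd rfl ha

lemma NQ.zero {q m : ℕ} : NQ hL F q m 0 := ⟨0, fun _ ha => absurd rfl ha, map_zero _⟩

lemma NQ.coe {q m : ℕ} (c : KA F hL) : NQ hL F q m (c : HR) := by
  have := NQ.single (q := q) (m := m) c 0 (ex_zero q)
  rwa [ch_zero, map_one, mul_one] at this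

lemma NQ.one {q m : ℕ} : NQ hL F q m 1 := NQ.coe (1 : KA F hL)

lemma NQ.neg {q m : ℕ} {x : HR} (hx : NQ hL F q m x) : NQ hL F q m (-x) := by
  have := (NQ.coe (q := q) (m := m) (-1 : KA F hL)).mul hx
  rwa [show ((-1 : KA F hL) : HR) * x = -x by
    push_cast
    ring] at this

lemma NQ.sum {q m : ℕ} {ι : Type*} (s : Finset ι) (f : ι → HR) (h : ∀ i ∈ s, NQ hL F q m (f i)) :
    NQ hL F q m (∑ i ∈ s, f i) :=
  Finset.sum_induction f (NQ hL F q m) (fun _ _ => NQ.add) NQ.zero h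

lemma NQ.prod {q m : ℕ} {ι : Type*} (s : Finset ι) (f : ι → HR) (h : ∀ i ∈ s, NQ hL F q m (f i)) :
    NQ hL F q m (∏ i ∈ s, f i) :=
  Finset.prod_induction f (NQ hL F q m) (fun _ _ => NQ.mul) NQ.one h

lemma NQ.pow {q m : ℕ} {x : HR} (hx : NQ hL F q m x) (e : ℕ) : NQ hL F q m (x ^ e) := by
  induction e with
  | zero =>
    rw [pow_zero]
    exact NQ.one
  | succ e ih =>
    rw [pow_succ]
    exact ih.mul hx

lemma NQ.mono {q m m' : ℕ} (h : m ≤ m') {x : HR} (hx : NQ hL F q m x) : NQ hL F q m' x := by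
  classical
  obtain ⟨f, hf, rfl⟩ := hx
  rw [evA_sum]
  refine NQ.sum _ _ fun g hg => ?_
  rw [← ch_inc hL h g]
  exact NQ.single _ _ (by rw [ex_inc h]; exact hf g (Finsupp.mem_support_iff.1 hg))

/-- no condition if the prime is not one of the first `m` primes -/
lemma NQ.of_le {q q' m : ℕ} (h : m ≤ q) {x : HR} (hx : NQ hL F q' m x) : NQ hL F q m x := by
  obtain ⟨f, _, rfl⟩ := hx
  refine ⟨f, fun g _ => ?_, rfl⟩
  unfold ex
  rw [dif_neg (by omega)]

variable (hL F)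

/-- all finite sums of characters -/
noncomputable def SF : Subring HR where
  carrier := {x | ∃ m, NQ hL F m m x}
  mul_mem' := by
    rintro x y ⟨m, hx⟩ ⟨m', hy⟩
    refine ⟨m + m', ?_⟩
    have h1 := (hx.of_le (q := m + m') (by omega)).mono (show m ≤ m + m' by omega)
    have h2 := (hy.of_le (q := m + m') (by omega)).mono (show m' ≤ m + m' by omega)
    exact h1.mul h2
  one_mem' := ⟨0, NQ.one⟩
  add_mem' := by
    rintro x y ⟨m, hx⟩ ⟨m', hy⟩
    refine ⟨m + m', ?_⟩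
    have h1 := (hx.of_le (q := m + m') (by omega)).mono (show m ≤ m + m' by omega)
    have h2 := (hy.of_le (q := m + m') (by omega)).mono (show m' ≤ m + m' by omega)
    exact h1.add h2
  zero_mem' := ⟨0, NQ.zero⟩
  neg_mem' := by
    rintro x ⟨m, hx⟩
    exact ⟨m, hx.neg⟩

variable {hL F}

lemma mem_SF {x : HR} : x ∈ SF hL F ↔ ∃ m, NQ hL F m m x := Iff.rfl

lemma SF_of_NQ {q m : ℕ} {x : HR} (hx : NQ hL F q m x) : x ∈ SF hL F :=
  ⟨m, hx.of_le le_rfl⟩

/-- a common number of primes -/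
lemma SF_common {J : Type} [Fintype J] {x : J → HR} (hx : ∀ j, x j ∈ SF hL F) :
    ∃ m : ℕ, ∀ m', m ≤ m' → ∀ j, NQ hL F m' m' (x j) := by
  choose m hm using hx
  refine ⟨∑ j, m j, fun m' hm' j => ?_⟩
  have h1 : m j ≤ ∑ j, m j :=
    Finset.single_le_sum (f := m) (fun _ _ => Nat.zero_le _) (Finset.mem_univ j)
  exact ((hm j).of_le (q := m') (by omega)).mono (by omega)

lemma SF_rho_ev {m : ℕ} (f : Rg m hL) : rho (ev (bs m) hL f) ∈ SF hL F := by
  rw [ev_sum, map_sum]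
  refine (SF hL F).sum_mem fun g _ => ?_
  rw [map_mul]
  exact SF_of_NQ (q := m) (NQ.single ⟨_, rho_mem_KA hL F (f.coeff g)⟩ g (by
    unfold ex
    rw [dif_neg (lt_irrefl m)]))

/-- finite sums of characters are bounded -/
lemma SF_bdd {x : HR} (hx : x ∈ SF hL F) : ∃ c : ℝ, 0 ≤ c ∧ x ∈ SR L (-c) := by
  obtain ⟨m, f, _, rfl⟩ := hx
  rw [evA_sum]
  refine ⟨∑ g ∈ f.coeff.support, |lv (bs m) none g|, Finset.sum_nonneg fun _ _ => abs_nonneg _,
    SR_sum hL _ _ fun g hg => ?_⟩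
  have h1 := SR_mul hL (SR_KA hL F (f.coeff g)) (SR_rho (ch_mem (B := bs m) hL none g))
  refine SR_anti hL ?_ h1
  have h2 : |lv (bs m) none g| ≤ ∑ g ∈ f.coeff.support, |lv (bs m) none g| :=
    Finset.single_le_sum (f := fun g => |lv (bs m) none g|) (fun _ _ => abs_nonneg _) hg
  have h3 := neg_abs_le (lv (bs m) none g)
  linarith only [h2, h3]

/-- a finite sum of characters is not much smaller than its terms -/
lemma kp1 (hF : FiniteDimensional ℚ F) {m : ℕ} (f : RgA F m hL) {x : ℝ}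
    (hx : evA F (bs m) hL f ∈ SR L x) (g : Fin m → ℝ) (hg : f.coeff g ≠ 0) :
    x ≤ lv (bs m) none g := by
  have h := kpu mova_thm ext_thm m (bs m) L hL F hF Unit (fun _ => (1 : GG)) 0
    (fun A hA j => by
      simp only [Finset.univ_unique, Finset.sum_singleton, mul_one] at hA
      exact su_thm m (bs m) L hL _ hA)
    (fun v _ => (filt_v hL (some v)).alg_mem 1)
    (fun _ => by
      rw [neg_zero]
      exact (filt_v hL none).alg_mem 1)
    (fun _ => ⟨0, (filt_S hL).alg_mem 1⟩) (fun _ => f) x (by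
      simpa using hx) () g hg
  simpa using h

/-- **the parts of a finite sum of characters at one prime** -/
lemma split (hF : FiniteDimensional ℚ F) {q m : ℕ} (hq : q < m) (Y : Finset ℝ) (R : ℝ → HR)
    (hR : ∀ y ∈ Y, NQ hL F q m (R y)) {x : ℝ}
    (h : ∑ y ∈ Y, rho (ch (bs m) hL (Pi.single ⟨q, hq⟩ (-y))) * R y ∈ SR L x) (y1 : ℝ)
    (hy1 : y1 ∈ Y) : R y1 ∈ SR L (x - y1 * Real.log (pr q)) := by
  classical
  choose! f hf hfR using hR
  set Φ : RgA F m hL := ∑ y ∈ Y, AddMonoidAlgebra.single (Pi.single ⟨q, hq⟩ (-y)) 1 * f y with hΦ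
  have h1 : evA F (bs m) hL Φ =
      ∑ y ∈ Y, rho (ch (bs m) hL (Pi.single ⟨q, hq⟩ (-y))) * R y := by
    rw [hΦ, map_sum]
    refine Finset.sum_congr rfl fun y hy => ?_
    rw [map_mul, evA_single, hfR y hy]
    push_cast
    rw [one_mul]
  rw [← h1] at h
  rw [← hfR y1 hy1, evA_sum]
  refine SR_sum hL _ _ fun g hg => ?_
  rw [Finsupp.mem_support_iff] at hg
  have h2 := SR_mul hL (SR_KA hL F ((f y1).coeff g)) (SR_rho (ch_mem (B := bs m) hL none g))
  refine SR_anti hL ?_ h2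
  have hgq : g ⟨q, hq⟩ = 0 := by
    have := hf y1 hy1 g hg
    unfold ex at this
    rwa [dif_pos hq] at this
  have h3 : Φ.coeff (Pi.single ⟨q, hq⟩ (-y1) + g) = (f y1).coeff g := by
    rw [hΦ, AddMonoidAlgebra.coeff_sum, Finsupp.finsetSum_apply, Finset.sum_eq_single y1]
    · rw [AddMonoidAlgebra.coeff_single_mul_apply, one_mul, neg_add_cancel_left]
    · intro y hy hne
      rw [AddMonoidAlgebra.coeff_single_mul_apply, one_mul]
      by_contra hcon
      have h4 := hf y hy _ hcon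
      unfold ex at h4
      rw [dif_pos hq] at h4
      simp only [Pi.add_apply, Pi.neg_apply, Pi.single_eq_same, hgq] at h4
      apply hne
      linarith only [h4]
    · intro h4
      exact absurd hy1 h4
  have h4 := kp1 hF Φ h (Pi.single ⟨q, hq⟩ (-y1) + g) (by
    rw [h3]
    exact hg)
  rw [lv_add] at h4
  have h5 : lv (bs m) none (Pi.single ⟨q, hq⟩ (-y1)) = y1 * Real.log (pr q) := by
    show -∑ i, (Pi.single ⟨q, hq⟩ (-y1) : Fin m → ℝ) i * Real.log ((bs m).P i) = _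
    rw [Finset.sum_eq_single ⟨q, hq⟩]
    · rw [Pi.single_eq_same]
      show -(-y1 * Real.log (pr q)) = _
      ring
    · intro b _ hb
      rw [Pi.single_eq_of_ne hb, zero_mul]
    · intro h6
      exact absurd (Finset.mem_univ _) h6
  rw [h5] at h4
  linarith only [h4]

end

end Pool.Agent.Y760.ZG
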