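import Pool.Agent.Y760.ZG.Eul

/-!
# Monomials in zeta values are linearly independent over finite sums of characters (helper760)
-/

set_option autoImplicit false

namespace Pool.Agent.Y760.ZG

open Filter Topology Pool.Agent.TH932.Abs Pool.Agent.TH932.Germs Pool.Agent.TH932.Chi
open Pool.Agent.TH796.AL

section

variable {L : ℕ → ℝ} {hL : Tendsto L atTop atTop} {F : IntermediateField ℚ ℝ}
  {I : Type} [Fintype I] [DecidableEq I] {s : ℕ → I → ℕ} {x : I → ℝ}

lemma Yw_nonneg (hx : ∀ i, 1 ≤ x i) {d : ℕ} {y : ℝ} (hy : y ∈ Yw x d) : 0 ≤ y := by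
  obtain ⟨β, _, rfl⟩ := Finset.mem_image.1 hy
  unfold dt
  exact Finset.sum_nonneg fun i _ => mul_nonneg (Nat.cast_nonneg _) (by linarith only [hx i])

lemma ch1_mem (q : ℕ) (y : ℝ) : rho (ch1 hL q (-y)) ∈ SR L (y * Real.log (pr q)) := by
  have h1 := SR_rho (ch_mem (B := bs (q + 1)) hL none (Pi.single ⟨q, Nat.lt_succ_self q⟩ (-y)))
  have h2 : lv (bs (q + 1)) none (Pi.single ⟨q, Nat.lt_succ_self q⟩ (-y)) =
      y * Real.log (pr q) := by
    show -∑ i, (Pi.single ⟨q, Nat.lt_succ_self q⟩ (-y) : Fin (q + 1) → ℝ) i *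
      Real.log ((bs (q + 1)).P i) = _
    rw [Finset.sum_eq_single ⟨q, Nat.lt_succ_self q⟩]
    · rw [Pi.single_eq_same]
      show -(-y * Real.log (pr q)) = _
      ring
    · intro b _ hb
      rw [Pi.single_eq_of_ne hb, zero_mul]
    · intro h6
      exact absurd (Finset.mem_univ _) h6
  rw [h2] at h1
  exact h1

lemma wg_SR (hs : Lim s x L) (q : ℕ) (μ : I → ℕ) (d : ℕ) (y : ℝ) :
    rho (wg hL s x q μ d y) ∈ SR L 0 :=
  SR_KA hL ⊤ ⟨_, rho_mem_KA hL ⊤ ⟨_, wg_mem hL hs q μ d y⟩⟩

/-- **the parts of a null sum at one prime** -/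
lemma nul_split (hF : FiniteDimensional ℚ F) (hs : Lim s x L) (hx : ∀ i, 1 ≤ x i)
    (hLs : ∀ n i, L n ≤ (s n i : ℝ)) {E : Type} [Fintype E] (μ : E → I → ℕ) {d : ℕ}
    (hd : ∀ e i, μ e i ≤ d) (c : E → HR) (hc : ∀ e, c e ∈ SF hL F) (Q : Finset ℕ) {q m0 : ℕ}
    (hm0 : ∀ m', m0 ≤ m' → ∀ e, NQ hL F m' m' (c e)) (hq : m0 ≤ q) (hqQ : q ∉ Q)
    (hn : Nul L (∑ e, c e * vQ s (μ e) Q)) {y : ℝ} (hy : y ∈ Yw x d) :
    Nul L (∑ e, c e * rho (wg hL s x q (μ e) d y) * vQ s (μ e) (insert q Q)) := by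
  classical
  choose c0 hc0 hc0' using fun e => SF_bdd (hc e)
  set K : ℝ := ∑ e, c0 e with hK
  have hK0 : 0 ≤ K := Finset.sum_nonneg fun e _ => hc0 e
  have hcK : ∀ e, c e ∈ SR L (-K) := fun e =>
    SR_anti hL (neg_le_neg (Finset.single_le_sum (f := c0) (fun e _ => hc0 e)
      (Finset.mem_univ e))) (hc0' e)
  set R : ℝ → HR := fun y =>
    ∑ e, c e * rho (wg hL s x q (μ e) d y) * vQ s (μ e) (insert q Q) with hR
  set T : ℕ → ℝ → HR := fun M y => ∑ e, c e * rho (wg hL s x q (μ e) d y) *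
    ∏ q' ∈ Finset.range M \ insert q Q, rho (Wg s q' (μ e)) with hT
  have h1 : ∀ M : ℕ, insert q Q ⊆ Finset.range M → ∀ y, R y - T M y ∈
      SR L (Real.log (pr M) - K) := by
    intro M hM y
    have e1 : R y - T M y = ∑ e, c e * (rho (wg hL s x q (μ e) d y) *
        ((∏ q' ∈ Finset.range M \ insert q Q, rho (Wg s q' (μ e))) * (tt s M (μ e) - 1))) := by
      rw [hR, hT]
      simp only
      rw [← Finset.sum_sub_distrib]
      refine Finset.sum_congr rfl fun e _ => ?_
      rw [vQ_eq hL hLs M (μ e) hM]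
      ring
    rw [e1]
    refine SR_sum hL _ _ fun e _ => ?_
    have h2 := SR_mul hL (hcK e) (SR_mul hL (wg_SR (hL := hL) hs q (μ e) d y)
      (SR_mul hL (Un.prod hL (Finset.range M \ insert q Q) (fun q' => rho (Wg s q' (μ e)))
        fun q' _ => Un_Wg hL hLs q' (μ e)).2.1 (tt_mem hL hLs M (μ e))))
    rw [zero_add, zero_add, neg_add_eq_sub] at h2
    exact h2
  have h2 : ∑ y ∈ Yw x d, rho (ch1 hL q (-y)) * R y = ∑ e, c e * vQ s (μ e) Q := by
    rw [hR]
    simp only [Finset.mul_sum]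
    rw [Finset.sum_comm]
    refine Finset.sum_congr rfl fun e _ => ?_
    rw [vQ_insert hL hLs (μ e) hqQ, Wg_eq (x := x) hL q (hd e), map_sum, Finset.sum_mul,
      Finset.mul_sum]
    refine Finset.sum_congr rfl fun y _ => ?_
    rw [map_mul]
    ring
  have h3 : ∀ M : ℕ, insert q Q ⊆ Finset.range M → ∀ y ∈ Yw x d,
      R y ∈ SR L (Real.log (pr M) - K - y * Real.log (pr q)) := by
    intro M hM y hy
    have hqM : q < M := Finset.mem_range.1 (hM (Finset.mem_insert_self q Q))
    have h4 : ∑ y ∈ Yw x d, rho (ch (bs M) hL (Pi.single ⟨q, hqM⟩ (-y))) * T M y ∈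
        SR L (Real.log (pr M) - K) := by
      have e1 : ∑ y ∈ Yw x d, rho (ch (bs M) hL (Pi.single ⟨q, hqM⟩ (-y))) * T M y =
          ∑ e, c e * vQ s (μ e) Q - ∑ y ∈ Yw x d, rho (ch1 hL q (-y)) * (R y - T M y) := by
        rw [← h2, ← Finset.sum_sub_distrib]
        refine Finset.sum_congr rfl fun y _ => ?_
        rw [ch1_eq]
        ring
      rw [e1]
      refine SR_sub hL (hn _) (SR_sum hL _ _ fun y hy => ?_)
      have h5 := SR_mul hL (ch1_mem (hL := hL) q y) (h1 M hM y)
      refine SR_anti hL ?_ h5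
      have h6 := mul_nonneg (Yw_nonneg hx hy) (log_pr_pos hL hLs q).le
      linarith only [h6]
    have h5 := split hF hqM (Yw x d) (T M) (fun y _ => NQ.sum _ _ fun e _ => ?_) h4 y hy
    · have h6 := h1 M hM y
      have h7 := mul_nonneg (Yw_nonneg hx hy) (log_pr_pos hL hLs q).le
      have h8 := SR_add hL (SR_anti hL (show Real.log (pr M) - K - y * Real.log (pr q) ≤
        Real.log (pr M) - K by linarith only [h7]) h6) h5
      rwa [sub_add_cancel] at h8
    · refine (NQ.mul ((hm0 q hq e).mono hqM.le) ?_).mul (NQ.prod _ _ fun q' hq' => ?_)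
      · exact NQ.coe ⟨_, rho_mem_KA hL F ⟨_, wg_mem hL hs q (μ e) d _⟩⟩
      · rw [Finset.mem_sdiff, Finset.mem_range] at hq'
        exact NQ_Wg hL hs (fun h => hq'.2 (by rw [← h]; exact Finset.mem_insert_self q Q)) hq'.1
          (μ e)
  intro t
  obtain ⟨M, hM⟩ := exists_nat_ge (Real.exp (t + K + y * Real.log (pr q)))
  set M' : ℕ := M + (insert q Q).sup id + 1 with hM'
  have h4 : insert q Q ⊆ Finset.range M' := by
    intro a ha
    rw [Finset.mem_range]
    have : a ≤ (insert q Q).sup id := Finset.le_sup (f := id) ha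
    omega
  refine SR_anti hL ?_ (h3 M' h4 y hy)
  have h5 : t + K + y * Real.log (pr q) ≤ Real.log (pr M') := by
    rw [Real.le_log_iff_exp_le (by exact_mod_cast (pr_prime M').pos)]
    refine hM.trans ?_
    have := pr_ge M'
    exact_mod_cast (by omega : M ≤ pr M')
  linarith only [h5]

/-- a null finite sum of characters is zero -/
lemma SF_nul (hF : FiniteDimensional ℚ F) {c : HR} (hc : c ∈ SF hL F) (hn : Nul L c) : c = 0 := by
  obtain ⟨m, f, _, rfl⟩ := hc
  by_contra hne
  have h1 : f ≠ 0 := by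
    rintro rfl
    exact hne (map_zero _)
  obtain ⟨g, hg⟩ : ∃ g, f.coeff g ≠ 0 := by
    by_contra hcon
    push Not at hcon
    apply h1
    ext g
    rw [hcon g]
    rfl
  have h2 := kp1 hF f (hn (lv (bs m) none g + 1)) g hg
  linarith only [h2]

/-- **monomials in zeta values are linearly independent over finite sums of characters** -/
theorem ind (hF : FiniteDimensional ℚ F) (hs : Lim s x L) (hx : ∀ i, 1 ≤ x i)
    (hLs : ∀ n i, L n ≤ (s n i : ℝ)) (hinj : ∀ n, Function.Injective (s n)) {E : Type}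
    [Fintype E] (μ : E → I → ℕ) (hμ : Function.Injective μ) {d : ℕ} (hd : ∀ e i, μ e i ≤ d)
    (r : ℕ) : ∀ (Q : Finset ℕ) (c : E → HR), (∀ e, c e ∈ SF hL F) →
      (∃ S : Finset E, S.card ≤ r ∧ ∀ e, e ∉ S → c e = 0) →
      Nul L (∑ e, c e * vQ s (μ e) Q) → ∀ e, c e = 0 := by
  classical
  induction r with
  | zero =>
    rintro Q c _ ⟨S, hS, hS0⟩ _ e
    refine hS0 e ?_
    rw [Finset.card_eq_zero.1 (Nat.le_zero.1 hS)]
    exact Finset.notMem_empty e
  | succ r ih =>
    rintro Q c hc ⟨S, hS, hS0⟩ hn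
    by_contra hcon
    push Not at hcon
    obtain ⟨e1, he1⟩ := hcon
    have he1S : e1 ∈ S := by
      by_contra h
      exact he1 (hS0 e1 h)
    by_cases hcase : ∃ e2, e2 ≠ e1 ∧ c e2 ≠ 0
    · obtain ⟨e2, he2, he2'⟩ := hcase
      obtain ⟨m0, hm0⟩ := SF_common hc
      obtain ⟨y, hy, hsep⟩ := separate (s := s) hL hx hinj (hd e2) (hd e1) (fun h => he2 (hμ h))
      set q : ℕ := m0 + d + Q.sup id + 1 with hq
      have hqQ : q ∉ Q := by
        intro h
        have : q ≤ Q.sup id := Finset.le_sup (f := id) h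
        omega
      have hqd : d < pr q := by
        have := pr_ge q
        omega
      have h0 := nul_split hF hs hx hLs μ hd c hc Q hm0 (show m0 ≤ q by omega) hqQ hn
        (zero_mem_Yw d)
      have h1 := nul_split hF hs hx hLs μ hd c hc Q hm0 (show m0 ≤ q by omega) hqQ hn hy
      have h2 := ih (insert q Q)
        (fun e => c e * rho (wg hL s x q (μ e) d y - wg hL s x q (μ e1) d y)) (fun e => by
          refine (SF hL F).mul_mem (hc e) ?_
          refine SF_of_NQ (q := 0) (m := 0) (NQ.coe ⟨_, rho_mem_KA hL F ⟨_, ?_⟩⟩)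
          exact (KK L hL).sub_mem (wg_mem hL hs q (μ e) d y) (wg_mem hL hs q (μ e1) d y))
        ⟨S.erase e1, by
          rw [Finset.card_erase_of_mem he1S]
          omega, fun e he => by
          rw [Finset.mem_erase, not_and_or, not_not] at he
          rcases he with h | h
          · rw [h, sub_self, map_zero, mul_zero]
          · rw [hS0 e h, zero_mul]⟩ (by
          have h3 := h1.sub hL (h0.mul (c := 0) hL (by
            rw [neg_zero]
            exact wg_SR (hL := hL) hs q (μ e1) d y))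
          have e1 : ∑ e, c e * rho (wg hL s x q (μ e) d y) * vQ s (μ e) (insert q Q) -
              (∑ e, c e * rho (wg hL s x q (μ e) d 0) * vQ s (μ e) (insert q Q)) *
                rho (wg hL s x q (μ e1) d y) =
              ∑ e, c e * rho (wg hL s x q (μ e) d y - wg hL s x q (μ e1) d y) *
                vQ s (μ e) (insert q Q) := by
            rw [Finset.sum_mul, ← Finset.sum_sub_distrib]
            refine Finset.sum_congr rfl fun e _ => ?_
            rw [wg_zero hL hx, map_one, map_sub]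
            ring
          rw [e1] at h3
          exact h3) e2
      rcases mul_eq_zero.1 h2 with h3 | h3
      · exact he2' h3
      · rw [map_eq_zero, sub_eq_zero] at h3
        exact hsep q hqd h3
    · push Not at hcase
      rw [Finset.sum_eq_single e1 (fun e _ he => by rw [hcase e he, zero_mul])
        (fun h => absurd (Finset.mem_univ _) h)] at hn
      have h1 := Un_vQ hL hLs (μ e1) Q
      have h2 := hn.mul (c := 0) hL (by
        rw [neg_zero]
        exact h1.2.2)
      rw [mul_assoc, mul_inv_cancel₀ h1.1, mul_one] at h2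
      exact he1 (SF_nul hF (hc e1) h2)

end

end Pool.Agent.Y760.ZG
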