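import Pool.Agent.Y760.ZG.Env

/-!
# Multiple zeta values with large arguments are linearly independent over finite sums of
characters (helper760)
-/

set_option autoImplicit false

namespace Pool.Agent.Y760.ZG

open Filter Topology Pool.Agent.TH932.Abs Pool.Agent.TH932.Germs Pool.Agent.TH932.Chi
open Pool.Agent.TH796.AL

variable {I : Type} [Fintype I] [DecidableEq I]

open Classical in
/-- the coefficient of a small word in an expansion -/
noncomputable def Xb (s : ℕ → I → ℕ) (t : List (ℕ+ ⊕ I)) (β : List ℕ+) : HR :=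
  ((sp t).map fun p => if p.1 = β then Xg s p.2 else 0).sum

open Classical in
lemma Xb_sum (s : ℕ → I → ℕ) (Λ : Finset (List ℕ+)) (l : List (List ℕ+ × List (ℕ+ ⊕ I)))
    (hl : ∀ p ∈ l, p.1 ∈ Λ) (f : List ℕ+ → HR) :
    (l.map fun p => f p.1 * Xg s p.2).sum =
      ∑ β : Λ, f β * (l.map fun p => if p.1 = β.1 then Xg s p.2 else 0).sum := by
  induction l with
  | nil => simp
  | cons p l ih =>
    simp only [List.map_cons, List.sum_cons]
    rw [ih fun p' hp' => hl p' (List.mem_cons_of_mem _ hp')]
    simp only [mul_add]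
    rw [Finset.sum_add_distrib]
    congr 1
    rw [Finset.sum_eq_single (⟨p.1, hl p List.mem_cons_self⟩ : Λ)]
    · rw [if_pos rfl]
    · intro β _ hβ
      rw [if_neg, mul_zero]
      intro h
      exact hβ (Subtype.ext h.symm)
    · intro h
      exact absurd (Finset.mem_univ _) h

section

variable {L : ℕ → ℝ} {hL : Tendsto L atTop atTop} {F : IntermediateField ℚ ℝ}
  {s : ℕ → I → ℕ} {x : I → ℝ}

open Classical in
lemma heads (hF : FiniteDimensional ℚ F) (hs : Lim s x L) (hx : ∀ i, 1 ≤ x i)
    (hLs : ∀ n i, L n ≤ (s n i : ℝ)) (hinj : ∀ n, Function.Injective (s n)) {W : Type}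
    [Fintype W] (w : W → List (ℕ+ ⊕ I)) (hst : ∀ v, Lg (w v)) (c : W → HR)
    (hc : ∀ v, c v ∈ SF hL F) (hn : Nul L (∑ v, c v * Xg s (w v))) {y : ℝ} (hy : 1 ≤ y)
    (hw : ∀ v, c v ≠ 0 → w v = [] ∨ ∃ i u, w v = .inr i :: u ∧ y ≤ x i) {i : I} (hi : x i = y)
    (β : List ℕ+) :
    Nul L (∑ v ∈ Finset.univ.filter (fun v => hd i (w v)), c v * Xb s (w v).tail β) := by
  set Λ : Finset (List ℕ+) := Finset.univ.biUnion fun v =>
    ((sp (w v).tail).map Prod.fst).toFinset with hΛ
  have hΛm : ∀ v, ∀ p ∈ sp (w v).tail, p.1 ∈ Λ := by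
    intro v p hp
    rw [hΛ, Finset.mem_biUnion]
    refine ⟨v, Finset.mem_univ _, ?_⟩
    rw [List.mem_toFinset, List.mem_map]
    exact ⟨p, hp, rfl⟩
  set Y : I → List ℕ+ → HR := fun i β =>
    ∑ v ∈ Finset.univ.filter (fun v => hd i (w v)), c v * Xb s (w v).tail β with hY
  by_contra hcon
  have hβ : β ∈ Λ := by
    by_contra hβ
    apply hcon
    have h1 : ∀ v, Xb s (w v).tail β = 0 := by
      intro v
      unfold Xb
      refine List.sum_eq_zero fun z hz => ?_
      obtain ⟨p, hp, rfl⟩ := List.mem_map.1 hz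
      rw [if_neg]
      intro h
      exact hβ (h ▸ hΛm v p hp)
    intro t
    have h2 : ∑ v ∈ Finset.univ.filter (fun v => hd i (w v)), c v * Xb s (w v).tail β = 0 :=
      Finset.sum_eq_zero fun v _ => by rw [h1, mul_zero]
    rw [h2]
    exact SR_zero t
  obtain ⟨t0, ht0⟩ : ∃ t0, Y i β ∉ SR L t0 := by
    unfold Nul at hcon
    push Not at hcon
    exact hcon
  choose Yr hYr using fun (i : {i // x i = y}) (β : Λ) => gr_surj (Y i β)
  set T : ℕ → ℝ := fun n => ∑ i : {i // x i = y}, ∑ β : Λ, |Yr i β n| with hT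
  have hTY : ∀ (i : {i // x i = y}) (β : Λ) n, |Yr i β n| ≤ T n := fun i β n =>
    (Finset.single_le_sum (f := fun β : Λ => |Yr i β n|) (fun _ _ => abs_nonneg _)
      (Finset.mem_univ β)).trans
    (Finset.single_le_sum (f := fun i : {i // x i = y} => ∑ β : Λ, |Yr i β n|)
      (fun _ _ => Finset.sum_nonneg fun _ _ => abs_nonneg _) (Finset.mem_univ i))
  have hT0 : ∀ n, 0 ≤ T n := fun n =>
    Finset.sum_nonneg fun _ _ => Finset.sum_nonneg fun _ _ => abs_nonneg _
  have hTn : gr T ∉ SR L t0 := by
    intro h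
    apply ht0
    rw [← hYr ⟨i, hi⟩ ⟨β, hβ⟩]
    refine SR_dom h (Eventually.of_forall fun n => ?_)
    rw [abs_of_nonneg (hT0 n)]
    exact hTY _ _ _
  have hTinv := SR_inv hL t0 _ hTn
  have hTne : ∀ᶠ n in (UU : Filter ℕ), T n ≠ 0 := by
    rw [← gr_ne_zero]
    intro h
    rw [h] at hTn
    exact hTn (SR_zero t0)
  have hyg : ∀ (i : {i // x i = y}) (β : Λ), Y i β * (gr T)⁻¹ ∈ SR L 0 := by
    intro i β
    rw [← hYr i β, gr_inv, gr_mul]
    refine SR_bdd hL 1 (Eventually.of_forall fun n => ?_)
    rw [abs_mul, abs_inv, abs_of_nonneg (hT0 n)]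
    rcases (hT0 n).lt_or_eq with h | h
    · rw [← div_eq_mul_inv, div_le_one h]
      exact hTY _ _ _
    · rw [← h, inv_zero, mul_zero]
      exact zero_le_one
  -- bounds for the coefficients
  choose c0 hc0 hc0' using fun v => SF_bdd (hc v)
  set K : ℝ := ∑ v, c0 v with hK
  have hcK : ∀ v, c v ∈ SR L (-K) := fun v =>
    SR_anti hL (neg_le_neg (Finset.single_le_sum (f := c0) (fun v _ => hc0 v)
      (Finset.mem_univ v))) (hc0' v)
  obtain ⟨m0, hm0⟩ := SF_common hc
  -- the factors
  choose a ha using fun q => gm_surj (ch1 hL q (-y))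
  have hκ : ∀ q (i : I), rho (ug s q i / ch1 hL q (-y)) =
      gr fun n => ((a q n : ℚ) : ℝ)⁻¹ * ((pr q : ℝ) ^ (s n i))⁻¹ := by
    intro q i
    rw [← ha q, map_div₀, div_eq_mul_inv]
    unfold ug
    rw [rho_gm, rho_gm, gr_inv, gr_mul]
    congr 1
    funext n
    push_cast
    ring
  have hU : ∀ q (i : {i // x i = y}), Un L (rho (ug s q i.1 / ch1 hL q (-y))) := by
    intro q i
    have h1 := ug_const hL hs q i.1
    rw [i.2] at h1
    refine ⟨?_, SR_KA hL ⊤ ⟨_, rho_mem_KA hL ⊤ ⟨_, h1⟩⟩, ?_⟩
    · rw [Ne, map_eq_zero, div_eq_zero_iff, not_or]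
      refine ⟨?_, ch1_ne hL q _⟩
      intro h2
      have h3 : gm (fun n => ((pr q : ℚ) ^ (s n i.1))⁻¹) = 0 := h2
      rw [← gm_zero, gm_eq] at h3
      obtain ⟨n, hn⟩ := h3.exists
      have h4 : ((pr q : ℚ) ^ (s n i.1))⁻¹ ≠ 0 :=
        inv_ne_zero (pow_ne_zero _ (by exact_mod_cast (pr_prime q).ne_zero))
      exact h4 hn
    · rw [← map_inv₀]
      exact SR_KA hL ⊤ ⟨_, rho_mem_KA hL ⊤ ⟨_, (KK L hL).inv_mem h1⟩⟩
  obtain ⟨q0, hq0⟩ := exists_nat_ge (Real.exp (Real.log 2 + K + t0))
  have hlog2 : 0 < Real.log 2 := Real.log_pos (by norm_num)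
  refine env Λ (s := fun n (i : {i // x i = y}) => s n i.1)
    (fun n i j hij => Subtype.ext (hinj n hij)) hL (fun q n => ((a q n : ℚ) : ℝ)⁻¹)
    (fun q i => by
      rw [← hκ q i.1]
      exact hU q i) (fun i β n => Yr i β n / T n) ?_ (q0 + m0) hlog2 ?_
  · filter_upwards [hTne] with n h1
    have h2 : ∀ i : {i // x i = y}, ∑ β : Λ, |Yr i β n / T n| =
        (∑ β : Λ, |Yr i β n|) / T n := by
      intro i
      rw [Finset.sum_div]
      refine Finset.sum_congr rfl fun β _ => ?_
      rw [abs_div, abs_of_nonneg (hT0 n)]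
    rw [Finset.sum_congr rfl fun i _ => h2 i, ← Finset.sum_div]
    exact div_self h1
  · intro q hq
    have hp := pr_prime q
    have hp0 : 0 < pr q := hp.pos
    have hp2 : 2 ≤ pr q := hp.two_le
    have hpr : (0 : ℝ) < pr q := by exact_mod_cast hp0
    have hlog : 0 < Real.log (pr q) := Real.log_pos (by exact_mod_cast hp.one_lt)
    set N : ℕ := (pr q) ^ (⌈y⌉₊) with hN
    have hy1 : 1 ≤ ⌈y⌉₊ := Nat.one_le_ceil_iff.2 (by linarith only [hy])
    have hN2 : 2 ≤ N := hp2.trans (Nat.le_self_pow (by omega) _)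
    have h1 := trunc_sum hL hLs hst hcK hn (k := pr q * N) (Nat.mul_pos hp0 (by omega))
    have h2 := lead_sum hF hs hx w c hm0 hcK hy hw (q := q) (by omega) (N := N) (by omega)
      (SR_anti hL (by
        have h3 : Real.log ((pr q * N : ℕ) : ℝ) = (1 + (⌈y⌉₊ : ℝ)) * Real.log (pr q) := by
          rw [hN]
          push_cast
          rw [Real.log_mul hpr.ne' (pow_pos hpr _).ne', Real.log_pow]
          ring
        rw [h3]
        have h4 := Nat.le_ceil y
        nlinarith only [h4, hlog]) h1)
    have hlogp : Real.log 2 + K + t0 ≤ Real.log (pr q) := by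
      rw [Real.le_log_iff_exp_le hpr]
      refine hq0.trans ?_
      have := pr_ge q
      exact_mod_cast (by omega : q0 ≤ pr q)
    -- the expansions
    have h3 : ∑ i ∈ Finset.univ.filter (fun i => x i = y), rho (ug s q i / ch1 hL q (-y)) *
        ∑ m ∈ Finset.Ico 1 N, rho (lg s (.inr i) m) *
          ∑ β : Λ, algebraMap ℝ HR (hr (cl β.1) (pr q * m)) * Y i β ∈
        SR L (Real.log (pr q) - K) := by
      have h4 : ∑ i ∈ Finset.univ.filter (fun i => x i = y), rho (ug s q i / ch1 hL q (-y)) *
          ∑ v ∈ Finset.univ.filter (fun v => hd i (w v)), c v *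
            ∑ m ∈ Finset.Ico 1 N, rho (lg s (.inr i) m) * Rg s (w v).tail (pr q * m) ∈
          SR L (Real.log (pr q) - K) := by
        refine SR_sum hL _ _ fun i hi => ?_
        rw [Finset.mem_filter] at hi
        have h5 : ∑ v ∈ Finset.univ.filter (fun v => hd i (w v)), c v *
            ∑ m ∈ Finset.Ico 1 N, rho (lg s (.inr i) m) * Rg s (w v).tail (pr q * m) ∈
            SR L (Real.log (pr q) - K) := by
          refine SR_sum hL _ _ fun v _ => ?_
          have h6 : ∑ m ∈ Finset.Ico 1 N, rho (lg s (.inr i) m) * Rg s (w v).tail (pr q * m) ∈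
              SR L (Real.log (pr q)) := by
            refine SR_sum hL _ _ fun m hm => ?_
            rw [Finset.mem_Ico] at hm
            have h7 := SR_mul hL (SR_lg_zero hL hs hx (.inr i) hm.1)
              (SR_Rg hL hLs (w v).tail (k := pr q * m) (Nat.mul_pos hp0 hm.1))
            refine SR_anti hL ?_ h7
            rw [zero_add]
            refine Real.log_le_log hpr ?_
            exact_mod_cast Nat.le_mul_of_pos_right _ hm.1
          have h7 := SR_mul hL (hcK v) h6
          refine SR_anti hL (le_of_eq ?_) h7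
          ring
        have h6 := SR_mul hL (hU q ⟨i, hi.2⟩).2.1 h5
        rwa [zero_add] at h6
      have h5 := SR_sub hL h2 h4
      refine (congrArg (fun z => z ∈ SR L (Real.log (pr q) - K)) ?_).mp h5
      rw [← Finset.sum_sub_distrib]
      refine Finset.sum_congr rfl fun i _ => ?_
      rw [← mul_sub]
      congr 1
      rw [← Finset.sum_sub_distrib]
      have e1 : ∀ v, c v * ∑ m ∈ Finset.Ico 1 N,
            rho (lg s (.inr i) m * Gq s (w v).tail (pr q * m)) -
          c v * ∑ m ∈ Finset.Ico 1 N, rho (lg s (.inr i) m) * Rg s (w v).tail (pr q * m) =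
          ∑ m ∈ Finset.Ico 1 N, rho (lg s (.inr i) m) *
            ∑ β : Λ, algebraMap ℝ HR (hr (cl β.1) (pr q * m)) * (c v * Xb s (w v).tail β) := by
        intro v
        rw [← mul_sub, ← Finset.sum_sub_distrib, Finset.mul_sum]
        refine Finset.sum_congr rfl fun m hm => ?_
        rw [Finset.mem_Ico] at hm
        rw [map_mul, Gq_expand hL hLs (w v).tail (k := pr q * m) (Nat.mul_pos hp0 hm.1),
          Xb_sum s Λ (sp (w v).tail) (hΛm v) (fun β => algebraMap ℝ HR (hr (cl β) (pr q * m)))]
        rw [mul_add, add_sub_cancel_right, mul_left_comm]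
        congr 1
        rw [Finset.mul_sum]
        refine Finset.sum_congr rfl fun β _ => ?_
        rw [mul_left_comm]
        rfl
      rw [Finset.sum_congr rfl fun v _ => e1 v, Finset.sum_comm]
      refine Finset.sum_congr rfl fun m _ => ?_
      rw [← Finset.mul_sum]
      congr 1
      rw [Finset.sum_comm]
      refine Finset.sum_congr rfl fun β _ => ?_
      rw [← Finset.mul_sum]
    have h4 := SR_mul hL h3 hTinv
    -- the first term
    have h5 : ∑ i ∈ Finset.univ.filter (fun i => x i = y), rho (ug s q i / ch1 hL q (-y)) *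
        ∑ β : Λ, algebraMap ℝ HR (hr (cl β.1) (pr q)) * (Y i β * (gr T)⁻¹) ∈
        SR L (Real.log 2) := by
      have h6 : ∑ i ∈ Finset.univ.filter (fun i => x i = y), rho (ug s q i / ch1 hL q (-y)) *
          ∑ m ∈ Finset.Ico 2 N, rho (lg s (.inr i) m) *
            ∑ β : Λ, algebraMap ℝ HR (hr (cl β.1) (pr q * m)) * (Y i β * (gr T)⁻¹) ∈
          SR L (Real.log 2) := by
        refine SR_sum hL _ _ fun i hi => ?_
        rw [Finset.mem_filter] at hi
        have h7 : ∑ m ∈ Finset.Ico 2 N, rho (lg s (.inr i) m) *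
            ∑ β : Λ, algebraMap ℝ HR (hr (cl β.1) (pr q * m)) * (Y i β * (gr T)⁻¹) ∈
            SR L (Real.log 2) := by
          refine SR_sum hL _ _ fun m hm => ?_
          rw [Finset.mem_Ico] at hm
          have h8 : ∑ β : Λ, algebraMap ℝ HR (hr (cl β.1) (pr q * m)) * (Y i β * (gr T)⁻¹) ∈
              SR L 0 := by
            refine SR_sum hL _ _ fun β _ => ?_
            have h9 := SR_mul hL (SR_cst hL (hr (cl β.1) (pr q * m))) (hyg ⟨i, hi.2⟩ β)
            rwa [zero_add] at h9
          have h9 := SR_mul hL (SR_lg hL hs (.inr i) (m := m) (by omega)) h8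
          refine SR_anti hL ?_ h9
          rw [add_zero]
          show Real.log 2 ≤ x i * Real.log m
          have h10 : Real.log 2 ≤ Real.log m :=
            Real.log_le_log (by norm_num) (by exact_mod_cast hm.1)
          have h11 := hx i
          nlinarith only [h10, h11, hlog2]
        have h8 := SR_mul hL (hU q ⟨i, hi.2⟩).2.1 h7
        rwa [zero_add] at h8
      have h7 := SR_sub hL (SR_anti hL (show Real.log 2 ≤ Real.log (pr q) - K + -t0 by
        linarith only [hlogp]) h4) h6
      refine (congrArg (fun z => z ∈ SR L (Real.log 2)) ?_).mp h7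
      rw [Finset.sum_mul, ← Finset.sum_sub_distrib]
      refine Finset.sum_congr rfl fun i _ => ?_
      rw [mul_assoc, ← mul_sub]
      congr 1
      rw [Finset.sum_mul]
      have e1 : ∀ m, rho (lg s (.inr i) m) *
          (∑ β : Λ, algebraMap ℝ HR (hr (cl β.1) (pr q * m)) * Y i β) * (gr T)⁻¹ =
          rho (lg s (.inr i) m) *
            ∑ β : Λ, algebraMap ℝ HR (hr (cl β.1) (pr q * m)) * (Y i β * (gr T)⁻¹) := by
        intro m
        rw [mul_assoc, Finset.sum_mul]
        congr 1
        exact Finset.sum_congr rfl fun β _ => mul_assoc _ _ _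
      rw [Finset.sum_congr rfl fun m _ => e1 m,
        Finset.sum_eq_sum_Ico_succ_bot (by omega : 1 < N), add_sub_cancel_right, lg_one, map_one,
        one_mul, mul_one]
    have h6 : (gr fun n => ((a q n : ℚ) : ℝ)⁻¹ * ∑ i : {i // x i = y},
        ((pr q : ℝ) ^ (s n i.1))⁻¹ * ∑ β : Λ, hr (cl β.1) (pr q) * (Yr i β n / T n)) =
        ∑ i ∈ Finset.univ.filter (fun i => x i = y), rho (ug s q i / ch1 hL q (-y)) *
        ∑ β : Λ, algebraMap ℝ HR (hr (cl β.1) (pr q)) * (Y i β * (gr T)⁻¹) := by
      rw [Finset.sum_subtype (Finset.univ.filter (fun i => x i = y)) (p := fun i => x i = y)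
        (fun i => by rw [Finset.mem_filter]; exact ⟨fun h => h.2, fun h => ⟨Finset.mem_univ _, h⟩⟩)]
      have e1 : ∀ i : {i // x i = y}, rho (ug s q i.1 / ch1 hL q (-y)) *
          ∑ β : Λ, algebraMap ℝ HR (hr (cl β.1) (pr q)) * (Y i β * (gr T)⁻¹) =
          gr fun n => (((a q n : ℚ) : ℝ)⁻¹ * ((pr q : ℝ) ^ (s n i.1))⁻¹) *
            ∑ β : Λ, hr (cl β.1) (pr q) * (Yr i β n / T n) := by
        intro i
        have e2 : ∀ β : Λ, algebraMap ℝ HR (hr (cl β.1) (pr q)) * (Y i β * (gr T)⁻¹) =
            gr fun n => hr (cl β.1) (pr q) * (Yr i β n / T n) := by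
          intro β
          rw [← hYr i β, gr_inv, gr_mul, cst_eq, gr_mul]
          rfl
        rw [Finset.sum_congr rfl fun β _ => e2 β, gr_sum, hκ, gr_mul]
      rw [Finset.sum_congr rfl fun i _ => e1 i, gr_sum]
      congr 1
      funext n
      rw [Finset.mul_sum]
      refine Finset.sum_congr rfl fun i _ => ?_
      ring
    rw [h6]
    exact h5

end

/-- the first small letters -/
def pre : List (ℕ+ ⊕ I) → List ℕ+
  | [] => []
  | .inr _ :: _ => []
  | .inl b :: u => b :: pre u

/-- the rest of the word -/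
def rst : List (ℕ+ ⊕ I) → List (ℕ+ ⊕ I)
  | [] => []
  | .inr i :: u => .inr i :: u
  | .inl _ :: u => rst u

omit [Fintype I] [DecidableEq I] in
lemma pre_rst (t : List (ℕ+ ⊕ I)) : t = (pre t).map Sum.inl ++ rst t := by
  induction t with
  | nil => rfl
  | cons a u ih =>
    cases a with
    | inr i => rfl
    | inl b =>
      rw [pre, rst, List.map_cons, List.cons_append, ← ih]

omit [Fintype I] [DecidableEq I] in
lemma Lg_rst (t : List (ℕ+ ⊕ I)) : Lg (rst t) := by
  induction t with
  | nil => exact Or.inl rfl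
  | cons a u ih =>
    cases a with
    | inr i => exact Or.inr ⟨i, u, rfl⟩
    | inl b => exact ih

omit [Fintype I] [DecidableEq I] in
lemma rst_length (t : List (ℕ+ ⊕ I)) : (rst t).length ≤ t.length := by
  have h1 := congrArg List.length (pre_rst t)
  rw [List.length_append] at h1
  omega

open Classical in
omit [Fintype I] [DecidableEq I] in
lemma Xb_pre (s : ℕ → I → ℕ) (t : List (ℕ+ ⊕ I)) : ∀ β : List ℕ+, (pre t).length ≤ β.length →
    Xb s t β = if pre t = β then Xg s (rst t) else 0 := by
  induction t with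
  | nil =>
    intro β _
    unfold Xb
    rw [sp, List.map_singleton, List.sum_singleton, pre, rst]
  | cons a u ih =>
    cases a with
    | inr i =>
      intro β _
      unfold Xb
      rw [sp, List.map_singleton, List.sum_singleton, pre, rst]
    | inl b =>
      intro β hβ
      cases β with
      | nil =>
        rw [pre, List.length_cons, List.length_nil] at hβ
        omega
      | cons b' β' =>
        rw [pre, List.length_cons, List.length_cons] at hβ
        have h1 := ih β' (by omega)
        unfold Xb at h1 ⊢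
        rw [sp, List.map_cons, List.sum_cons, List.map_map, pre, rst]
        rw [if_neg (by simp), zero_add]
        by_cases hb : b = b'
        · subst hb
          simp only [List.cons.injEq, true_and]
          rw [← h1]
          congr 1
          refine List.map_congr_left fun p _ => ?_
          simp
        · rw [if_neg (by
            intro h2
            rw [List.cons.injEq] at h2
            exact hb h2.1)]
          refine List.sum_eq_zero fun z hz => ?_
          obtain ⟨p, _, rfl⟩ := List.mem_map.1 hz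
          simp [hb]

section

variable {L : ℕ → ℝ} {hL : Tendsto L atTop atTop} {F : IntermediateField ℚ ℝ}
  {s : ℕ → I → ℕ} {x : I → ℝ}

/-- **multiple zeta values with large arguments are linearly independent** -/
theorem indW (hF : FiniteDimensional ℚ F) (hs : Lim s x L) (hx : ∀ i, 1 ≤ x i)
    (hLs : ∀ n i, L n ≤ (s n i : ℝ)) (hinj : ∀ n, Function.Injective (s n)) (r : ℕ) :
    ∀ (W : Type) [Fintype W] (w : W → List (ℕ+ ⊕ I)), Function.Injective w →
      (∀ v, Lg (w v)) → (∀ v, (w v).length ≤ r) → ∀ c : W → HR, (∀ v, c v ∈ SF hL F) →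
      Nul L (∑ v, c v * Xg s (w v)) → ∀ v, c v = 0 := by
  classical
  have hnil : Xg s ([] : List (ℕ+ ⊕ I)) = 1 := by
    unfold Xg
    simp only [Xt_nil]
    exact gr_one
  have hA : ∀ (W : Type) [Fintype W] (w : W → List (ℕ+ ⊕ I)), Function.Injective w →
      ∀ c : W → HR, (∀ v, c v ∈ SF hL F) → Nul L (∑ v, c v * Xg s (w v)) →
      (∀ v, c v ≠ 0 → w v = []) → ∀ v, c v = 0 := by
    intro W _ w hw c hc hn h0 v
    by_contra hv
    have h1 : ∑ v, c v * Xg s (w v) = c v := by
      rw [Finset.sum_eq_single v]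
      · rw [h0 v hv, hnil, mul_one]
      · intro v' _ hv'
        by_contra h2
        have h3 : c v' ≠ 0 := left_ne_zero_of_mul h2
        exact hv' (hw ((h0 v' h3).trans (h0 v hv).symm))
      · intro h2
        exact absurd (Finset.mem_univ v) h2
    rw [h1] at hn
    exact hv (SF_nul hF (hc v) hn)
  induction r with
  | zero =>
    intro W _ w hw hst hlen c hc hn
    exact hA W w hw c hc hn fun v _ => List.length_eq_zero_iff.1 (Nat.le_zero.1 (hlen v))
  | succ r ih =>
    intro W _ w hw hst hlen c hc hn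
    by_cases hB : ∀ v, c v ≠ 0 → w v = []
    · exact hA W w hw c hc hn hB
    exfalso
    push Not at hB
    obtain ⟨v2, hv2, hv2'⟩ := hB
    set φ : W → ℝ := fun v => match w v with
      | .inr i :: _ => x i
      | _ => 0 with hφ
    obtain ⟨v3, hv3, hmin⟩ := Finset.exists_min_image
      (Finset.univ.filter fun v => c v ≠ 0 ∧ w v ≠ []) φ
      ⟨v2, Finset.mem_filter.2 ⟨Finset.mem_univ _, hv2, hv2'⟩⟩
    rw [Finset.mem_filter] at hv3
    obtain ⟨i3, u3, h3⟩ := (hst v3).resolve_left hv3.2.2
    have hφ3 : φ v3 = x i3 := by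
      rw [hφ]
      simp only [h3]
    have hw' : ∀ v, c v ≠ 0 → w v = [] ∨ ∃ i u, w v = .inr i :: u ∧ x i3 ≤ x i := by
      intro v hv
      rcases hst v with h | ⟨i, u, h⟩
      · exact Or.inl h
      · right
        refine ⟨i, u, h, ?_⟩
        have h4 := hmin v (Finset.mem_filter.2 ⟨Finset.mem_univ _, hv, by rw [h]; simp⟩)
        rw [hφ3] at h4
        have h5 : φ v = x i := by
          rw [hφ]
          simp only [h]
        rwa [h5] at h4
    have hheads := fun β => heads hF hs hx hLs hinj w hst c hc hn (hx i3) hw' rfl β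
    obtain ⟨v4, hv4, hmax⟩ := Finset.exists_max_image
      (Finset.univ.filter fun v => c v ≠ 0 ∧ hd i3 (w v)) (fun v => (pre (w v).tail).length)
      ⟨v3, Finset.mem_filter.2 ⟨Finset.mem_univ _, hv3.2.1, by rw [h3, hd_cons]⟩⟩
    rw [Finset.mem_filter] at hv4
    set β : List ℕ+ := pre (w v4).tail with hβ
    have h5 := ih {v // c v ≠ 0 ∧ hd i3 (w v) ∧ pre (w v).tail = β}
      (fun v => rst (w v).tail) (fun v v' hvv => by
        apply Subtype.ext
        apply hw
        rw [hd_eq v.2.2.1, hd_eq v'.2.2.1, pre_rst (w v).tail, pre_rst (w v').tail, v.2.2.2,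
          v'.2.2.2]
        congr 2) (fun v => Lg_rst _) (fun v => by
        have h6 := rst_length (w v).tail
        have h7 := hlen v
        have h8 := congrArg List.length (hd_eq v.2.2.1)
        rw [List.length_cons] at h8
        omega) (fun v => c v) (fun v => hc v) (by
        refine (congrArg (Nul L) ?_).mp (hheads β)
        have e1 : ∀ v ∈ Finset.univ.filter (fun v => hd i3 (w v)),
            c v * Xb s (w v).tail β = if c v ≠ 0 ∧ hd i3 (w v) ∧ pre (w v).tail = β then
              c v * Xg s (rst (w v).tail) else 0 := by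
          intro v hv
          rw [Finset.mem_filter] at hv
          by_cases hcv : c v = 0
          · rw [hcv, zero_mul, if_neg]
            intro h
            exact h.1 rfl
          · have h9 := hmax v (Finset.mem_filter.2 ⟨Finset.mem_univ _, hcv, hv.2⟩)
            rw [Xb_pre s (w v).tail β h9]
            by_cases h10 : pre (w v).tail = β
            · rw [if_pos h10, if_pos ⟨hcv, hv.2, h10⟩]
            · rw [if_neg h10, if_neg (fun h => h10 h.2.2), mul_zero]
        rw [Finset.sum_congr rfl e1, ← Finset.sum_filter, Finset.filter_filter]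
        refine Finset.sum_subtype _ (fun v => ?_) (fun v => c v * Xg s (rst (w v).tail))
        rw [Finset.mem_filter]
        constructor
        · intro h
          exact h.2.2
        · intro h
          exact ⟨Finset.mem_univ _, h.2.1, h⟩) ⟨v4, hv4.2.1, hv4.2.2, rfl⟩
    exact hv4.2.1 h5

end

end Pool.Agent.Y760.ZG
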